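import Pool.Agent.R660.SH.Defs

/-!
# Project SH, piece BALL: ball estimates from the masses of the boxes
-/

open Set Filter Topology MeasureTheory Metric

namespace Pool.Agent.R660.SH.BALL

/-- chain of the upper bounds of the masses -/
theorem chain_b (g b : ℕ → ℝ) (hb1 : ∀ k, 1 ≤ b k)
    (h : ∀ k, g k ≤ b k * g (k + 1)) (k k' : ℕ) (hk : k ≤ k') :
    g k ≤ (∏ i ∈ Finset.Ico k k', b i) * g k' := by
  induction k', hk using Nat.le_induction with
  | base => simp
  | succ n hn ih =>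
    rw [Finset.prod_Ico_succ_top hn]
    have h1 : 0 ≤ ∏ i ∈ Finset.Ico k n, b i :=
      Finset.prod_nonneg fun i _ => (zero_le_one.trans (hb1 i))
    calc g k ≤ (∏ i ∈ Finset.Ico k n, b i) * g n := ih
      _ ≤ (∏ i ∈ Finset.Ico k n, b i) * (b n * g (n + 1)) :=
        mul_le_mul_of_nonneg_left (h n) h1
      _ = _ := by ring

/-- chain of the lower bounds of the masses -/
theorem chain_a (g a : ℕ → ℝ) (ha1 : ∀ k, 1 ≤ a k)
    (h : ∀ k, a k * g (k + 1) ≤ g k) (k k' : ℕ) (hk : k ≤ k') :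
    (∏ i ∈ Finset.Ico k k', a i) * g k' ≤ g k := by
  induction k', hk using Nat.le_induction with
  | base => simp
  | succ n hn ih =>
    rw [Finset.prod_Ico_succ_top hn]
    have h1 : 0 ≤ ∏ i ∈ Finset.Ico k n, a i :=
      Finset.prod_nonneg fun i _ => (zero_le_one.trans (ha1 i))
    calc (∏ i ∈ Finset.Ico k n, a i) * a n * g (n + 1)
        = (∏ i ∈ Finset.Ico k n, a i) * (a n * g (n + 1)) := by ring
      _ ≤ (∏ i ∈ Finset.Ico k n, a i) * g n := mul_le_mul_of_nonneg_left (h n) h1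
      _ ≤ g k := ih

/-- the scale of a radius -/
theorem scale (q A r : ℝ) (hq0 : 0 < q) (hq1 : q < 1) (hA : 1 ≤ A) (hr : 0 < r) (hr1 : r ≤ 1) :
    ∃ n : ℕ, A * q ^ (n + 1) < r ∧ r ≤ A * q ^ n := by
  have hA0 : 0 < A := by linarith
  obtain ⟨n, h1, h2⟩ := exists_nat_pow_near_of_lt_one (x := r / A) (y := q) (div_pos hr hA0)
    ((div_le_one hA0).mpr (hr1.trans hA)) hq0 hq1
  refine ⟨n, ?_, ?_⟩
  · rw [lt_div_iff₀ hA0] at h1
    linarith
  · rw [div_le_iff₀ hA0] at h2
    linarith

theorem main : S_BALL := by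
  classical
  intro X _ _ _ V _ par adj c code a b C β Λ0 s t Cb Ca H μ m hμ hpc hcd hadj hH hm hC hb ha
    hT1 hT2 hC1 hβ hΛ hs ht hCb hCa ha1 hb1 hbs hat
  set q : ℝ := 1 / β with hq
  have hβ0 : 0 < β := by linarith
  have hq0 : 0 < q := by positivity
  have hq1 : q < 1 := by rw [hq, div_lt_one hβ0]; linarith
  have hqβ : q * β = 1 := by rw [hq]; field_simp
  set A : ℝ := 3 * Λ0 + 2 with hA
  have hA1 : 1 ≤ A := by linarith
  have hA0 : 0 < A := by linarith
  have hH0 : (0 : ℝ) ≤ H := Nat.cast_nonneg H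
  have hC0 : 0 ≤ C := by linarith
  have hB1 : 1 ≤ A * β ^ 2 := by
    have : (1 : ℝ) ≤ β ^ 2 := one_le_pow₀ (by linarith)
    exact one_le_mul_of_one_le_of_one_le hA1 this
  have hB0 : 0 < A * β ^ 2 := by linarith
  -- upper estimate
  have up : ∀ (k : ℕ) (x : X) (R : ℝ), R ≤ q ^ k →
      μ.real (ball x R) ≤ H * C * m k (code k x) := by
    intro k x R hR
    have h1 := hT2 k x R (Finset.univ.filter fun u => dist (c k u) x < (2 * Λ0 + 3) * q ^ k)
      (by
        intro u hu
        rw [Finset.mem_filter]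
        refine ⟨Finset.mem_univ _, hu.trans_le ?_⟩
        nlinarith)
    refine h1.trans ?_
    have h2 : ∀ u ∈ Finset.univ.filter (fun u => dist (c k u) x < (2 * Λ0 + 3) * q ^ k),
        m k u ≤ C * m k (code k x) := fun u hu =>
      hC k u _ (hadj k x u (Finset.mem_filter.mp hu).2)
    refine (Finset.sum_le_card_nsmul _ _ _ h2).trans ?_
    rw [nsmul_eq_mul, mul_assoc]
    apply mul_le_mul_of_nonneg_right
    · exact_mod_cast hH k x _ fun u hu => hadj k x u (Finset.mem_filter.mp hu).2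
    · exact mul_nonneg hC0 (hm _ _).le
  -- lower estimate
  have low : ∀ (k : ℕ) (x : X) (r : ℝ), A * q ^ k < r →
      m k (code k x) ≤ μ.real (ball x r) := by
    intro k x r hr
    refine (hT1 k (code k x)).trans ?_
    apply measureReal_mono
    · intro y hy
      rw [mem_closedBall] at hy
      rw [mem_ball]
      have h3 := dist_triangle y (c k (code k x)) x
      have h4 := hcd k x
      have h5 : 2 * (Λ0 + 1) * q ^ k + Λ0 * q ^ k = A * q ^ k := by rw [hA]; ring
      linarith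
    · exact measure_ne_top _ _
  -- powers
  have hpow : ∀ k k' : ℕ, k ≤ k' → β ^ (k' - k) * q ^ k' = q ^ k := by
    intro k k' hk
    obtain ⟨j, rfl⟩ := Nat.exists_eq_add_of_le hk
    rw [Nat.add_sub_cancel_left, pow_add]
    calc β ^ j * (q ^ k * q ^ j) = q ^ k * (q * β) ^ j := by rw [mul_pow]; ring
      _ = q ^ k := by rw [hqβ, one_pow, mul_one]
  refine ⟨H * C * Cb * (A * β ^ 2) ^ s + (A * β ^ 2) ^ t * Ca * (H * C) + (A * β ^ 2) ^ t + 1,
    ?_, ?_⟩
  · have e1 : 0 ≤ (H : ℝ) * C * Cb * (A * β ^ 2) ^ s := by positivity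
    have e2 : 0 ≤ (A * β ^ 2) ^ t * Ca * (H * C) := by positivity
    have e3 : 0 ≤ (A * β ^ 2) ^ t := by positivity
    linarith
  intro x r R hr hrR hR
  have hR0 : 0 < R := hr.trans hrR
  have hr1 : r ≤ 1 := hrR.le.trans hR
  have e1 : 0 ≤ (H : ℝ) * C * Cb * (A * β ^ 2) ^ s := by positivity
  have e2 : 0 ≤ (A * β ^ 2) ^ t * Ca * (H * C) := by positivity
  have e3 : 0 ≤ (A * β ^ 2) ^ t := by positivity
  obtain ⟨n, hn1, hn2⟩ := scale q A r hq0 hq1 hA1 hr hr1
  have hpos : 0 < μ.real (ball x r) := (hm _ _).trans_le (low (n + 1) x r hn1)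
  refine ⟨hpos, ?_, ?_⟩
  · obtain ⟨k, hk1, hk2⟩ := exists_nat_pow_near_of_lt_one hR0 hR hq0 hq1
    have hkn : k ≤ n + 1 := by
      by_contra hcon
      push Not at hcon
      have h6 : q ^ k ≤ q ^ (n + 1) := pow_le_pow_of_le_one hq0.le hq1.le hcon.le
      have h7 : q ^ (n + 1) ≤ A * q ^ (n + 1) :=
        le_mul_of_one_le_left (pow_nonneg hq0.le _) hA1
      linarith
    have h8 := up k x R hk2
    have h9 := chain_b (fun k => m k (code k x)) b hb1
      (fun k => by
        have := hb k (code (k + 1) x)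
        rwa [hpc] at this) k (n + 1) hkn
    have h9' : m k (code k x) ≤
        (∏ i ∈ Finset.Ico k (n + 1), b i) * m (n + 1) (code (n + 1) x) := h9
    have h10 := hbs k (n + 1) hkn
    have h11 := low (n + 1) x r hn1
    have h12 : β ^ (n + 1 - k) ≤ A * β ^ 2 * (R / r) := by
      rw [← mul_div_assoc, le_div_iff₀ hr]
      have h13 := hpow k (n + 1) hkn
      have h14 : β ^ (n + 1 - k) * r ≤ β ^ (n + 1 - k) * (A * q ^ n) :=
        mul_le_mul_of_nonneg_left hn2 (by positivity)
      have h15 : β ^ (n + 1 - k) * (A * q ^ n) = A * β ^ 2 * q ^ (k + 1) := by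
        have h16 : q ^ n = β * q ^ (n + 1) := by
          rw [pow_succ]
          calc q ^ n = q ^ n * (q * β) := by rw [hqβ, mul_one]
            _ = _ := by ring
        calc β ^ (n + 1 - k) * (A * q ^ n)
            = A * β * (β ^ (n + 1 - k) * q ^ (n + 1)) := by rw [h16]; ring
          _ = A * β * q ^ k := by rw [h13]
          _ = A * β * q ^ k * (q * β) := by rw [hqβ, mul_one]
          _ = _ := by ring
      have h17 : A * β ^ 2 * q ^ (k + 1) ≤ A * β ^ 2 * R :=
        mul_le_mul_of_nonneg_left hk1.le hB0.le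
      linarith
    have h18 : (β ^ (n + 1 - k)) ^ s ≤ (A * β ^ 2) ^ s * (R / r) ^ s := by
      rw [← Real.mul_rpow hB0.le (by positivity)]
      exact Real.rpow_le_rpow (by positivity) h12 hs
    have h19 : 0 ≤ (R / r) ^ s * μ.real (ball x r) := by positivity
    calc μ.real (ball x R) ≤ H * C * m k (code k x) := h8
      _ ≤ H * C * ((∏ i ∈ Finset.Ico k (n + 1), b i) * m (n + 1) (code (n + 1) x)) :=
        mul_le_mul_of_nonneg_left h9' (mul_nonneg hH0 hC0)
      _ ≤ H * C * ((Cb * ((A * β ^ 2) ^ s * (R / r) ^ s)) * μ.real (ball x r)) := by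
        apply mul_le_mul_of_nonneg_left _ (mul_nonneg hH0 hC0)
        apply mul_le_mul _ h11 (hm _ _).le (by positivity)
        exact h10.trans (mul_le_mul_of_nonneg_left h18 hCb.le)
      _ = (H * C * Cb * (A * β ^ 2) ^ s) * ((R / r) ^ s * μ.real (ball x r)) := by ring
      _ ≤ (H * C * Cb * (A * β ^ 2) ^ s + (A * β ^ 2) ^ t * Ca * (H * C) +
          (A * β ^ 2) ^ t + 1) * ((R / r) ^ s * μ.real (ball x r)) :=
        mul_le_mul_of_nonneg_right (by linarith) h19
      _ = _ := by ring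
  · obtain ⟨k2, hk1, hk2⟩ := exists_nat_pow_near_of_lt_one hr hr1 hq0 hq1
    obtain ⟨n1, hm1, hm2⟩ := scale q A R hq0 hq1 hA1 hR0 hR
    have hR1 : R ≤ A * β * q ^ (n1 + 1) := by
      have h16 : A * β * q ^ (n1 + 1) = A * q ^ n1 := by
        rw [pow_succ]
        calc A * β * (q ^ n1 * q) = A * q ^ n1 * (q * β) := by ring
          _ = _ := by rw [hqβ, mul_one]
      rw [h16]
      exact hm2
    have h8 := up k2 x r hk2
    have h11 := low (n1 + 1) x R hm1
    have hmono : μ.real (ball x r) ≤ μ.real (ball x R) :=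
      measureReal_mono (ball_subset_ball hrR.le) (measure_ne_top _ _)
    have hRR : 0 ≤ μ.real (ball x R) := measureReal_nonneg
    rcases le_or_gt (n1 + 1) k2 with hle | hgt
    · have h9 := chain_a (fun k => m k (code k x)) a ha1
        (fun k => by
          have := ha k (code (k + 1) x)
          rwa [hpc] at this) (n1 + 1) k2 hle
      have h9' : (∏ i ∈ Finset.Ico (n1 + 1) k2, a i) * m k2 (code k2 x) ≤
        m (n1 + 1) (code (n1 + 1) x) := h9
      have h10 := hat (n1 + 1) k2 hle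
      have h12 : R / r ≤ A * β ^ 2 * β ^ (k2 - (n1 + 1)) := by
        rw [div_le_iff₀ hr]
        have h13 := hpow (n1 + 1) k2 hle
        calc R ≤ A * β * q ^ (n1 + 1) := hR1
          _ = A * β * (β ^ (k2 - (n1 + 1)) * q ^ k2) := by rw [h13]
          _ = A * β * (β ^ (k2 - (n1 + 1)) * q ^ k2) * (q * β) := by rw [hqβ, mul_one]
          _ = A * β ^ 2 * β ^ (k2 - (n1 + 1)) * q ^ (k2 + 1) := by ring
          _ ≤ A * β ^ 2 * β ^ (k2 - (n1 + 1)) * r :=
            mul_le_mul_of_nonneg_left hk1.le (by positivity)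
      have h18 : (R / r) ^ t ≤ (A * β ^ 2) ^ t * (β ^ (k2 - (n1 + 1))) ^ t := by
        rw [← Real.mul_rpow hB0.le (by positivity)]
        exact Real.rpow_le_rpow (by positivity) h12 ht
      have hprod : 0 ≤ ∏ i ∈ Finset.Ico (n1 + 1) k2, a i :=
        Finset.prod_nonneg fun i _ => (zero_le_one.trans (ha1 i))
      calc (R / r) ^ t * μ.real (ball x r)
          ≤ ((A * β ^ 2) ^ t * (Ca * ∏ i ∈ Finset.Ico (n1 + 1) k2, a i)) *
            (H * C * m k2 (code k2 x)) := by
            apply mul_le_mul _ h8 measureReal_nonneg (by positivity)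
            exact h18.trans (mul_le_mul_of_nonneg_left h10 e3)
        _ = ((A * β ^ 2) ^ t * Ca * (H * C)) *
            ((∏ i ∈ Finset.Ico (n1 + 1) k2, a i) * m k2 (code k2 x)) := by ring
        _ ≤ ((A * β ^ 2) ^ t * Ca * (H * C)) * μ.real (ball x R) :=
            mul_le_mul_of_nonneg_left (h9'.trans h11) e2
        _ ≤ _ := mul_le_mul_of_nonneg_right (by linarith) hRR
    · have h12 : R / r ≤ A * β ^ 2 := by
        rw [div_le_iff₀ hr]
        have h13 : q ^ (n1 + 1) ≤ q ^ (k2 + 1) := pow_le_pow_of_le_one hq0.le hq1.le (by omega)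
        have h14 : A * β ≤ A * β ^ 2 := by
          rw [pow_two, ← mul_assoc]
          exact le_mul_of_one_le_right (by positivity) (by linarith)
        calc R ≤ A * β * q ^ (n1 + 1) := hR1
          _ ≤ A * β * r := mul_le_mul_of_nonneg_left (h13.trans hk1.le) (by positivity)
          _ ≤ A * β ^ 2 * r := mul_le_mul_of_nonneg_right h14 hr.le
      have h18 : (R / r) ^ t ≤ (A * β ^ 2) ^ t := Real.rpow_le_rpow (by positivity) h12 ht
      calc (R / r) ^ t * μ.real (ball x r)
          ≤ (A * β ^ 2) ^ t * μ.real (ball x R) :=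
            mul_le_mul h18 hmono measureReal_nonneg e3
        _ ≤ _ := mul_le_mul_of_nonneg_right (by linarith) hRR

end Pool.Agent.R660.SH.BALL
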