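import Pool.Agent.R660.SH.Defs

/-! CODE: the sponge is the image of the coding map. -/

open Set Filter Topology

namespace Pool.Agent.R660.SH.CODE

variable {d : ℕ}

/-- partial codings -/
noncomputable def zz (n : Fin d → ℕ) (ω : ℕ → Fin d → ℕ) (y : EuclideanSpace ℝ (Fin d)) (L : ℕ) :
    EuclideanSpace ℝ (Fin d) :=
  WithLp.toLp 2 (fun l => ∑ p ∈ Finset.range L, (ω p l : ℝ) / (n l : ℝ) ^ (p + 1) +
    y l / (n l : ℝ) ^ L)

theorem zz_succ (n : Fin d → ℕ) (hn : ∀ l, 2 ≤ n l) (ω : ℕ → Fin d → ℕ)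
    (y : EuclideanSpace ℝ (Fin d)) (L : ℕ) :
    zz n ω y (L + 1) = Smap n (ω 0) (zz n (fun p => ω (p + 1)) y L) := by
  ext l
  have hn0 : (n l : ℝ) ≠ 0 := by
    have : (0 : ℝ) < n l := by exact_mod_cast (by have := hn l; omega : 0 < n l)
    exact this.ne'
  simp only [zz, Smap]
  rw [Finset.sum_range_succ', add_assoc, add_div, add_div, Finset.sum_div, zero_add, pow_one]
  have h1 : ∀ p ∈ Finset.range L, (ω (p + 1) l : ℝ) / (n l : ℝ) ^ (p + 1 + 1) =
      (ω (p + 1) l : ℝ) / (n l : ℝ) ^ (p + 1) / (n l : ℝ) := by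
    intro p _
    rw [pow_succ _ (p + 1), div_div]
  rw [Finset.sum_congr rfl h1, pow_succ, ← div_div]
  ring

theorem zz_mem (n : Fin d → ℕ) (hn : ∀ l, 2 ≤ n l) (D : Set (Fin d → ℕ))
    (K : Set (EuclideanSpace ℝ (Fin d))) (hK : K = ⋃ i ∈ D, Smap n i '' K)
    (y : EuclideanSpace ℝ (Fin d)) (hy : y ∈ K) (L : ℕ) :
    ∀ ω ∈ Dig D, zz n ω y L ∈ K := by
  induction L with
  | zero =>
    intro ω _
    have : zz n ω y 0 = y := by
      ext l
      simp [zz]
    rw [this]; exact hy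
  | succ L ih =>
    intro ω hω
    rw [zz_succ n hn, hK]
    rw [Set.mem_iUnion₂]
    exact ⟨ω 0, hω 0, _, ih _ (fun p => hω (p + 1)), rfl⟩

theorem zz_tend (h : S_NUM) (n : Fin d → ℕ) (hn : ∀ l, 2 ≤ n l) (ω : ℕ → Fin d → ℕ)
    (hω : ∀ p l, ω p l < n l) (y : ℕ → EuclideanSpace ℝ (Fin d)) (C : ℝ)
    (hy : ∀ L l, |y L l| ≤ C) :
    ∀ l, Tendsto (fun L => ∑ p ∈ Finset.range L, (ω p l : ℝ) / (n l : ℝ) ^ (p + 1) +
      y L l / (n l : ℝ) ^ L) atTop (𝓝 (tau n ω l)) := by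
  intro l
  have hn0 : (0 : ℝ) < n l := by exact_mod_cast (by have := hn l; omega : 0 < n l)
  have hn1 : (1 : ℝ) < n l := by exact_mod_cast (by have := hn l; omega : 1 < n l)
  have h1 := (h (n l) (fun p => ω p l) (hn l) (fun p => hω p l)).2.2.1
  have h2 := h1.hasSum.tendsto_sum_nat
  have h3 : Tendsto (fun L => y L l / (n l : ℝ) ^ L) atTop (𝓝 0) := by
    have h4 : Tendsto (fun L => C * (1 / (n l : ℝ)) ^ L) atTop (𝓝 (C * 0)) :=
      (tendsto_pow_atTop_nhds_zero_of_lt_one (by positivity)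
        (by rw [div_lt_one hn0]; exact hn1)).const_mul C
    rw [mul_zero] at h4
    refine squeeze_zero_norm (fun L => ?_) h4
    rw [norm_div, Real.norm_eq_abs, norm_pow, Real.norm_of_nonneg hn0.le, one_div, inv_pow,
      ← div_eq_mul_inv]
    gcongr
    exact hy L l
  have h5 := h2.add h3
  rw [add_zero] at h5
  exact h5

theorem main (h : S_NUM) : S_CODE := by
  classical
  intro d n D K hG hS
  obtain ⟨hmono, hn, hD, hDn⟩ := hG
  obtain ⟨hKc, hKn, hK⟩ := hS
  have hbd : ∃ C : ℝ, ∀ y ∈ K, ∀ l, |y l| ≤ C := by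
    obtain ⟨C, hC⟩ := hKc.isBounded.exists_norm_le
    refine ⟨C, fun y hy l => ?_⟩
    have := PiLp.norm_apply_le y l
    rw [Real.norm_eq_abs] at this
    exact this.trans (hC y hy)
  obtain ⟨C, hC⟩ := hbd
  apply Set.Subset.antisymm
  · intro x hx
    have hstep : ∀ y : K, ∃ (i : Fin d → ℕ) (y' : K), i ∈ D ∧ Smap n i y'.1 = y.1 := by
      intro y
      have hy : y.1 ∈ ⋃ i ∈ D, Smap n i '' K := hK.subset y.2
      rw [Set.mem_iUnion₂] at hy
      obtain ⟨i, hi, y', hy', he⟩ := hy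
      exact ⟨i, ⟨y', hy'⟩, hi, he⟩
    choose fi fy hfi hfe using hstep
    let s : ℕ → K := fun L => Nat.rec ⟨x, hx⟩ (fun _ y => fy y) L
    have hs : ∀ L, s (L + 1) = fy (s L) := fun L => rfl
    let ω : ℕ → Fin d → ℕ := fun p => fi (s p)
    have hω : ω ∈ Dig D := fun p => hfi _
    have hx2 : ∀ L l, x l = ∑ p ∈ Finset.range L, (ω p l : ℝ) / (n l : ℝ) ^ (p + 1) +
        (s L).1 l / (n l : ℝ) ^ L := by
      intro L l
      have hn0 : (n l : ℝ) ≠ 0 := by
        have : (0 : ℝ) < n l := by exact_mod_cast (by have := hn l; omega : 0 < n l)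
        exact this.ne'
      induction L with
      | zero =>
        have : s 0 = ⟨x, hx⟩ := rfl
        simp [this]
      | succ L ih =>
        rw [ih, Finset.sum_range_succ, add_assoc]
        congr 1
        have h1 := hfe (s L)
        have h2 : (s L).1 l = ((s (L + 1)).1 l + (ω L l : ℝ)) / (n l : ℝ) := by
          have h3 := congrArg (fun z : EuclideanSpace ℝ (Fin d) => z l) h1
          exact h3.symm
        rw [h2, pow_succ]
        field_simp
        ring
    refine ⟨ω, hω, ?_⟩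
    ext l
    have h1 := zz_tend h n hn ω (fun p l => hD _ (hω p) l) (fun L => (s L).1) C
      (fun L l => hC _ (s L).2 l) l
    have h2 : Tendsto (fun L => ∑ p ∈ Finset.range L, (ω p l : ℝ) / (n l : ℝ) ^ (p + 1) +
        (s L).1 l / (n l : ℝ) ^ L) atTop (𝓝 (x l)) := by
      have : (fun L => ∑ p ∈ Finset.range L, (ω p l : ℝ) / (n l : ℝ) ^ (p + 1) +
        (s L).1 l / (n l : ℝ) ^ L) = fun _ => x l := by
        funext L
        exact (hx2 L l).symm
      rw [this]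
      exact tendsto_const_nhds
    exact tendsto_nhds_unique h1 h2
  · rintro _ ⟨ω, hω, rfl⟩
    obtain ⟨y, hy⟩ := hKn
    have h1 := zz_tend h n hn ω (fun p l => hD _ (hω p) l) (fun _ => y) C (fun _ l => hC y hy l)
    have h2 : Tendsto (fun L => zz n ω y L) atTop (𝓝 (tau n ω)) := by
      have h3 : Tendsto (fun L => (fun l => ∑ p ∈ Finset.range L, (ω p l : ℝ) / (n l : ℝ) ^ (p + 1) +
          y l / (n l : ℝ) ^ L)) atTop (𝓝 (fun l => tau n ω l)) := tendsto_pi_nhds.2 h1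
      exact ((PiLp.continuous_toLp 2 (fun _ : Fin d => ℝ)).tendsto _).comp h3
    exact hKc.isClosed.mem_of_tendsto h2
      (Filter.Eventually.of_forall fun L => zz_mem n hn D K hK y hy L ω hω)

end Pool.Agent.R660.SH.CODE
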