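import Pool.Agent.R660.SH.Defs

/-! SH-DIMA: lower bound of the Assouad dimension of a sponge (helper888). -/

open Set Filter Topology MeasureTheory Metric

namespace Pool.Agent.R660.SH.DIMA

variable {d : ℕ}

/-! ### metric lemmas -/

lemma coverN_le {ι : Type} [Fintype ι] {r : ℝ} {E : Set (EuclideanSpace ℝ (Fin d))}
    (U : ι → Set (EuclideanSpace ℝ (Fin d))) (hU : ∀ i, Metric.ediam (U i) ≤ ENNReal.ofReal r)
    (hE : E ⊆ ⋃ i, U i) : coverN r E ≤ Fintype.card ι := by
  unfold coverN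
  apply Nat.sInf_le
  refine ⟨fun i => U ((Fintype.equivFin ι).symm i), fun i => hU _, ?_⟩
  intro x hx
  obtain ⟨i, hi⟩ := mem_iUnion.1 (hE hx)
  refine mem_iUnion.2 ⟨Fintype.equivFin ι i, ?_⟩
  simpa using hi

lemma coverN_spec {K E : Set (EuclideanSpace ℝ (Fin d))} (hK : IsCompact K) (hE : E ⊆ K) {r : ℝ}
    (hr : 0 < r) : ∃ U : Fin (coverN r E) → Set (EuclideanSpace ℝ (Fin d)),
      (∀ i, Metric.ediam (U i) ≤ ENNReal.ofReal r) ∧ E ⊆ ⋃ i, U i := by
  have hne : {m : ℕ | ∃ U : Fin m → Set (EuclideanSpace ℝ (Fin d)),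
      (∀ i, Metric.ediam (U i) ≤ ENNReal.ofReal r) ∧ E ⊆ ⋃ i, U i}.Nonempty := by
    obtain ⟨t, htK, htf, ht⟩ := finite_cover_balls_of_compact hK (show 0 < r / 2 by positivity)
    have := htf.fintype
    refine ⟨Fintype.card t, fun i => ball ((Fintype.equivFin t).symm i : EuclideanSpace ℝ (Fin d))
      (r / 2), ?_, ?_⟩
    · intro i
      apply Metric.ediam_le
      intro y hy z hz
      rw [edist_dist]
      apply ENNReal.ofReal_le_ofReal
      have h1 := dist_triangle_right y z ((Fintype.equivFin t).symm i : EuclideanSpace ℝ (Fin d))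
      rw [mem_ball] at hy hz
      linarith
    · intro x hx
      obtain ⟨y, hy, hxy⟩ := mem_iUnion₂.1 (ht (hE hx))
      refine mem_iUnion.2 ⟨Fintype.equivFin t ⟨y, hy⟩, ?_⟩
      simpa using hxy
  exact Nat.sInf_mem hne

lemma dist_le_sum (x y : EuclideanSpace ℝ (Fin d)) : dist x y ≤ ∑ l, |x l - y l| := by
  rw [EuclideanSpace.dist_eq]
  apply Real.sqrt_le_iff.2
  refine ⟨Finset.sum_nonneg (fun _ _ => abs_nonneg _), ?_⟩
  simp_rw [Real.dist_eq]
  exact Finset.sum_sq_le_sq_sum_of_nonneg (fun i _ => abs_nonneg _)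

lemma abs_sub_le_dist (x y : EuclideanSpace ℝ (Fin d)) (l : Fin d) : |x l - y l| ≤ dist x y := by
  rw [dist_eq_norm]
  have h := PiLp.norm_apply_le (x - y) l
  simpa using h

lemma grid_nonempty (K : Set (EuclideanSpace ℝ (Fin d))) :
    {s : ℝ | 0 ≤ s ∧ ∃ C ρ : ℝ, 0 < C ∧ 0 < ρ ∧ ∀ x ∈ K, ∀ r R : ℝ, 0 < r → r < R → R ≤ ρ →
    (coverN r (ball x R ∩ K) : ℝ) ≤ C * (R / r) ^ s}.Nonempty := by
  refine ⟨(d : ℝ), by positivity, (2 * d + 3) ^ d, 1, by positivity, one_pos, ?_⟩
  intro x _ r R hr hrR _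
  have hR : 0 < R := hr.trans hrR
  set q : ℕ := ⌊2 * R * (d + 1) / r⌋₊ with hq
  -- the cover
  let U : (Fin d → Fin (q + 1)) → Set (EuclideanSpace ℝ (Fin d)) := fun c =>
    {y | y ∈ ball x R ∧ ∀ l, ⌊(y l - (x l - R)) * (d + 1) / r⌋₊ = (c l).val}
  have hcov : ball x R ∩ K ⊆ ⋃ c, U c := by
    intro y hy
    have hyl : ∀ l, |y l - x l| < R := fun l => (abs_sub_le_dist y x l).trans_lt hy.1
    refine mem_iUnion.2 ⟨fun l => ⟨⌊(y l - (x l - R)) * (d + 1) / r⌋₊, ?_⟩, hy.1, fun l => rfl⟩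
    rw [Nat.lt_succ_iff]
    apply Nat.floor_le_floor
    apply div_le_div_of_nonneg_right _ hr.le
    apply mul_le_mul_of_nonneg_right _ (by positivity)
    have := (abs_lt.1 (hyl l)).2
    linarith
  have hdiam : ∀ c, Metric.ediam (U c) ≤ ENNReal.ofReal r := by
    intro c
    apply Metric.ediam_le
    rintro y ⟨hy, hyc⟩ z ⟨hz, hzc⟩
    rw [edist_dist]
    apply ENNReal.ofReal_le_ofReal
    refine (dist_le_sum y z).trans ?_
    have hl : ∀ l ∈ (Finset.univ : Finset (Fin d)), |y l - z l| ≤ r / (d + 1) := by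
      intro l _
      have e1 := hyc l
      have e2 := hzc l
      have a1 : 0 ≤ (y l - (x l - R)) * (d + 1) / r := by
        have := (abs_lt.1 ((abs_sub_le_dist y x l).trans_lt hy)).1
        have : 0 ≤ y l - (x l - R) := by linarith
        positivity
      have a2 : 0 ≤ (z l - (x l - R)) * (d + 1) / r := by
        have := (abs_lt.1 ((abs_sub_le_dist z x l).trans_lt hz)).1
        have : 0 ≤ z l - (x l - R) := by linarith
        positivity
      have b1 := Nat.floor_le a1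
      have b2 := Nat.floor_le a2
      have b3 := Nat.lt_floor_add_one ((y l - (x l - R)) * (d + 1) / r)
      have b4 := Nat.lt_floor_add_one ((z l - (x l - R)) * (d + 1) / r)
      rw [e1] at b1 b3
      rw [e2] at b2 b4
      have hd1 : (0:ℝ) < d + 1 := by positivity
      have key : |(y l - z l) * (d + 1) / r| ≤ 1 := by
        have e : (y l - z l) * (d + 1) / r
            = (y l - (x l - R)) * (d + 1) / r - (z l - (x l - R)) * (d + 1) / r := by ring
        rw [e, abs_le]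
        constructor <;> linarith
      rw [abs_div, abs_mul, abs_of_pos hd1, abs_of_pos hr, div_le_one hr] at key
      rw [le_div_iff₀ hd1]
      exact key
    refine (Finset.sum_le_sum hl).trans ?_
    rw [Finset.sum_const, Finset.card_univ, Fintype.card_fin, nsmul_eq_mul]
    rw [← mul_div_assoc, div_le_iff₀ (by positivity)]
    nlinarith
  have h1 := coverN_le (E := ball x R ∩ K) U hdiam hcov
  rw [Fintype.card_fun, Fintype.card_fin, Fintype.card_fin] at h1
  have h2 : (coverN r (ball x R ∩ K) : ℝ) ≤ ((q:ℝ) + 1) ^ d := by exact_mod_cast h1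
  refine h2.trans ?_
  have h3 : (q:ℝ) + 1 ≤ (2 * d + 3) * (R / r) := by
    have h4 : (q:ℝ) ≤ 2 * R * (d + 1) / r := Nat.floor_le (by positivity)
    have h5 : 1 ≤ R / r := by rw [le_div_iff₀ hr]; linarith
    have h6 : 2 * R * (d + 1) / r = (2 * d + 2) * (R / r) := by ring
    nlinarith
  rw [Real.rpow_natCast, ← mul_pow]
  exact pow_le_pow_left₀ (by positivity) h3 d

/-! ### digits -/

variable {n : Fin d → ℕ} {D : Set (Fin d → ℕ)}

lemma finite_D (hG : Good n D) : D.Finite := by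
  have h : D ⊆ ((Fintype.piFinset (fun l => Finset.range (n l)) : Finset (Fin d → ℕ)) :
      Set (Fin d → ℕ)) := by
    intro i hi
    simp only [Finset.mem_coe, Fintype.mem_piFinset, Finset.mem_range]
    exact hG.2.2.1 i hi
  exact (Finset.finite_toSet _).subset h

lemma Nch_set_subset (hG : Good n D) (l : Fin d) (e : Fin d → ℕ) :
    {j : ℕ | ∃ i ∈ D, (∀ l' < l, i l' = e l') ∧ i l = j} ⊆ Set.Iio (n l) := by
  rintro j ⟨i, hi, -, rfl⟩
  exact hG.2.2.1 i hi l

lemma Nch_le (hG : Good n D) (l : Fin d) (e : Fin d → ℕ) : Nch D l e ≤ n l := by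
  unfold Nch
  have h := Set.ncard_le_ncard (Nch_set_subset hG l e) (Set.finite_Iio _)
  have h2 : (Set.Iio (n l)).ncard = n l := by
    rw [← Finset.coe_Iio, Set.ncard_coe_finset, Nat.card_Iio]
  omega

lemma Nch_pos (hG : Good n D) (l : Fin d) {e : Fin d → ℕ} (he : e ∈ D) : 1 ≤ Nch D l e := by
  unfold Nch
  rw [Nat.one_le_iff_ne_zero, ← Nat.pos_iff_ne_zero]
  rw [Set.ncard_pos ((Set.finite_Iio _).subset (Nch_set_subset hG l e))]
  exact ⟨e l, e, he, fun _ _ => rfl, rfl⟩

lemma Nch_congr (l : Fin d) {e e' : Fin d → ℕ} (h : ∀ l' < l, e l' = e' l') :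
    Nch D l e = Nch D l e' := by
  unfold Nch
  congr 1
  ext j
  constructor
  · rintro ⟨i, hi, h1, h2⟩
    exact ⟨i, hi, fun l' hl' => (h1 l' hl').trans (h l' hl'), h2⟩
  · rintro ⟨i, hi, h1, h2⟩
    exact ⟨i, hi, fun l' hl' => (h1 l' hl').trans (h l' hl').symm, h2⟩

lemma exists_max (hG : Good n D) (l : Fin d) : ∃ e ∈ D, Nch D l e = Nmax D l := by
  have hne : (Nch D l '' D).Nonempty := hG.2.2.2.image _
  have hb : BddAbove (Nch D l '' D) := by
    refine ⟨n l, ?_⟩
    rintro _ ⟨e, he, rfl⟩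
    exact Nch_le hG l e
  obtain ⟨e, he, h⟩ := Nat.sSup_mem hne hb
  exact ⟨e, he, h⟩

lemma LL_mono (β : ℕ) (hβ : 1 ≤ β) (n : Fin d → ℕ) (l : Fin d) {k k' : ℕ} (h : k ≤ k') :
    LL β n l k ≤ LL β n l k' :=
  Nat.log_mono_right (Nat.pow_le_pow_right hβ h)

lemma LL_anti (β : ℕ) (hG : Good n D) {l' l : Fin d} (h : l' ≤ l) (k : ℕ) :
    LL β n l k ≤ LL β n l' k :=
  Nat.log_anti_left (by have := hG.2.1 l'; omega) (hG.1.monotone h)

/-- disjointness of the ranges -/
lemma eventually_disj (hG : Good n D) (m : ℕ) :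
    ∀ᶠ k in atTop, ∀ l' l : Fin d, l' < l → LL 2 n l (k + m) ≤ LL 2 n l' k := by
  rw [eventually_all]
  intro l'
  rw [eventually_all]
  intro l
  by_cases hl : l' < l
  swap
  · exact Eventually.of_forall (fun k h => absurd h hl)
  have ha2 := hG.2.1 l'
  have hb2 := hG.2.1 l
  have hab : n l' < n l := hG.1 hl
  set a := n l' with ha
  set b := n l with hb
  obtain ⟨L0, hL0⟩ : ∃ L0 : ℕ, ∀ L, L0 ≤ L → 2 ^ m * a ^ L ≤ b ^ L := by
    have h1 : (1:ℝ) < (b:ℝ) / a := by
      rw [lt_div_iff₀ (by positivity), one_mul]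
      exact_mod_cast hab
    have h2 := tendsto_pow_atTop_atTop_of_one_lt h1
    obtain ⟨L0, hL0⟩ := (h2.eventually_ge_atTop ((2:ℝ) ^ m)).exists_forall_of_atTop
    refine ⟨L0, ?_⟩
    intro L hL
    have h3 := hL0 L hL
    rw [div_pow, le_div_iff₀ (by positivity)] at h3
    exact_mod_cast h3
  filter_upwards [eventually_ge_atTop (b ^ L0)] with k hk _
  have h1 : L0 ≤ LL 2 n l (k + m) := by
    unfold LL
    apply Nat.le_log_of_pow_le (by omega)
    calc b ^ L0 ≤ k := hk
      _ ≤ k + m := Nat.le_add_right _ _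
      _ ≤ 2 ^ (k + m) := Nat.lt_two_pow_self.le
  have h2 := hL0 _ h1
  have h3 : b ^ (LL 2 n l (k + m)) ≤ 2 ^ (k + m) := Nat.pow_log_le_self _ (by positivity)
  show LL 2 n l (k + m) ≤ Nat.log a (2 ^ k)
  apply Nat.le_log_of_pow_le (by omega)
  have h4 : 2 ^ m * a ^ (LL 2 n l (k + m)) ≤ 2 ^ m * 2 ^ k := by
    calc _ ≤ b ^ (LL 2 n l (k + m)) := h2
      _ ≤ 2 ^ (k + m) := h3
      _ = 2 ^ m * 2 ^ k := by rw [pow_add, mul_comm]
  exact Nat.le_of_mul_le_mul_left h4 (by positivity)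

/-- agreement of digits from agreement of boxes -/
lemma digits_eq (hN : S_NUM) (hG : Good n D) {β k : ℕ} {ω ω' : ℕ → Fin d → ℕ} (hω : ω ∈ Dig D)
    (hω' : ω' ∈ Dig D) (h : box β n k ω = box β n k ω') (l : Fin d) (p : ℕ)
    (hp : p < LL β n l k) : ω p l = ω' p l := by
  have h1 := (hN (n l) (fun p => ω p l) (hG.2.1 l) (fun p => hG.2.2.1 _ (hω p) l)).2.2.2.2.2
    (fun p => ω' p l) (fun p => hG.2.2.1 _ (hω' p) l) (LL β n l k) (congrFun h l) p hp
  exact h1

/-- position of the coordinates of a coded point -/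
lemma tau_mem (hN : S_NUM) (hG : Good n D) {β k : ℕ} {ω : ℕ → Fin d → ℕ} (hω : ω ∈ Dig D)
    (l : Fin d) :
    (box β n k ω l : ℝ) / (n l : ℝ) ^ (LL β n l k) ≤ tau n ω l ∧
      tau n ω l ≤ ((box β n k ω l : ℝ) + 1) / (n l : ℝ) ^ (LL β n l k) := by
  have h1 := hN (n l) (fun p => ω p l) (hG.2.1 l) (fun p => hG.2.2.1 _ (hω p) l)
  exact ⟨h1.2.2.2.1 _, h1.2.2.2.2.1 _⟩

/-- the count of boxes -/
lemma count (hN : S_NUM) (hW : S_WT) (hP : S_PROD) (hG : Good n D) (k m : ℕ)
    (hdis : ∀ l' l : Fin d, l' < l → LL 2 n l (k + m) ≤ LL 2 n l' k) :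
    ∃ ω ∈ Dig D, ∃ (F : Finset (Fin d → ℕ)) (rep : (Fin d → ℕ) → ℕ → Fin d → ℕ),
      (∀ u ∈ F, rep u ∈ Dig D ∧ box 2 n (k + m) (rep u) = u ∧ box 2 n k (rep u) = box 2 n k ω) ∧
      ((2:ℝ) ^ m) ^ expo n (Nmax D) ≤ (∏ l, (Nmax D l : ℝ)) * F.card := by
  classical
  choose e he hemax using exists_max hG
  set i0 := hG.2.2.2.some with hi0
  have hi0D : i0 ∈ D := hG.2.2.2.some_mem
  set ω : ℕ → Fin d → ℕ := fun p =>
    if h : ∃ l, LL 2 n l k ≤ p ∧ p < LL 2 n l (k + m) then e h.choose else i0 with hωdef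
  have hω : ω ∈ Dig D := by
    intro p
    simp only [hωdef]
    split_ifs with h
    · exact he _
    · exact hi0D
  have hωe : ∀ l p, LL 2 n l k ≤ p → p < LL 2 n l (k + m) → ω p = e l := by
    intro l p h1 h2
    have h : ∃ l, LL 2 n l k ≤ p ∧ p < LL 2 n l (k + m) := ⟨l, h1, h2⟩
    have h3 := h.choose_spec
    have h4 : h.choose = l := by
      rcases lt_trichotomy h.choose l with h5 | h5 | h5
      · have := hdis _ _ h5
        omega
      · exact h5
      · have := hdis _ _ h5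
        omega
    simp only [hωdef]
    rw [dif_pos h, h4]
  set F : Finset (Fin d → ℕ) :=
    (Fintype.piFinset (fun l => Finset.range (n l ^ LL 2 n l (k + m)))).filter
      (fun u => ∃ ω' ∈ Dig D, box 2 n (k + m) ω' = u ∧ box 2 n k ω' = box 2 n k ω) with hF
  have hFmem : ∀ u, u ∈ F ↔ ∃ ω' ∈ Dig D, box 2 n (k + m) ω' = u ∧ box 2 n k ω' = box 2 n k ω := by
    intro u
    rw [hF, Finset.mem_filter, Fintype.mem_piFinset]
    constructor
    · exact fun h => h.2
    · intro h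
      refine ⟨?_, h⟩
      obtain ⟨ω', hω', rfl, -⟩ := h
      intro l
      rw [Finset.mem_range]
      exact (hN (n l) (fun p => ω' p l) (hG.2.1 l) (fun p => hG.2.2.1 _ (hω' p) l)).2.1 _
  set rep : (Fin d → ℕ) → ℕ → Fin d → ℕ := fun u =>
    if h : ∃ ω' ∈ Dig D, box 2 n (k + m) ω' = u ∧ box 2 n k ω' = box 2 n k ω then h.choose else ω
    with hrep
  have hrepF : ∀ u ∈ F, rep u ∈ Dig D ∧ box 2 n (k + m) (rep u) = u ∧
      box 2 n k (rep u) = box 2 n k ω := by
    intro u hu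
    have h := (hFmem u).1 hu
    simp only [hrep]
    rw [dif_pos h]
    exact h.choose_spec
  refine ⟨ω, hω, F, rep, hrepF, ?_⟩
  have hsum := hW d n D 2 k (k + m) ω rep F hG le_rfl (Nat.le_add_right _ _) hω
    (fun u hu => ⟨(hrepF u hu).1, (hrepF u hu).2.1⟩) hFmem
  have hM1 : ∀ l, 1 ≤ Nmax D l ∧ Nmax D l ≤ n l := by
    intro l
    rw [← hemax l]
    exact ⟨Nch_pos hG l (he l), Nch_le hG l _⟩
  have hMpos : ∀ l, (0:ℝ) < Nmax D l := fun l => by exact_mod_cast (hM1 l).1
  set Q : ℝ := ∏ l, (Nmax D l : ℝ) ^ (LL 2 n l (k + m) - LL 2 n l k) with hQ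
  have hQpos : 0 < Q := Finset.prod_pos (fun l _ => pow_pos (hMpos l) _)
  have hwt : ∀ u ∈ F, wt 2 n D (k + m) (rep u) = wt 2 n D k ω * Q⁻¹ := by
    intro u hu
    obtain ⟨h1, h2, h3⟩ := hrepF u hu
    unfold wt
    rw [hQ, ← Finset.prod_inv_distrib, ← Finset.prod_mul_distrib]
    apply Finset.prod_congr rfl
    intro l _
    have hle : LL 2 n l k ≤ LL 2 n l (k + m) := LL_mono 2 (by norm_num) n l (Nat.le_add_right _ _)
    rw [← Finset.prod_range_mul_prod_Ico _ hle]
    congr 1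
    · apply Finset.prod_congr rfl
      intro p hp
      rw [Finset.mem_range] at hp
      have : Nch D l (rep u p) = Nch D l (ω p) := by
        apply Nch_congr
        intro l' hl'
        apply digits_eq hN hG h1 hω h3 l' p
        exact hp.trans_le (LL_anti 2 hG hl'.le k)
      rw [this]
    · have hconst : ∀ p ∈ Finset.Ico (LL 2 n l k) (LL 2 n l (k + m)),
          (1 / (Nch D l (rep u p) : ℝ)) = (Nmax D l : ℝ)⁻¹ := by
        intro p hp
        rw [Finset.mem_Ico] at hp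
        have h5 : Nch D l (rep u p) = Nch D l (e l) := by
          apply Nch_congr
          intro l' hl'
          rw [← hωe l p hp.1 hp.2]
          apply digits_eq hN hG h1 hω h3 l' p
          exact hp.2.trans_le (hdis l' l hl')
        rw [h5, hemax l, one_div]
      rw [Finset.prod_congr rfl hconst, Finset.prod_const, Nat.card_Ico, inv_pow]
  rw [Finset.sum_congr rfl hwt, Finset.sum_const, nsmul_eq_mul] at hsum
  have hwpos : 0 < wt 2 n D k ω := by
    unfold wt
    apply Finset.prod_pos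
    intro l _
    apply Finset.prod_pos
    intro p _
    have : 0 < Nch D l (ω p) := Nch_pos hG l (hω p)
    positivity
  have hcard : (F.card : ℝ) = Q := by
    have h1 : (F.card : ℝ) * Q⁻¹ * wt 2 n D k ω = 1 * wt 2 n D k ω := by
      rw [one_mul, mul_assoc, mul_comm Q⁻¹]; exact hsum
    have h2 := mul_right_cancel₀ hwpos.ne' h1
    field_simp at h2
    exact h2
  rw [hcard]
  have h3 := (hP d n (Nmax D) 2 k (k + m) hG.2.1 hM1 le_rfl (Nat.le_add_right _ _)).2.2
  rw [Nat.add_sub_cancel_left] at h3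
  push_cast at h3
  exact h3

/-- the geometric estimate -/
lemma geom (hN : S_NUM) (hG : Good n D) {K : Set (EuclideanSpace ℝ (Fin d))} (hK : IsCompact K)
    (hKD : K = tau n '' Dig D) (k m : ℕ) {ω : ℕ → Fin d → ℕ} (hω : ω ∈ Dig D)
    (F : Finset (Fin d → ℕ)) (rep : (Fin d → ℕ) → ℕ → Fin d → ℕ)
    (hrep : ∀ u ∈ F, rep u ∈ Dig D ∧ box 2 n (k + m) (rep u) = u ∧
      box 2 n k (rep u) = box 2 n k ω) :
    (F.card : ℝ) ≤ 5 ^ d * (coverN ((1 / 2 : ℝ) ^ (k + m))
      (ball (tau n ω) (((∑ l, n l : ℕ) + 2) * (1 / 2 : ℝ) ^ k) ∩ K) : ℝ) := by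
  classical
  set R : ℝ := ((∑ l, n l : ℕ) + 2) * (1 / 2 : ℝ) ^ k with hR
  set r : ℝ := (1 / 2 : ℝ) ^ (k + m) with hr
  have hr0 : 0 < r := by positivity
  obtain ⟨U, hU, hcov⟩ := coverN_spec (E := ball (tau n ω) R ∩ K) hK inter_subset_right hr0
  have hin : ∀ u ∈ F, tau n (rep u) ∈ ball (tau n ω) R ∩ K := by
    intro u hu
    obtain ⟨h1, h2, h3⟩ := hrep u hu
    refine ⟨?_, ?_⟩
    · rw [mem_ball]
      refine (dist_le_sum _ _).trans_lt ?_
      have h4 : ∀ l ∈ (Finset.univ : Finset (Fin d)),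
          |tau n (rep u) l - tau n ω l| ≤ (n l : ℝ) * (1 / 2 : ℝ) ^ k := by
        intro l _
        have a1 := tau_mem (β := 2) (k := k) hN hG h1 l
        have a2 := tau_mem (β := 2) (k := k) hN hG hω l
        rw [h3] at a1
        have hnpos : (0:ℝ) < n l := by have := hG.2.1 l; positivity
        have hpow : (0:ℝ) < (n l : ℝ) ^ LL 2 n l k := by positivity
        have a3 : |tau n (rep u) l - tau n ω l| ≤ 1 / (n l : ℝ) ^ LL 2 n l k := by
          have e1 : ((box 2 n k ω l : ℝ) + 1) / (n l : ℝ) ^ (LL 2 n l k)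
            = (box 2 n k ω l : ℝ) / (n l : ℝ) ^ (LL 2 n l k) + 1 / (n l : ℝ) ^ LL 2 n l k := by
            rw [add_div]
          rw [e1] at a1 a2
          rw [abs_le]
          constructor <;> linarith [a1.1, a1.2, a2.1, a2.2]
        refine a3.trans ?_
        have a4 : (2:ℕ) ^ k < n l ^ (LL 2 n l k + 1) :=
          Nat.lt_pow_succ_log_self (by have := hG.2.1 l; omega) _
        have a5 : (2:ℝ) ^ k < (n l : ℝ) ^ (LL 2 n l k + 1) := by exact_mod_cast a4
        rw [one_div_pow, mul_one_div, div_le_div_iff₀ hpow (by positivity), one_mul]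
        rw [pow_succ] at a5
        linarith
      refine (Finset.sum_le_sum h4).trans_lt ?_
      rw [← Finset.sum_mul, hR]
      push_cast
      have : (0:ℝ) < (1 / 2) ^ k := by positivity
      nlinarith
    · rw [hKD]
      exact ⟨rep u, h1, rfl⟩
  have hidx : ∀ u : Fin d → ℕ, ∃ i : Option (Fin (coverN r (ball (tau n ω) R ∩ K))),
      u ∈ F → ∃ j, i = some j ∧ tau n (rep u) ∈ U j := by
    intro u
    by_cases hu : u ∈ F
    · obtain ⟨j, hj⟩ := mem_iUnion.1 (hcov (hin u hu))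
      exact ⟨some j, fun _ => ⟨j, rfl, hj⟩⟩
    · exact ⟨none, fun h => absurd h hu⟩
  choose idx hidx using hidx
  have hmain : F.card ≤ 5 ^ d * ((Finset.univ : Finset (Fin (coverN r (ball (tau n ω) R ∩ K)))).image
      some).card := by
    apply Finset.card_le_mul_card_image_of_maps_to (f := idx)
    · intro u hu
      obtain ⟨j, hj, -⟩ := hidx u hu
      rw [hj]
      exact Finset.mem_image_of_mem _ (Finset.mem_univ _)
    · intro i hi
      obtain ⟨j, -, rfl⟩ := Finset.mem_image.1 hi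
      rcases (Finset.filter (fun u => idx u = some j) F).eq_empty_or_nonempty with h0 | ⟨u0, hu0⟩
      · rw [h0]; simp
      · have hsub : Finset.filter (fun u => idx u = some j) F ⊆
            Fintype.piFinset (fun l => Finset.Icc (u0 l - 2) (u0 l + 2)) := by
          intro u hu
          rw [Finset.mem_filter] at hu hu0
          obtain ⟨j1, hj1, hu1⟩ := hidx u hu.1
          obtain ⟨j2, hj2, hu2⟩ := hidx u0 hu0.1
          have hjj1 : j1 = j := by
            have := hj1.symm.trans hu.2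
            exact Option.some_injective _ this
          have hjj2 : j2 = j := by
            have := hj2.symm.trans hu0.2
            exact Option.some_injective _ this
          rw [hjj1] at hu1
          rw [hjj2] at hu2
          have hd1 : dist (tau n (rep u)) (tau n (rep u0)) ≤ r := by
            have h5 := (Metric.edist_le_ediam_of_mem hu1 hu2).trans (hU j)
            rw [edist_dist] at h5
            exact (ENNReal.ofReal_le_ofReal_iff hr0.le).1 h5
          rw [Fintype.mem_piFinset]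
          intro l
          have hnpos : (0:ℝ) < n l := by have := hG.2.1 l; positivity
          have hpow : (0:ℝ) < (n l : ℝ) ^ LL 2 n l (k + m) := by positivity
          have b1 := tau_mem (β := 2) (k := k + m) hN hG (hrep u hu.1).1 l
          have b2 := tau_mem (β := 2) (k := k + m) hN hG (hrep u0 hu0.1).1 l
          rw [(hrep u hu.1).2.1] at b1
          rw [(hrep u0 hu0.1).2.1] at b2
          have b3 := (abs_sub_le_dist (tau n (rep u)) (tau n (rep u0)) l).trans hd1
          have b4 : r ≤ 1 / (n l : ℝ) ^ LL 2 n l (k + m) := by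
            have c1 : n l ^ LL 2 n l (k + m) ≤ 2 ^ (k + m) := Nat.pow_log_le_self _ (by positivity)
            have c2 : (n l : ℝ) ^ LL 2 n l (k + m) ≤ 2 ^ (k + m) := by exact_mod_cast c1
            rw [hr, one_div_pow]
            exact one_div_le_one_div_of_le hpow c2
          have b5 := b3.trans b4
          rw [abs_le] at b5
          have e1 : ∀ x : ℝ, (x + 1) / (n l : ℝ) ^ (LL 2 n l (k + m))
            = x / (n l : ℝ) ^ (LL 2 n l (k + m)) + 1 / (n l : ℝ) ^ LL 2 n l (k + m) := by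
            intro x; rw [add_div]
          rw [e1] at b1 b2
          have f1 : (u l : ℝ) / (n l : ℝ) ^ LL 2 n l (k + m)
              ≤ ((u0 l : ℝ) + 2) / (n l : ℝ) ^ LL 2 n l (k + m) := by
            have e2 : ((u0 l : ℝ) + 2) / (n l : ℝ) ^ LL 2 n l (k + m)
              = (u0 l : ℝ) / (n l : ℝ) ^ LL 2 n l (k + m) + 1 / (n l : ℝ) ^ LL 2 n l (k + m)
                + 1 / (n l : ℝ) ^ LL 2 n l (k + m) := by ring
            rw [e2]
            linarith [b1.1, b2.2, b5.2]
          have f2 : (u0 l : ℝ) / (n l : ℝ) ^ LL 2 n l (k + m)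
              ≤ ((u l : ℝ) + 2) / (n l : ℝ) ^ LL 2 n l (k + m) := by
            have e2 : ((u l : ℝ) + 2) / (n l : ℝ) ^ LL 2 n l (k + m)
              = (u l : ℝ) / (n l : ℝ) ^ LL 2 n l (k + m) + 1 / (n l : ℝ) ^ LL 2 n l (k + m)
                + 1 / (n l : ℝ) ^ LL 2 n l (k + m) := by ring
            rw [e2]
            linarith [b1.2, b2.1, b5.1]
          rw [div_le_div_iff_of_pos_right hpow] at f1 f2
          have f1' : u l ≤ u0 l + 2 := by exact_mod_cast f1
          have f2' : u0 l ≤ u l + 2 := by exact_mod_cast f2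
          rw [Finset.mem_Icc]
          omega
        refine (Finset.card_le_card hsub).trans ?_
        rw [Fintype.card_piFinset]
        calc _ ≤ ∏ _l : Fin d, 5 := by
              apply Finset.prod_le_prod' 
              intro l _
              rw [Nat.card_Icc]
              omega
          _ = 5 ^ d := by simp
  have hcard : ((Finset.univ : Finset (Fin (coverN r (ball (tau n ω) R ∩ K)))).image
      some).card ≤ coverN r (ball (tau n ω) R ∩ K) := by
    refine Finset.card_image_le.trans ?_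
    simp
  have hfin := hmain.trans (Nat.mul_le_mul_left (5 ^ d) hcard)
  exact_mod_cast hfin

theorem main (hN : S_NUM) (hC : S_CODE) (hW : S_WT) (hP : S_PROD) : S_DIMA := by
  intro d n D K hG hK
  have hKD := hC d n D K hG hK
  unfold dimA
  apply le_csInf (grid_nonempty K)
  rintro s' ⟨hs', C, ρ, hC0, hρ, hcov⟩
  by_contra hlt
  rw [not_le] at hlt
  set s := expo n (Nmax D) with hs
  set Nn : ℝ := (∑ l, n l : ℕ) + 2 with hNn
  have hNpos : 0 < Nn := by positivity
  set A : ℝ := (∏ l, (Nmax D l : ℝ)) * (5 ^ d * (C * Nn ^ s')) with hA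
  have hPM : 0 ≤ ∏ l, (Nmax D l : ℝ) := Finset.prod_nonneg (fun l _ => by positivity)
  have key : ∀ m : ℕ, ((2:ℝ) ^ m) ^ s ≤ A * ((2:ℝ) ^ m) ^ s' := by
    intro m
    have h1 : ∀ᶠ k : ℕ in atTop, Nn * (1 / 2 : ℝ) ^ k ≤ ρ := by
      have h2 : Tendsto (fun k : ℕ => Nn * (1 / 2 : ℝ) ^ k) atTop (𝓝 (Nn * 0)) :=
        (tendsto_pow_atTop_nhds_zero_of_lt_one (by norm_num) (by norm_num)).const_mul _
      rw [mul_zero] at h2
      exact (h2.eventually (gt_mem_nhds hρ)).mono (fun k hk => hk.le)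
    obtain ⟨k, hdis, hkρ⟩ := ((eventually_disj hG m).and h1).exists
    obtain ⟨ω, hω, F, rep, hrep, hcount⟩ := count hN hW hP hG k m hdis
    have hg := geom hN hG hK.1 hKD k m hω F rep hrep
    have hx : tau n ω ∈ K := by rw [hKD]; exact ⟨ω, hω, rfl⟩
    have hr : 0 < (1 / 2 : ℝ) ^ (k + m) := by positivity
    have hrR : (1 / 2 : ℝ) ^ (k + m) < Nn * (1 / 2 : ℝ) ^ k := by
      have e1 : (1 / 2 : ℝ) ^ (k + m) ≤ (1 / 2 : ℝ) ^ k :=
        pow_le_pow_of_le_one (by norm_num) (by norm_num) (Nat.le_add_right _ _)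
      have e2 : 0 < (1 / 2 : ℝ) ^ k := by positivity
      have e3 : (2:ℝ) ≤ Nn := by
        rw [hNn]
        have : (0:ℝ) ≤ ((∑ l, n l : ℕ) : ℝ) := by positivity
        linarith
      nlinarith
    have hc := hcov (tau n ω) hx _ _ hr hrR hkρ
    have e4 : Nn * (1 / 2 : ℝ) ^ k / (1 / 2 : ℝ) ^ (k + m) = Nn * 2 ^ m := by
      rw [pow_add]
      field_simp
      rw [← mul_pow]
      norm_num
    rw [e4, Real.mul_rpow hNpos.le (by positivity)] at hc
    calc ((2:ℝ) ^ m) ^ s ≤ (∏ l, (Nmax D l : ℝ)) * F.card := hcount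
      _ ≤ (∏ l, (Nmax D l : ℝ)) * (5 ^ d * (C * (Nn ^ s' * ((2:ℝ) ^ m) ^ s'))) := by
          apply mul_le_mul_of_nonneg_left _ hPM
          exact hg.trans (mul_le_mul_of_nonneg_left hc (by positivity))
      _ = A * ((2:ℝ) ^ m) ^ s' := by rw [hA]; ring
  have h2 : Tendsto (fun m : ℕ => ((2:ℝ) ^ (s - s')) ^ m) atTop atTop := by
    apply tendsto_pow_atTop_atTop_of_one_lt
    exact Real.one_lt_rpow (by norm_num) (by linarith)
  obtain ⟨m, hm⟩ := (h2.eventually_gt_atTop A).exists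
  have h3 := key m
  have e5 : ((2:ℝ) ^ m) ^ s = ((2:ℝ) ^ (s - s')) ^ m * ((2:ℝ) ^ m) ^ s' := by
    rw [← Real.rpow_natCast, ← Real.rpow_natCast, ← Real.rpow_mul (by norm_num),
      ← Real.rpow_mul (by norm_num), ← Real.rpow_mul (by norm_num), ← Real.rpow_add (by norm_num)]
    congr 1
    ring
  rw [e5] at h3
  have h4 : 0 < ((2:ℝ) ^ m) ^ s' := by positivity
  have h5 := le_of_mul_le_mul_right h3 h4
  linarith

end Pool.Agent.R660.SH.DIMA
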