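import Pool.Agent.R660.SH.Defs

/-!
# Project SH: piece DIML (upper bound of the lower dimension of a sponge)
-/

open Set Filter Topology MeasureTheory Metric

namespace Pool.Agent.R660.SH.DIML

variable {d : ℕ} {n : Fin d → ℕ} {D : Set (Fin d → ℕ)}

lemma num_congr {n : ℕ} {a a' : ℕ → ℕ} {L : ℕ} (h : ∀ p < L, a p = a' p) :
    num n a L = num n a' L := by
  induction L with
  | zero => rfl
  | succ L ih =>
    simp only [num]
    rw [ih (fun p hp => h p (by omega)), h L (by omega)]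

lemma Nch_congr {l : Fin d} {e e' : Fin d → ℕ} (h : ∀ l' < l, e l' = e' l') :
    Nch D l e = Nch D l e' := by
  unfold Nch
  congr 1
  ext j
  constructor
  · rintro ⟨i, hi, h1, h2⟩
    exact ⟨i, hi, fun l' hl' => (h1 l' hl').trans (h l' hl'), h2⟩
  · rintro ⟨i, hi, h1, h2⟩
    exact ⟨i, hi, fun l' hl' => (h1 l' hl').trans (h l' hl').symm, h2⟩

lemma Nch_sub (hG : Good n D) (l : Fin d) (e : Fin d → ℕ) :
    {j : ℕ | ∃ i ∈ D, (∀ l' < l, i l' = e l') ∧ i l = j} ⊆ ((Finset.range (n l) : Finset ℕ) : Set ℕ) := by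
  rintro j ⟨i, hi, _, rfl⟩
  simpa using hG.2.2.1 i hi l

lemma Nch_le (hG : Good n D) (l : Fin d) (e : Fin d → ℕ) : Nch D l e ≤ n l := by
  unfold Nch
  calc Set.ncard _ ≤ Set.ncard ((Finset.range (n l) : Finset ℕ) : Set ℕ) :=
        Set.ncard_le_ncard (Nch_sub hG l e) (Finset.finite_toSet _)
    _ = n l := by rw [Set.ncard_coe_finset, Finset.card_range]

lemma Nch_pos (hG : Good n D) (l : Fin d) {e : Fin d → ℕ} (he : e ∈ D) : 0 < Nch D l e := by
  unfold Nch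
  rw [Set.ncard_pos ((Finset.finite_toSet _).subset (Nch_sub hG l e))]
  exact ⟨e l, e, he, fun _ _ => rfl, rfl⟩

lemma exists_Nmin (hG : Good n D) (l : Fin d) : ∃ e ∈ D, Nch D l e = Nmin D l :=
  Nat.sInf_mem (hG.2.2.2.image _)

lemma log_gap {n n' : ℕ} (hn : 2 ≤ n) (hnn : n < n') (m : ℕ) :
    ∀ᶠ k in atTop, Nat.log n' (2 ^ (k + m)) + 2 ≤ Nat.log n (2 ^ k) := by
  have hn0 : (0:ℝ) < n := by
    have : 0 < n := by omega
    exact_mod_cast this
  have hn0' : (0:ℝ) < n' := by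
    have : 0 < n' := by omega
    exact_mod_cast this
  have h1 : ∀ᶠ c : ℕ in atTop, n ^ (c + 2) * 2 ^ m ≤ n' ^ c := by
    have hlt : (n:ℝ) / n' < 1 := by
      rw [div_lt_one hn0']
      exact_mod_cast hnn
    have h2 := tendsto_pow_atTop_nhds_zero_of_lt_one (by positivity : 0 ≤ (n:ℝ) / n') hlt
    have h3 : ∀ᶠ c : ℕ in atTop, ((n:ℝ) / n') ^ c < 1 / ((n:ℝ) ^ 2 * 2 ^ m) :=
      h2.eventually (gt_mem_nhds (by positivity))
    filter_upwards [h3] with c hc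
    rw [div_pow, div_lt_div_iff₀ (by positivity) (by positivity)] at hc
    have : (n:ℝ) ^ (c + 2) * 2 ^ m ≤ (n':ℝ) ^ c := by
      have e1 : (n:ℝ) ^ (c + 2) * 2 ^ m = (n:ℝ) ^ c * ((n:ℝ) ^ 2 * 2 ^ m) := by ring
      rw [e1]
      linarith
    exact_mod_cast this
  have h4 : Tendsto (fun k => Nat.log n' (2 ^ (k + m))) atTop atTop := by
    rw [Filter.tendsto_atTop]
    intro c
    filter_upwards [eventually_ge_atTop (n' ^ c)] with k hk
    apply Nat.le_log_of_pow_le (by omega)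
    calc n' ^ c ≤ k := hk
      _ ≤ 2 ^ k := (Nat.lt_two_pow_self).le
      _ ≤ 2 ^ (k + m) := Nat.pow_le_pow_right (by norm_num) (by omega)
  filter_upwards [h4.eventually h1] with k hk
  apply Nat.le_log_of_pow_le (by omega)
  have h5 : n' ^ (Nat.log n' (2 ^ (k + m))) ≤ 2 ^ (k + m) := Nat.pow_log_le_self _ (by positivity)
  have h6 : n ^ (Nat.log n' (2 ^ (k + m)) + 2) * 2 ^ m ≤ 2 ^ k * 2 ^ m := by
    rw [← pow_add]; exact hk.trans h5
  exact Nat.le_of_mul_le_mul_right h6 (by positivity)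

/-- the digit sequence -/
lemma exists_omega (hG : Good n D) (a b : Fin d → ℕ) (hab : ∀ l l', l < l' → b l' + 2 ≤ a l)
    (haa : ∀ l, a l ≤ b l) :
    ∃ ω ∈ Dig D, ∀ l, (∀ p, a l + 2 ≤ p → p < b l → Nch D l (ω p) = Nmin D l) ∧
      ((∃ i ∈ D, ∃ j ∈ D, i l < j l) → ω (a l) l < ω (a l + 1) l) := by
  classical
  obtain ⟨e0, he0⟩ := hG.2.2.2
  choose e he1 he2 using fun l => exists_Nmin hG l
  have hex : ∀ l : Fin d, ∃ q : (Fin d → ℕ) × (Fin d → ℕ), q.1 ∈ D ∧ q.2 ∈ D ∧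
      ((∃ i ∈ D, ∃ j ∈ D, i l < j l) → q.1 l < q.2 l) := by
    intro l
    by_cases h : ∃ i ∈ D, ∃ j ∈ D, i l < j l
    · obtain ⟨i, hi, j, hj, hij⟩ := h
      exact ⟨(i, j), hi, hj, fun _ => hij⟩
    · exact ⟨(e0, e0), he0, he0, fun h' => absurd h' h⟩
  choose q hq1 hq2 hq3 using hex
  let In : Fin d → ℕ → Prop := fun l p => a l ≤ p ∧ p < max (b l) (a l + 2)
  have huniq : ∀ l l' p, In l p → In l' p → l = l' := by
    have hone : ∀ l l' p, l < l' → In l p → In l' p → False := by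
      intro l l' p hll h1 h2
      have h3 := hab l l' hll
      have h4 := haa l'
      have h5 := h1.1
      have h6 := h2.2
      omega
    intro l l' p h1 h2
    rcases lt_trichotomy l l' with h | h | h
    · exact (hone l l' p h h1 h2).elim
    · exact h
    · exact (hone l' l p h h2 h1).elim
  let val : Fin d → ℕ → (Fin d → ℕ) := fun l p =>
    if p = a l then (q l).1 else if p = a l + 1 then (q l).2 else e l
  let ω : ℕ → (Fin d → ℕ) := fun p => if h : ∃ l, In l p then val h.choose p else e0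
  have hω : ∀ l p, In l p → ω p = val l p := by
    intro l p hp
    have h : ∃ l, In l p := ⟨l, hp⟩
    have h1 : ω p = val h.choose p := dif_pos h
    rw [h1, huniq _ _ p h.choose_spec hp]
  refine ⟨ω, ?_, ?_⟩
  · intro p
    by_cases h : ∃ l, In l p
    · obtain ⟨l, hl⟩ := h
      rw [hω l p hl]
      simp only [val]
      split_ifs
      · exact hq1 l
      · exact hq2 l
      · exact he1 l
    · have h1 : ω p = e0 := dif_neg h
      rw [h1]; exact he0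
  · intro l
    refine ⟨fun p hp1 hp2 => ?_, fun h => ?_⟩
    · rw [hω l p ⟨by omega, lt_max_of_lt_left hp2⟩]
      simp only [val]
      rw [if_neg (by omega), if_neg (by omega)]
      exact he2 l
    · rw [hω l (a l) ⟨le_rfl, lt_max_of_lt_right (by omega)⟩,
        hω l (a l + 1) ⟨by omega, lt_max_of_lt_right (by omega)⟩]
      have v1 : val l (a l) = (q l).1 := if_pos rfl
      have v2 : val l (a l + 1) = (q l).2 := by
        simp [val]
      rw [v1, v2]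
      exact hq3 l h

/-- separation from the boundary of the box -/
lemma sep (hnum : S_NUM) {n : ℕ} (hn : 2 ≤ n) (a a' : ℕ → ℕ) (ha : ∀ p, a p < n)
    (ha' : ∀ p, a' p < n) (L : ℕ) (hlt : a L < a (L + 1))
    (hd : |(∑' p, (a' p : ℝ) / (n : ℝ) ^ (p + 1)) - ∑' p, (a p : ℝ) / (n : ℝ) ^ (p + 1)| <
      1 / (n : ℝ) ^ (L + 2)) : num n a' L = num n a L := by
  obtain ⟨_, _, _, h4, h5, _⟩ := hnum n a hn ha
  obtain ⟨_, _, _, g4, g5, _⟩ := hnum n a' hn ha'
  set X := ∑' p, (a p : ℝ) / (n : ℝ) ^ (p + 1) with hX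
  set Y := ∑' p, (a' p : ℝ) / (n : ℝ) ^ (p + 1) with hY
  have hn0 : (0:ℝ) < n := by
    have : 0 < n := by omega
    exact_mod_cast this
  set M : ℝ := (n : ℝ) ^ (L + 2) with hM
  have hM0 : 0 < M := by positivity
  have hL0 : (0:ℝ) < (n:ℝ) ^ L := by positivity
  have hML : M = (n:ℝ) ^ 2 * (n:ℝ) ^ L := by rw [hM]; ring
  have h4' := h4 (L + 2)
  have h5' := h5 (L + 2)
  rw [div_le_iff₀ hM0] at h4'
  rw [le_div_iff₀ hM0] at h5'
  have g4' := g4 L
  have g5' := g5 L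
  rw [div_le_iff₀ hL0] at g4'
  rw [le_div_iff₀ hL0] at g5'
  have hnumL : num n a (L + 2) = n * (n * num n a L + a L) + a (L + 1) := rfl
  rw [hnumL] at h4' h5'
  push_cast at h4' h5'
  rw [abs_lt] at hd
  have hd1 : -1 < (Y - X) * M := by
    have := mul_lt_mul_of_pos_right hd.1 hM0
    rw [neg_mul, one_div, inv_mul_cancel₀ hM0.ne'] at this
    linarith
  have hd2 : (Y - X) * M < 1 := by
    have := mul_lt_mul_of_pos_right hd.2 hM0
    rw [one_div, inv_mul_cancel₀ hM0.ne'] at this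
    linarith
  have haL1 : a (L + 1) + 1 ≤ n := ha (L + 1)
  have haL : a L + 2 ≤ n := by omega
  have k1 : (a L : ℝ) + 2 ≤ n := by exact_mod_cast haL
  have k2 : (a (L + 1) : ℝ) + 1 ≤ n := by exact_mod_cast haL1
  have k3 : (1:ℝ) ≤ a (L + 1) := by
    have : 1 ≤ a (L + 1) := by omega
    exact_mod_cast this
  have k0 : (0:ℝ) ≤ a L := by positivity
  have k4 : (n:ℝ) * a L + 2 * n ≤ n * n := by nlinarith
  have k5 : (2:ℝ) ≤ n := by exact_mod_cast hn
  have g4'' : (n:ℝ) ^ 2 * (num n a' L : ℝ) ≤ Y * M := by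
    rw [hML]
    nlinarith [sq_nonneg (n:ℝ)]
  have g5'' : Y * M ≤ (n:ℝ) ^ 2 * ((num n a' L : ℝ) + 1) := by
    rw [hML]
    nlinarith [sq_nonneg (n:ℝ)]
  have hn2 : (0:ℝ) < (n:ℝ) ^ 2 := by positivity
  have r1 : (num n a' L : ℝ) < (num n a L : ℝ) + 1 := by
    by_contra hcon
    push Not at hcon
    have : (n:ℝ) ^ 2 * ((num n a L : ℝ) + 1) ≤ (n:ℝ) ^ 2 * (num n a' L : ℝ) := by gcongr
    nlinarith
  have r2 : (num n a L : ℝ) < (num n a' L : ℝ) + 1 := by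
    by_contra hcon
    push Not at hcon
    have : (n:ℝ) ^ 2 * ((num n a' L : ℝ) + 1) ≤ (n:ℝ) ^ 2 * (num n a L : ℝ) := by gcongr
    nlinarith
  have r1' : num n a' L < num n a L + 1 := by exact_mod_cast r1
  have r2' : num n a L < num n a' L + 1 := by exact_mod_cast r2
  omega

lemma wt_pos (hG : Good n D) {ω : ℕ → Fin d → ℕ} (hω : ω ∈ Dig D) (k : ℕ) :
    0 < wt 2 n D k ω := by
  unfold wt
  refine Finset.prod_pos fun l _ => Finset.prod_pos fun p _ => ?_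
  have : (0:ℝ) < Nch D l (ω p) := by exact_mod_cast Nch_pos hG l (hω p)
  positivity

lemma LL_mono (l : Fin d) {k k' : ℕ} (h : k ≤ k') : LL 2 n l k ≤ LL 2 n l k' :=
  Nat.log_mono_right (Nat.pow_le_pow_right (by norm_num) h)

lemma Nmin_bd (hG : Good n D) (l : Fin d) : 1 ≤ Nmin D l ∧ Nmin D l ≤ n l := by
  obtain ⟨e, he, h⟩ := exists_Nmin hG l
  rw [← h]
  exact ⟨Nch_pos hG l he, Nch_le hG l e⟩

lemma digits (hnum : S_NUM) (hG : Good n D) {k : ℕ} {ω ω' : ℕ → Fin d → ℕ} (hω : ω ∈ Dig D)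
    (hω' : ω' ∈ Dig D) (hbox : box 2 n k ω' = box 2 n k ω) (l : Fin d) (p : ℕ)
    (hp : p < LL 2 n l k) : ω' p l = ω p l :=
  (hnum (n l) (fun p => ω' p l) (hG.2.1 l) (fun p => hG.2.2.1 _ (hω' p) l)).2.2.2.2.2
    (fun p => ω p l) (fun p => hG.2.2.1 _ (hω p) l) (LL 2 n l k) (congrFun hbox l) p hp

/-- product over a range of digits -/
lemma prod_bound {a b N M : ℕ} (hM : 1 ≤ M) (hN : 1 ≤ N) (f : ℕ → ℕ) (hf0 : ∀ p, 0 < f p)
    (hfN : ∀ p, f p ≤ N) (hfM : ∀ p, a + 2 ≤ p → p < b → f p = M) :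
    (1 / (N : ℝ)) ^ 2 * (1 / (M : ℝ)) ^ (b - a) ≤ ∏ p ∈ Finset.Ico a b, (1 / (f p : ℝ)) := by
  have hM' : (1:ℝ) ≤ M := by exact_mod_cast hM
  have hN' : (1:ℝ) ≤ N := by exact_mod_cast hN
  have hq1 : 1 / (M:ℝ) ≤ 1 := by rw [div_le_one (by linarith)]; exact hM'
  have hc1 : 1 / (N:ℝ) ≤ 1 := by rw [div_le_one (by linarith)]; exact hN'
  have h1 : ∏ p ∈ Finset.Ico a b, (1 / (M : ℝ) * (if p < a + 2 then 1 / (N:ℝ) else 1)) ≤
      ∏ p ∈ Finset.Ico a b, (1 / (f p : ℝ)) := by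
    refine Finset.prod_le_prod (fun p _ => by positivity) fun p hp => ?_
    rw [Finset.mem_Ico] at hp
    have hf0' : (0:ℝ) < f p := by exact_mod_cast hf0 p
    split_ifs with h
    · have h2 : 1 / (N:ℝ) ≤ 1 / (f p : ℝ) := by
        apply one_div_le_one_div_of_le hf0'
        exact_mod_cast hfN p
      calc 1 / (M:ℝ) * (1 / (N:ℝ)) ≤ 1 * (1 / (N:ℝ)) := by gcongr
        _ ≤ 1 / (f p : ℝ) := by rw [one_mul]; exact h2
    · rw [hfM p (by omega) hp.2, mul_one]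
  refine le_trans ?_ h1
  rw [Finset.prod_mul_distrib, Finset.prod_const, Nat.card_Ico, Finset.prod_ite,
    Finset.prod_const, Finset.prod_const_one, mul_one, mul_comm]
  refine mul_le_mul_of_nonneg_left (pow_le_pow_of_le_one (by positivity) hc1 ?_) (by positivity)
  calc (Finset.filter (fun p => p < a + 2) (Finset.Ico a b)).card ≤ (Finset.Ico a (a + 2)).card := by
        apply Finset.card_le_card
        intro p hp
        rw [Finset.mem_filter, Finset.mem_Ico] at hp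
        rw [Finset.mem_Ico]
        omega
    _ = 2 := by rw [Nat.card_Ico]; omega

/-- the weights of the children -/
lemma wt_bound (hnum : S_NUM) (hG : Good n D) {k m : ℕ}
    (hgap : ∀ l l' : Fin d, l < l' → LL 2 n l' (k + m) + 2 ≤ LL 2 n l k)
    {ω ω' : ℕ → Fin d → ℕ} (hω : ω ∈ Dig D) (hω' : ω' ∈ Dig D)
    (hbox : box 2 n k ω' = box 2 n k ω)
    (hN : ∀ l p, LL 2 n l k + 2 ≤ p → p < LL 2 n l (k + m) → Nch D l (ω p) = Nmin D l) :
    wt 2 n D k ω * ∏ l, ((1 / (n l : ℝ)) ^ 2 *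
      (1 / (Nmin D l : ℝ)) ^ (LL 2 n l (k + m) - LL 2 n l k)) ≤ wt 2 n D (k + m) ω' := by
  have hdig := digits hnum hG hω hω' hbox
  have hNch : ∀ l p, p < LL 2 n l (k + m) → Nch D l (ω' p) = Nch D l (ω p) := by
    intro l p hp
    apply Nch_congr
    intro l' hl'
    apply hdig
    have := hgap l' l hl'
    omega
  have hle : ∀ l : Fin d, LL 2 n l k ≤ LL 2 n l (k + m) := fun l => LL_mono l (by omega)
  have e1 : wt 2 n D (k + m) ω' = wt 2 n D k ω *
      ∏ l, ∏ p ∈ Finset.Ico (LL 2 n l k) (LL 2 n l (k + m)), (1 / (Nch D l (ω p) : ℝ)) := by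
    unfold wt
    rw [← Finset.prod_mul_distrib]
    refine Finset.prod_congr rfl fun l _ => ?_
    rw [Finset.prod_range_mul_prod_Ico _ (hle l)]
    refine Finset.prod_congr rfl fun p hp => ?_
    rw [hNch l p (Finset.mem_range.1 hp)]
  rw [e1]
  refine mul_le_mul_of_nonneg_left ?_ (wt_pos hG hω k).le
  refine Finset.prod_le_prod (fun l _ => by positivity) fun l _ => ?_
  exact prod_bound (Nmin_bd hG l).1 (by have := hG.2.1 l; omega) (fun p => Nch D l (ω p))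
    (fun p => Nch_pos hG l (hω p)) (fun p => Nch_le hG l _) (hN l)

lemma card_bound (hnum : S_NUM) (hW : S_WT) (hG : Good n D) {k m : ℕ}
    (hgap : ∀ l l' : Fin d, l < l' → LL 2 n l' (k + m) + 2 ≤ LL 2 n l k)
    {ω : ℕ → Fin d → ℕ} (hω : ω ∈ Dig D)
    (hN : ∀ l p, LL 2 n l k + 2 ≤ p → p < LL 2 n l (k + m) → Nch D l (ω p) = Nmin D l)
    (F : Finset (Fin d → ℕ))
    (hF : ∀ u, u ∈ F ↔ ∃ ω' ∈ Dig D, box 2 n (k + m) ω' = u ∧ box 2 n k ω' = box 2 n k ω) :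
    (F.card : ℝ) ≤ ∏ l, ((n l : ℝ) ^ 2 *
      (Nmin D l : ℝ) ^ (LL 2 n l (k + m) - LL 2 n l k)) := by
  classical
  let rep : (Fin d → ℕ) → ℕ → Fin d → ℕ := fun u =>
    if h : u ∈ F then ((hF u).1 h).choose else ω
  have hrep : ∀ u ∈ F, rep u ∈ Dig D ∧ box 2 n (k + m) (rep u) = u ∧
      box 2 n k (rep u) = box 2 n k ω := by
    intro u hu
    have h1 : rep u = ((hF u).1 hu).choose := dif_pos hu
    rw [h1]
    exact ((hF u).1 hu).choose_spec
  have hsum := hW d n D 2 k (k + m) ω rep F hG le_rfl (by omega) hω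
    (fun u hu => ⟨(hrep u hu).1, (hrep u hu).2.1⟩) hF
  set c : ℝ := ∏ l, ((1 / (n l : ℝ)) ^ 2 *
      (1 / (Nmin D l : ℝ)) ^ (LL 2 n l (k + m) - LL 2 n l k)) with hc
  set A : ℝ := ∏ l, ((n l : ℝ) ^ 2 *
      (Nmin D l : ℝ) ^ (LL 2 n l (k + m) - LL 2 n l k)) with hA
  have hcA : c * A = 1 := by
    rw [hc, hA, ← Finset.prod_mul_distrib]
    refine Finset.prod_eq_one fun l _ => ?_
    have h1 : (n l : ℝ) ≠ 0 := by
      have := hG.2.1 l
      have h2 : n l ≠ 0 := by omega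
      exact_mod_cast h2
    have h2 : (Nmin D l : ℝ) ≠ 0 := by
      have := (Nmin_bd hG l).1
      have h2 : Nmin D l ≠ 0 := by omega
      exact_mod_cast h2
    rw [one_div, one_div, inv_pow, inv_pow]
    field_simp
  have hA0 : 0 ≤ A := Finset.prod_nonneg fun l _ => by positivity
  have hw := wt_pos hG hω k
  have h1 : (F.card : ℝ) * (wt 2 n D k ω * c) ≤ wt 2 n D k ω := by
    rw [← hsum, ← nsmul_eq_mul]
    refine Finset.card_nsmul_le_sum _ _ _ fun u hu => ?_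
    rw [hsum]
    exact wt_bound hnum hG hgap hω (hrep u hu).1 (hrep u hu).2.2 hN
  have h2 : (F.card : ℝ) * c ≤ 1 := by
    have h3 : ((F.card : ℝ) * c) * wt 2 n D k ω ≤ 1 * wt 2 n D k ω := by
      rw [one_mul]
      calc ((F.card : ℝ) * c) * wt 2 n D k ω = (F.card : ℝ) * (wt 2 n D k ω * c) := by ring
        _ ≤ _ := h1
    exact le_of_mul_le_mul_right h3 hw
  calc (F.card : ℝ) = ((F.card : ℝ) * c) * A := by rw [mul_assoc, hcA, mul_one]
    _ ≤ 1 * A := by gcongr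
    _ = A := one_mul _

lemma dist_le_sum (x y : EuclideanSpace ℝ (Fin d)) : dist x y ≤ ∑ l, |x l - y l| := by
  rw [EuclideanSpace.dist_eq]
  apply Real.sqrt_le_iff.2
  refine ⟨Finset.sum_nonneg fun l _ => abs_nonneg _, ?_⟩
  calc ∑ l, dist (x l) (y l) ^ 2 = ∑ l, |x l - y l| ^ 2 := rfl
    _ ≤ (∑ l, |x l - y l|) ^ 2 := Finset.sum_sq_le_sq_sum_of_nonneg (fun _ _ => abs_nonneg _)

lemma cover_bound (hnum : S_NUM) {K : Set (EuclideanSpace ℝ (Fin d))} (hK : K = tau n '' Dig D)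
    (hG : Good n D) {k m : ℕ} {ω : ℕ → Fin d → ℕ} (hω : ω ∈ Dig D)
    (hsep : ∀ l, (∃ i ∈ D, ∃ j ∈ D, i l < j l) →
      ω (LL 2 n l k) l < ω (LL 2 n l k + 1) l) (F : Finset (Fin d → ℕ))
    (hF : ∀ u, u ∈ F ↔ ∃ ω' ∈ Dig D, box 2 n (k + m) ω' = u ∧ box 2 n k ω' = box 2 n k ω)
    {Nn : ℝ} (hNn : ∀ l, (n l : ℝ) ≤ Nn) (hsum : ∑ l, (n l : ℝ) ≤ Nn) :
    coverN (Nn * (1 / 2) ^ (k + m)) (ball (tau n ω) ((1 / 2) ^ k / Nn ^ 2) ∩ K) ≤ F.card := by
  classical
  have hnpos : ∀ l, (0:ℝ) < n l := fun l => by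
    have := hG.2.1 l
    have h2 : 0 < n l := by omega
    exact_mod_cast h2
  have htau : ∀ (ω : ℕ → Fin d → ℕ) (l : Fin d),
      tau n ω l = ∑' p, (ω p l : ℝ) / (n l : ℝ) ^ (p + 1) := fun ω l => rfl
  apply Nat.sInf_le
  refine ⟨fun i => {y | ∃ ω' ∈ Dig D, y = tau n ω' ∧ box 2 n (k + m) ω' = (F.equivFin.symm i : _)},
    ?_, ?_⟩
  · intro i
    apply Metric.ediam_le
    rintro _ ⟨ω₁, h1, rfl, hb1⟩ _ ⟨ω₂, h2, rfl, hb2⟩
    rw [edist_dist]
    apply ENNReal.ofReal_le_ofReal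
    refine (dist_le_sum _ _).trans ?_
    have h3 : ∀ l, |tau n ω₁ l - tau n ω₂ l| ≤ (n l : ℝ) * (1 / 2) ^ (k + m) := by
      intro l
      obtain ⟨_, _, _, a4, a5, _⟩ := hnum (n l) (fun p => ω₁ p l) (hG.2.1 l)
        (fun p => hG.2.2.1 _ (h1 p) l)
      obtain ⟨_, _, _, b4, b5, _⟩ := hnum (n l) (fun p => ω₂ p l) (hG.2.1 l)
        (fun p => hG.2.2.1 _ (h2 p) l)
      have a4' := a4 (LL 2 n l (k + m))
      have a5' := a5 (LL 2 n l (k + m))
      have b4' := b4 (LL 2 n l (k + m))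
      have b5' := b5 (LL 2 n l (k + m))
      have hbb : num (n l) (fun p => ω₁ p l) (LL 2 n l (k + m)) =
          num (n l) (fun p => ω₂ p l) (LL 2 n l (k + m)) := congrFun (hb1.trans hb2.symm) l
      rw [hbb] at a4' a5'
      have hP : (0:ℝ) < (n l : ℝ) ^ (LL 2 n l (k + m)) := pow_pos (hnpos l) _
      rw [add_div] at a5' b5'
      have h4 : |tau n ω₁ l - tau n ω₂ l| ≤ 1 / (n l : ℝ) ^ (LL 2 n l (k + m)) := by
        rw [htau, htau, abs_le]
        constructor <;> linarith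
      refine h4.trans ?_
      have h5 : 2 ^ (k + m) < (n l) ^ (LL 2 n l (k + m) + 1) :=
        Nat.lt_pow_succ_log_self (by have := hG.2.1 l; omega) _
      have h6 : (2:ℝ) ^ (k + m) ≤ (n l : ℝ) ^ (LL 2 n l (k + m)) * n l := by
        rw [← pow_succ]
        exact_mod_cast h5.le
      rw [div_le_iff₀ hP, one_div, inv_pow]
      have h7 : (0:ℝ) < (2:ℝ) ^ (k + m) := by positivity
      rw [mul_right_comm, ← div_eq_mul_inv, le_div_iff₀ h7, one_mul]
      linarith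
    calc ∑ l, |tau n ω₁ l - tau n ω₂ l| ≤ ∑ l, (n l : ℝ) * (1 / 2) ^ (k + m) :=
          Finset.sum_le_sum fun l _ => h3 l
      _ = (∑ l, (n l : ℝ)) * (1 / 2) ^ (k + m) := by rw [Finset.sum_mul]
      _ ≤ Nn * (1 / 2) ^ (k + m) := by gcongr
  · rintro y ⟨hy, hyK⟩
    rw [hK] at hyK
    obtain ⟨ω', hω', rfl⟩ := hyK
    have hbox : box 2 n k ω' = box 2 n k ω := by
      funext l
      by_cases h : ∃ i ∈ D, ∃ j ∈ D, i l < j l
      · refine sep hnum (hG.2.1 l) (fun p => ω p l) (fun p => ω' p l)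
          (fun p => hG.2.2.1 _ (hω p) l) (fun p => hG.2.2.1 _ (hω' p) l) _ (hsep l h) ?_
        rw [mem_ball, dist_eq_norm] at hy
        have h1 : |tau n ω' l - tau n ω l| ≤ ‖tau n ω' - tau n ω‖ :=
          PiLp.norm_apply_le (tau n ω' - tau n ω) l
        rw [htau, htau] at h1
        refine lt_of_le_of_lt h1 (lt_of_lt_of_le hy ?_)
        have h2 : (n l) ^ (LL 2 n l k) ≤ 2 ^ k := Nat.pow_log_le_self _ (by positivity)
        have h3 : (n l : ℝ) ^ (LL 2 n l k) ≤ 2 ^ k := by exact_mod_cast h2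
        have hP : (0:ℝ) < (n l : ℝ) ^ (LL 2 n l k) := pow_pos (hnpos l) _
        rw [one_div, inv_pow, ← one_div, div_div]
        apply one_div_le_one_div_of_le (pow_pos (hnpos l) _)
        rw [pow_add]
        have := hNn l
        have := hnpos l
        gcongr
      · have h1 : ∀ p, ω' p l = ω p l := by
          intro p
          have h2 : ¬ ω' p l < ω p l := fun hlt => h ⟨_, hω' p, _, hω p, hlt⟩
          have h3 : ¬ ω p l < ω' p l := fun hlt => h ⟨_, hω p, _, hω' p, hlt⟩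
          omega
        exact num_congr fun p _ => h1 p
    have hu : box 2 n (k + m) ω' ∈ F := (hF _).2 ⟨ω', hω', rfl, hbox⟩
    rw [mem_iUnion]
    exact ⟨F.equivFin ⟨_, hu⟩, ω', hω', rfl, by rw [Equiv.symm_apply_apply]⟩

lemma finite_F (hnum : S_NUM) (hG : Good n D) (k k' : ℕ) (ω : ℕ → Fin d → ℕ) :
    {u | ∃ ω' ∈ Dig D, box 2 n k' ω' = u ∧ box 2 n k ω' = box 2 n k ω}.Finite := by
  refine Set.Finite.subset (Set.finite_Icc (0 : Fin d → ℕ) (fun l => (n l) ^ (LL 2 n l k'))) ?_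
  rintro _ ⟨ω', hω', rfl, _⟩
  refine ⟨fun l => Nat.zero_le _, fun l => ?_⟩
  exact ((hnum (n l) (fun p => ω' p l) (hG.2.1 l) (fun p => hG.2.2.1 _ (hω' p) l)).2.1 _).le

theorem main (hnum : S_NUM) (hcode : S_CODE) (hW : S_WT) (hP : S_PROD) : S_DIML := by
  classical
  intro d n D K hG hK
  have hKc := hcode d n D K hG hK
  set t := expo n (Nmin D) with ht
  have ht0 : 0 ≤ t := Finset.sum_nonneg fun l _ =>
    div_nonneg (Real.log_natCast_nonneg _) (Real.log_natCast_nonneg _)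
  apply Real.sSup_le _ ht0
  rintro s' ⟨hs0, C, ρ, hC, hρ, hbd⟩
  set Nn : ℝ := 1 + ∑ l, (n l : ℝ) with hNn
  have hsum0 : (0:ℝ) ≤ ∑ l, (n l : ℝ) := Finset.sum_nonneg fun l _ => by positivity
  have hNn1 : 1 ≤ Nn := by linarith
  have hNn0 : 0 < Nn := by linarith
  have hsum : ∑ l, (n l : ℝ) ≤ Nn := by linarith
  have hNnl : ∀ l, (n l : ℝ) ≤ Nn := by
    intro l
    have := Finset.single_le_sum (f := fun l => (n l : ℝ)) (fun l _ => by positivity)
      (Finset.mem_univ l)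
    linarith
  set A : ℝ := (∏ l, (n l : ℝ) ^ 2) * ∏ l, (Nmin D l : ℝ) with hA
  have hA0 : 0 ≤ A := by positivity
  have key : ∀ m : ℕ, Nn ^ 3 < 2 ^ m → C * ((2:ℝ) ^ m / Nn ^ 3) ^ s' ≤ A * ((2:ℝ) ^ m) ^ t := by
    intro m hm
    have e1 : ∀ᶠ k in atTop, ∀ l l' : Fin d, l < l' → LL 2 n l' (k + m) + 2 ≤ LL 2 n l k := by
      rw [eventually_all]
      intro l
      rw [eventually_all]
      intro l'
      by_cases h : l < l'
      · filter_upwards [log_gap (hG.2.1 l) (hG.1 h) m] with k hk _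
        exact hk
      · exact Eventually.of_forall fun k h' => absurd h' h
    have e2 : ∀ᶠ k : ℕ in atTop, (1 / 2 : ℝ) ^ k / Nn ^ 2 ≤ ρ := by
      have h1 : Tendsto (fun k : ℕ => (1 / 2 : ℝ) ^ k / Nn ^ 2) atTop (𝓝 (0 / Nn ^ 2)) :=
        (tendsto_pow_atTop_nhds_zero_of_lt_one (by norm_num) (by norm_num)).div_const _
      rw [zero_div] at h1
      filter_upwards [h1.eventually (gt_mem_nhds hρ)] with k hk
      exact hk.le
    obtain ⟨k, hgap, hk⟩ := (e1.and e2).exists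
    obtain ⟨ω, hω, hωp⟩ := exists_omega hG (fun l => LL 2 n l k) (fun l => LL 2 n l (k + m))
      hgap (fun l => LL_mono l (by omega))
    have hfin := finite_F hnum hG k (k + m) ω
    have hF : ∀ u, u ∈ hfin.toFinset ↔ ∃ ω' ∈ Dig D, box 2 n (k + m) ω' = u ∧
        box 2 n k ω' = box 2 n k ω := fun u => by
      rw [Set.Finite.mem_toFinset]
      rfl
    have c1 := card_bound hnum hW hG hgap hω (fun l => (hωp l).1) hfin.toFinset hF
    have c2 := cover_bound hnum hKc hG hω (fun l => (hωp l).2) hfin.toFinset hF hNnl hsum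
    have hR : (Nn * (1 / 2) ^ (k + m)) < (1 / 2 : ℝ) ^ k / Nn ^ 2 := by
      rw [lt_div_iff₀ (by positivity), pow_add]
      have h1 : (1 / 2 : ℝ) ^ m * 2 ^ m = 1 := by rw [← mul_pow]; norm_num
      have h2 : (0:ℝ) < (1 / 2) ^ m := by positivity
      have h3 : (0:ℝ) < (1 / 2) ^ k := by positivity
      have h4 : Nn ^ 3 * (1 / 2) ^ m < 1 := by
        calc Nn ^ 3 * (1 / 2) ^ m < 2 ^ m * (1 / 2) ^ m := by gcongr
          _ = 1 := by rw [mul_comm]; exact h1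
      calc Nn * ((1 / 2) ^ k * (1 / 2) ^ m) * Nn ^ 2 = (1 / 2) ^ k * (Nn ^ 3 * (1 / 2) ^ m) := by ring
        _ < (1 / 2) ^ k * 1 := by gcongr
        _ = (1 / 2) ^ k := mul_one _
    have c3 := hbd (tau n ω) (by rw [hKc]; exact ⟨ω, hω, rfl⟩) (Nn * (1 / 2) ^ (k + m))
      ((1 / 2) ^ k / Nn ^ 2) (by positivity) hR hk
    have c4 := (hP d n (Nmin D) 2 k (k + m) hG.2.1 (Nmin_bd hG) le_rfl (by omega)).2.1
    have hratio : ((1 / 2 : ℝ) ^ k / Nn ^ 2) / (Nn * (1 / 2) ^ (k + m)) = 2 ^ m / Nn ^ 3 := by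
      rw [pow_add, one_div, inv_pow, inv_pow]
      field_simp
    rw [hratio] at c3
    have c2' : (coverN (Nn * (1 / 2) ^ (k + m)) (ball (tau n ω) ((1 / 2) ^ k / Nn ^ 2) ∩ K) : ℝ) ≤
        (hfin.toFinset.card : ℝ) := by exact_mod_cast c2
    have hkm : k + m - k = m := by omega
    rw [hkm] at c4
    rw [Finset.prod_mul_distrib] at c1
    calc C * ((2:ℝ) ^ m / Nn ^ 3) ^ s' ≤ _ := c3
      _ ≤ (hfin.toFinset.card : ℝ) := c2'
      _ ≤ (∏ l, (n l : ℝ) ^ 2) * ∏ l, (Nmin D l : ℝ) ^ (LL 2 n l (k + m) - LL 2 n l k) := c1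
      _ ≤ (∏ l, (n l : ℝ) ^ 2) * ((∏ l, (Nmin D l : ℝ)) * (((2 : ℕ) : ℝ) ^ m) ^ expo n (Nmin D)) := by
          gcongr
      _ = A * ((2:ℝ) ^ m) ^ t := by rw [hA, ht]; push_cast; ring
  by_contra hcon
  push Not at hcon
  have hpos : 0 < s' - t := by linarith
  have T1 : Tendsto (fun m : ℕ => (2:ℝ) ^ m) atTop atTop :=
    tendsto_pow_atTop_atTop_of_one_lt (by norm_num)
  have T2 : Tendsto (fun m : ℕ => ((2:ℝ) ^ m) ^ (s' - t)) atTop atTop :=
    (tendsto_rpow_atTop hpos).comp T1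
  obtain ⟨m, hm1, hm2⟩ := ((T1.eventually_gt_atTop (Nn ^ 3)).and
    (T2.eventually_gt_atTop (A * (Nn ^ 3) ^ s' / C))).exists
  have hk := key m hm1
  have hN3 : 0 < Nn ^ 3 := by positivity
  have h2m : (0:ℝ) < 2 ^ m := by positivity
  rw [Real.div_rpow h2m.le hN3.le] at hk
  rw [Real.rpow_sub h2m, div_lt_div_iff₀ hC (Real.rpow_pos_of_pos h2m t)] at hm2
  have hN3s : 0 < (Nn ^ 3) ^ s' := Real.rpow_pos_of_pos hN3 s'
  rw [← mul_div_assoc, div_le_iff₀ hN3s] at hk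
  nlinarith

end Pool.Agent.R660.SH.DIML
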