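import Mathlib

/-!
# Project SH: sharp measures on self-affine sponges (MP_8460ec_an, full answer YES)

Public definitions (first part), working definitions and the statements `S_...` of the pieces.
-/

open Set Filter Topology MeasureTheory Metric

namespace Pool.Agent.R660.SH

variable {d : ℕ}

/-! ## Public definitions -/

/-- the map `S_i`. -/
noncomputable def Smap (n : Fin d → ℕ) (i : Fin d → ℕ) (x : EuclideanSpace ℝ (Fin d)) :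
    EuclideanSpace ℝ (Fin d) :=
  WithLp.toLp 2 (fun l => (x l + (i l : ℝ)) / (n l : ℝ))

/-- `K` is the sponge with digit set `D`: nonempty, compact and `K = ⋃_{i ∈ D} S_i(K)`. -/
def IsSponge (n : Fin d → ℕ) (D : Set (Fin d → ℕ)) (K : Set (EuclideanSpace ℝ (Fin d))) : Prop :=
  IsCompact K ∧ K.Nonempty ∧ K = ⋃ i ∈ D, Smap n i '' K

/-- `N_r(E)`: least number of sets of diameter at most `r` covering `E`. -/
noncomputable def coverN (r : ℝ) (E : Set (EuclideanSpace ℝ (Fin d))) : ℕ :=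
  sInf {m : ℕ | ∃ U : Fin m → Set (EuclideanSpace ℝ (Fin d)),
    (∀ i, Metric.ediam (U i) ≤ ENNReal.ofReal r) ∧ E ⊆ ⋃ i, U i}

/-- Assouad dimension. -/
noncomputable def dimA (K : Set (EuclideanSpace ℝ (Fin d))) : ℝ :=
  sInf {s : ℝ | 0 ≤ s ∧ ∃ C ρ : ℝ, 0 < C ∧ 0 < ρ ∧ ∀ x ∈ K, ∀ r R : ℝ, 0 < r → r < R → R ≤ ρ →
    (coverN r (ball x R ∩ K) : ℝ) ≤ C * (R / r) ^ s}

/-- lower dimension. -/
noncomputable def dimL (K : Set (EuclideanSpace ℝ (Fin d))) : ℝ :=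
  sSup {s : ℝ | 0 ≤ s ∧ ∃ C ρ : ℝ, 0 < C ∧ 0 < ρ ∧ ∀ x ∈ K, ∀ r R : ℝ, 0 < r → r < R → R ≤ ρ →
    C * (R / r) ^ s ≤ (coverN r (ball x R ∩ K) : ℝ)}

/-- the (closed) set `K` is the support of `μ`. -/
def HasSupport (μ : Measure (EuclideanSpace ℝ (Fin d))) (K : Set (EuclideanSpace ℝ (Fin d))) :
    Prop := μ Kᶜ = 0 ∧ ∀ x ∈ K, ∀ r : ℝ, 0 < r → 0 < μ (ball x r)

/-- `μ` is sharp for the Assouad dimension of `K`. -/
def SharpAssouad (μ : Measure (EuclideanSpace ℝ (Fin d))) (K : Set (EuclideanSpace ℝ (Fin d))) :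
    Prop := ∃ C ρ : ℝ, 0 < C ∧ 0 < ρ ∧ ∀ x ∈ K, ∀ r R : ℝ, 0 < r → r < R → R ≤ ρ →
      μ.real (ball x R) / μ.real (ball x r) ≤ C * (R / r) ^ dimA K

/-- `μ` is sharp for the lower dimension of `K`. -/
def SharpLower (μ : Measure (EuclideanSpace ℝ (Fin d))) (K : Set (EuclideanSpace ℝ (Fin d))) :
    Prop := (∃ C' : ℝ, 0 < C' ∧ ∀ x ∈ K, ∀ r : ℝ, 0 < r →
      μ.real (ball x (2 * r)) ≤ C' * μ.real (ball x r)) ∧
    ∃ C ρ : ℝ, 0 < C ∧ 0 < ρ ∧ ∀ x ∈ K, ∀ r R : ℝ, 0 < r → r < R → R ≤ ρ →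
      C * (R / r) ^ dimL K ≤ μ.real (ball x R) / μ.real (ball x r)

/-! ## Working definitions -/

/-- digit sequences. -/
def Dig (D : Set (Fin d → ℕ)) : Set (ℕ → Fin d → ℕ) := {ω | ∀ p, ω p ∈ D}

/-- the integer with the base `n` digits `a 0, ..., a (L-1)`. -/
def num (n : ℕ) (a : ℕ → ℕ) : ℕ → ℕ
  | 0 => 0
  | L + 1 => n * num n a L + a L

/-- number of digits of the coordinate `l` at level `k`. -/
def LL (β : ℕ) (n : Fin d → ℕ) (l : Fin d) (k : ℕ) : ℕ := Nat.log (n l) (β ^ k)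

/-- the box of level `k` of `ω`. -/
def box (β : ℕ) (n : Fin d → ℕ) (k : ℕ) (ω : ℕ → Fin d → ℕ) (l : Fin d) : ℕ :=
  num (n l) (fun p => ω p l) (LL β n l k)

/-- the coding map. -/
noncomputable def tau (n : Fin d → ℕ) (ω : ℕ → Fin d → ℕ) : EuclideanSpace ℝ (Fin d) :=
  WithLp.toLp 2 (fun l => ∑' p, (ω p l : ℝ) / (n l : ℝ) ^ (p + 1))

/-- number of digits of the coordinate `l` compatible with the prefix of length `l` of `e`. -/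
noncomputable def Nch (D : Set (Fin d → ℕ)) (l : Fin d) (e : Fin d → ℕ) : ℕ :=
  Set.ncard {j : ℕ | ∃ i ∈ D, (∀ l' < l, i l' = e l') ∧ i l = j}

noncomputable def Nmax (D : Set (Fin d → ℕ)) (l : Fin d) : ℕ := sSup (Nch D l '' D)
noncomputable def Nmin (D : Set (Fin d → ℕ)) (l : Fin d) : ℕ := sInf (Nch D l '' D)

/-- the coordinate uniform weight of the box of level `k` of `ω`. -/
noncomputable def wt (β : ℕ) (n : Fin d → ℕ) (D : Set (Fin d → ℕ)) (k : ℕ)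
    (ω : ℕ → Fin d → ℕ) : ℝ :=
  ∏ l, ∏ p ∈ Finset.range (LL β n l k), (1 / (Nch D l (ω p) : ℝ))

/-- the exponent with the numbers `M l` of children. -/
noncomputable def expo (n M : Fin d → ℕ) : ℝ := ∑ l, Real.log (M l) / Real.log (n l)

/-- standing assumptions. -/
def Good (n : Fin d → ℕ) (D : Set (Fin d → ℕ)) : Prop :=
  StrictMono n ∧ (∀ l, 2 ≤ n l) ∧ (∀ i ∈ D, ∀ l, i l < n l) ∧ D.Nonempty

/-! ## Pieces -/

/-- NUM: digits. -/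
def S_NUM : Prop := ∀ (n : ℕ) (a : ℕ → ℕ), 2 ≤ n → (∀ p, a p < n) →
  (∀ L m, num n a (L + m) / n ^ m = num n a L) ∧
  (∀ L, num n a L < n ^ L) ∧
  Summable (fun p => (a p : ℝ) / (n : ℝ) ^ (p + 1)) ∧
  (∀ L, (num n a L : ℝ) / (n : ℝ) ^ L ≤ ∑' p, (a p : ℝ) / (n : ℝ) ^ (p + 1)) ∧
  (∀ L, ∑' p, (a p : ℝ) / (n : ℝ) ^ (p + 1) ≤ ((num n a L : ℝ) + 1) / (n : ℝ) ^ L) ∧
  (∀ a' : ℕ → ℕ, (∀ p, a' p < n) → ∀ L, num n a L = num n a' L → ∀ p < L, a p = a' p)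

/-- CODE: the sponge is the image of the coding map. -/
def S_CODE : Prop := ∀ (d : ℕ) (n : Fin d → ℕ) (D : Set (Fin d → ℕ))
  (K : Set (EuclideanSpace ℝ (Fin d))), Good n D → IsSponge n D K → K = tau n '' Dig D

/-- WT: additivity of the coordinate uniform weights. -/
def S_WT : Prop := ∀ (d : ℕ) (n : Fin d → ℕ) (D : Set (Fin d → ℕ)) (β k k' : ℕ)
  (ω0 : ℕ → Fin d → ℕ) (rep : (Fin d → ℕ) → ℕ → Fin d → ℕ) (F : Finset (Fin d → ℕ)),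
  Good n D → 2 ≤ β → k ≤ k' → ω0 ∈ Dig D →
  (∀ u ∈ F, rep u ∈ Dig D ∧ box β n k' (rep u) = u) →
  (∀ u, u ∈ F ↔ ∃ ω ∈ Dig D, box β n k' ω = u ∧ box β n k ω = box β n k ω0) →
  ∑ u ∈ F, wt β n D k' (rep u) = wt β n D k ω0

/-- PROD: products of numbers of children. -/
def S_PROD : Prop := ∀ (d : ℕ) (n M : Fin d → ℕ) (β k k' : ℕ), (∀ l, 2 ≤ n l) →
  (∀ l, 1 ≤ M l ∧ M l ≤ n l) → 2 ≤ β → k ≤ k' →
  (∏ i ∈ Finset.Ico k k', ∏ l, (M l : ℝ) ^ (LL β n l (i + 1) - LL β n l i)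
    = ∏ l, (M l : ℝ) ^ (LL β n l k' - LL β n l k)) ∧
  (∏ l, (M l : ℝ) ^ (LL β n l k' - LL β n l k)
    ≤ (∏ l, (M l : ℝ)) * ((β : ℝ) ^ (k' - k)) ^ expo n M) ∧
  (((β : ℝ) ^ (k' - k)) ^ expo n M
    ≤ (∏ l, (M l : ℝ)) * ∏ l, (M l : ℝ) ^ (LL β n l k' - LL β n l k))

/-- STEP: one step of the mass transport. -/
def S_STEP : Prop := ∀ (U V : Type) [Fintype U] [Fintype V] (π : U → V) (adjU : U → U → Prop)
  (adjV : V → V → Prop) (w : U → ℝ) (m : V → ℝ) (a b C : ℝ),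
  (∀ u, adjU u u) → (∀ u u', adjU u u' → adjU u' u) →
  (∀ u0 u1 u2 u3, adjU u0 u1 → adjU u1 u2 → adjU u2 u3 → adjV (π u0) (π u3)) →
  (∀ v, 0 < m v) → (∀ v v', adjV v v' → m v ≤ C * m v') →
  1 ≤ a → 1 ≤ b → b ≤ C → (∀ u, 1 / b ≤ w u ∧ w u ≤ 1 / a) →
  (∀ (v : V) (F : Finset U), (∀ u, u ∈ F ↔ π u = v) → ∑ u ∈ F, w u = 1) →
  ∃ m' : U → ℝ, (∀ u, 0 < m' u) ∧ (∀ u u', adjU u u' → m' u ≤ C * m' u') ∧
    (∀ u, m (π u) ≤ b * m' u) ∧ (∀ u, a * m' u ≤ m (π u)) ∧ (∑ u, m' u = ∑ v, m v) ∧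
    (∀ (S : Finset V) (F : Finset U), (∀ u u', adjU u u' → π u' ∈ S → u ∈ F) →
      ∑ v ∈ S, m v ≤ ∑ u ∈ F, m' u)

/-- MEAS: iteration of the transport and weak limit. -/
def S_MEAS : Prop := ∀ (X : Type) [MetricSpace X] [CompactSpace X] [MeasurableSpace X]
  [BorelSpace X] (V : ℕ → Type) [∀ k, Fintype (V k)] (par : ∀ k, V (k + 1) → V k)
  (adj : ∀ k, V k → V k → Prop) (w : ∀ k, V (k + 1) → ℝ) (c : ∀ k, V k → X) (a b : ℕ → ℝ)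
  (C β Λ0 Λ1 : ℝ),
  (∀ k u, adj k u u) → (∀ k u u', adj k u u' → adj k u' u) →
  (∀ k u0 u1 u2 u3, adj (k + 1) u0 u1 → adj (k + 1) u1 u2 → adj (k + 1) u2 u3 →
    adj k (par k u0) (par k u3)) →
  (∃ v0 : V 0, ∀ v, v = v0) →
  (∀ k, 1 ≤ a k) → (∀ k, 1 ≤ b k) → (∀ k, b k ≤ C) →
  (∀ k u, 1 / b k ≤ w k u ∧ w k u ≤ 1 / a k) →
  (∀ k (v : V k) (F : Finset (V (k + 1))), (∀ u, u ∈ F ↔ par k u = v) → ∑ u ∈ F, w k u = 1) →
  2 ≤ β → 0 ≤ Λ0 → 0 ≤ Λ1 → Λ1 ≤ β →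
  (∀ k u, dist (c (k + 1) u) (c k (par k u)) ≤ Λ0 * (1 / β) ^ k) →
  (∀ k u u', adj k u u' → dist (c k u) (c k u') ≤ Λ1 * (1 / β) ^ k) →
  ∃ (μ : Measure X) (m : ∀ k, V k → ℝ), IsProbabilityMeasure μ ∧ (∀ k v, 0 < m k v) ∧
    (∀ k u u', adj k u u' → m k u ≤ C * m k u') ∧
    (∀ k u, m k (par k u) ≤ b k * m (k + 1) u) ∧
    (∀ k u, a k * m (k + 1) u ≤ m k (par k u)) ∧
    (∀ k v, m k v ≤ μ.real (closedBall (c k v) (2 * (Λ0 + 1) * (1 / β) ^ k))) ∧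
    (∀ k (x : X) (R : ℝ) (F : Finset (V k)),
      (∀ u, dist (c k u) x < R + 2 * (Λ0 + 1) * (1 / β) ^ k → u ∈ F) →
      μ.real (ball x R) ≤ ∑ u ∈ F, m k u)

/-- BALL: ball estimates. -/
def S_BALL : Prop := ∀ (X : Type) [MetricSpace X] [MeasurableSpace X]
  [BorelSpace X] (V : ℕ → Type) [∀ k, Fintype (V k)] (par : ∀ k, V (k + 1) → V k)
  (adj : ∀ k, V k → V k → Prop) (c : ∀ k, V k → X) (code : ∀ k, X → V k) (a b : ℕ → ℝ)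
  (C β Λ0 s t Cb Ca : ℝ) (H : ℕ) (μ : Measure X) (m : ∀ k, V k → ℝ),
  IsProbabilityMeasure μ →
  (∀ k x, par k (code (k + 1) x) = code k x) →
  (∀ k x, dist (c k (code k x)) x ≤ Λ0 * (1 / β) ^ k) →
  (∀ k x u, dist (c k u) x < (2 * Λ0 + 3) * (1 / β) ^ k → adj k u (code k x)) →
  (∀ k x (F : Finset (V k)), (∀ u ∈ F, adj k u (code k x)) → F.card ≤ H) →
  (∀ k v, 0 < m k v) →
  (∀ k u u', adj k u u' → m k u ≤ C * m k u') →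
  (∀ k u, m k (par k u) ≤ b k * m (k + 1) u) →
  (∀ k u, a k * m (k + 1) u ≤ m k (par k u)) →
  (∀ k v, m k v ≤ μ.real (closedBall (c k v) (2 * (Λ0 + 1) * (1 / β) ^ k))) →
  (∀ k (x : X) (R : ℝ) (F : Finset (V k)),
    (∀ u, dist (c k u) x < R + 2 * (Λ0 + 1) * (1 / β) ^ k → u ∈ F) →
    μ.real (ball x R) ≤ ∑ u ∈ F, m k u) →
  1 ≤ C → 2 ≤ β → 0 ≤ Λ0 → 0 ≤ s → 0 ≤ t → 0 < Cb → 0 < Ca →
  (∀ k, 1 ≤ a k) → (∀ k, 1 ≤ b k) →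
  (∀ k k', k ≤ k' → ∏ i ∈ Finset.Ico k k', b i ≤ Cb * (β ^ (k' - k)) ^ s) →
  (∀ k k', k ≤ k' → (β ^ (k' - k)) ^ t ≤ Ca * ∏ i ∈ Finset.Ico k k', a i) →
  ∃ C2 : ℝ, 0 < C2 ∧ ∀ (x : X) (r R : ℝ), 0 < r → r < R → R ≤ 1 →
    0 < μ.real (ball x r) ∧ μ.real (ball x R) ≤ C2 * (R / r) ^ s * μ.real (ball x r) ∧
    (R / r) ^ t * μ.real (ball x r) ≤ C2 * μ.real (ball x R)

/-- DIMA: lower bound of the Assouad dimension. -/
def S_DIMA : Prop := ∀ (d : ℕ) (n : Fin d → ℕ) (D : Set (Fin d → ℕ))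
  (K : Set (EuclideanSpace ℝ (Fin d))), Good n D → IsSponge n D K →
  expo n (Nmax D) ≤ dimA K

/-- DIML: upper bound of the lower dimension. -/
def S_DIML : Prop := ∀ (d : ℕ) (n : Fin d → ℕ) (D : Set (Fin d → ℕ))
  (K : Set (EuclideanSpace ℝ (Fin d))), Good n D → IsSponge n D K →
  dimL K ≤ expo n (Nmin D)

end Pool.Agent.R660.SH
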