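import Pool.Agent.R660.SH.Defs

/-! Final assembly of project SH. -/

open Set Filter Topology MeasureTheory Metric

namespace Pool.Agent.R660.SH.Fin

open Pool.Agent.R660.SH

/-! ### elementary facts -/

section basic

variable {d : ℕ} {n : Fin d → ℕ} {D : Set (Fin d → ℕ)} {β : ℕ}

theorem LL_mono (l : Fin d) {k k' : ℕ} (hβ : 1 ≤ β) (h : k ≤ k') : LL β n l k ≤ LL β n l k' :=
  Nat.log_mono_right (Nat.pow_le_pow_right hβ h)

theorem pow_LL_le (l : Fin d) (k : ℕ) (hβ : 1 ≤ β) : (n l) ^ LL β n l k ≤ β ^ k :=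
  Nat.pow_log_le_self _ (pow_ne_zero _ (by omega))

theorem lt_pow_LL (l : Fin d) (k : ℕ) (hn : 2 ≤ n l) : β ^ k < (n l) ^ (LL β n l k + 1) :=
  Nat.lt_pow_succ_log_self (by omega) _

/-- the width of a box is at least `β⁻ᵏ` and at most `n l * β⁻ᵏ`. -/
theorem wid_ge (l : Fin d) (k : ℕ) (hβ : 1 ≤ β) (hn : 2 ≤ n l) :
    (1 / (β : ℝ)) ^ k ≤ 1 / (n l : ℝ) ^ LL β n l k := by
  have h := pow_LL_le (n := n) l k hβ
  have h1 : ((n l : ℝ)) ^ LL β n l k ≤ (β : ℝ) ^ k := by exact_mod_cast h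
  have h2 : (0 : ℝ) < (n l : ℝ) ^ LL β n l k := by
    have : (0 : ℝ) < n l := by exact_mod_cast (by omega : 0 < n l)
    positivity
  rw [one_div_pow]
  exact one_div_le_one_div_of_le h2 h1

theorem wid_le (l : Fin d) (k : ℕ) (hβ : 1 ≤ β) (hn : 2 ≤ n l) :
    1 / (n l : ℝ) ^ LL β n l k ≤ (n l : ℝ) * (1 / (β : ℝ)) ^ k := by
  have h := lt_pow_LL (β := β) l k hn
  have h1 : (β : ℝ) ^ k < ((n l : ℝ)) ^ (LL β n l k + 1) := by exact_mod_cast h
  have h0 : (0 : ℝ) < n l := by exact_mod_cast (by omega : 0 < n l)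
  have hb : (0 : ℝ) < β := by exact_mod_cast (by omega : 0 < β)
  rw [one_div_pow, mul_one_div, div_le_div_iff₀ (by positivity) (by positivity), one_mul]
  rw [pow_succ] at h1
  linarith

theorem dist_le_of_coord {x y : EuclideanSpace ℝ (Fin d)} {e : ℝ} (he : 0 ≤ e)
    (h : ∀ l, |x l - y l| ≤ e) : dist x y ≤ d * e := by
  rw [EuclideanSpace.dist_eq]
  have h1 : ∑ i, dist (x i) (y i) ^ 2 ≤ (d * e) ^ 2 := by
    calc ∑ i, dist (x i) (y i) ^ 2 ≤ ∑ _i : Fin d, e ^ 2 := by
          apply Finset.sum_le_sum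
          intro i _
          rw [Real.dist_eq]
          exact pow_le_pow_left₀ (abs_nonneg _) (h i) 2
      _ = d * e ^ 2 := by simp
      _ ≤ (d * e) ^ 2 := by
          rw [mul_pow]
          apply mul_le_mul_of_nonneg_right _ (sq_nonneg e)
          rcases Nat.eq_zero_or_pos d with h0 | h0
          · subst h0; simp
          · have : (1 : ℝ) ≤ d := by exact_mod_cast h0
            nlinarith
  calc √(∑ i, dist (x i) (y i) ^ 2) ≤ √((d * e) ^ 2) := Real.sqrt_le_sqrt h1
    _ = d * e := Real.sqrt_sq (by positivity)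

theorem coord_le_dist (x y : EuclideanSpace ℝ (Fin d)) (l : Fin d) : |x l - y l| ≤ dist x y := by
  rw [EuclideanSpace.dist_eq, ← Real.dist_eq]
  calc dist (x l) (y l) = √(dist (x l) (y l) ^ 2) := (Real.sqrt_sq dist_nonneg).symm
    _ ≤ _ := by
      apply Real.sqrt_le_sqrt
      exact Finset.single_le_sum (f := fun i => dist (x i) (y i) ^ 2)
        (fun i _ => sq_nonneg _) (Finset.mem_univ l)

end basic

section sys

variable {d : ℕ} (n : Fin d → ℕ) (D : Set (Fin d → ℕ))

/-- the constants -/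
def NN : ℕ := ∏ l, n l
def AA : ℕ := 2 * d * NN n + 4
def BB : ℕ := (2 * d * NN n + 5) ^ 3

variable {n D}

theorem one_le_NN (hn : ∀ l, 2 ≤ n l) : 1 ≤ NN n :=
  Finset.one_le_prod' (fun l _ => by have := hn l; omega)

theorem le_NN (hn : ∀ l, 2 ≤ n l) (l : Fin d) : n l ≤ NN n :=
  Finset.single_le_prod' (f := n) (fun l _ => by have := hn l; omega) (Finset.mem_univ l)

theorem two_le_BB : 2 ≤ BB n := by
  unfold BB
  calc 2 ≤ 5 ^ 3 := by norm_num
    _ ≤ (2 * d * NN n + 5) ^ 3 := Nat.pow_le_pow_left (by omega) 3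

theorem LL_succ (hn : ∀ l, 2 ≤ n l) (l : Fin d) (k : ℕ) :
    LL (BB n) n l k + 3 ≤ LL (BB n) n l (k + 1) := by
  unfold LL
  apply Nat.le_log_of_pow_le (by have := hn l; omega)
  rw [pow_add, pow_succ (BB n)]
  apply Nat.mul_le_mul
  · exact Nat.pow_log_le_self _ (pow_ne_zero _ (by have := two_le_BB (n := n); omega))
  · unfold BB
    apply Nat.pow_le_pow_left
    have h1 := le_NN hn l
    have h2 : 1 ≤ d := by have := l.2; omega
    nlinarith

variable (hNUM : S_NUM) (hG : Good n D)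
include hNUM hG

theorem box_div {ω : ℕ → Fin d → ℕ} (hω : ω ∈ Dig D) {β : ℕ} (hβ : 1 ≤ β) {k k' : ℕ}
    (hk : k ≤ k') (l : Fin d) :
    box β n k' ω l / (n l) ^ (LL β n l k' - LL β n l k) = box β n k ω l := by
  have h := (hNUM (n l) (fun p => ω p l) (hG.2.1 l) (fun p => hG.2.2.1 _ (hω p) l)).1
    (LL β n l k) (LL β n l k' - LL β n l k)
  rw [Nat.add_sub_cancel' (LL_mono l hβ hk)] at h
  exact h

theorem tau_ge {ω : ℕ → Fin d → ℕ} (hω : ω ∈ Dig D) (β k : ℕ) (l : Fin d) :
    (box β n k ω l : ℝ) / (n l : ℝ) ^ LL β n l k ≤ tau n ω l :=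
  (hNUM (n l) (fun p => ω p l) (hG.2.1 l) (fun p => hG.2.2.1 _ (hω p) l)).2.2.2.1 (LL β n l k)

theorem tau_le {ω : ℕ → Fin d → ℕ} (hω : ω ∈ Dig D) (β k : ℕ) (l : Fin d) :
    tau n ω l ≤ ((box β n k ω l : ℝ) + 1) / (n l : ℝ) ^ LL β n l k :=
  (hNUM (n l) (fun p => ω p l) (hG.2.1 l) (fun p => hG.2.2.1 _ (hω p) l)).2.2.2.2.1 (LL β n l k)

/-- boxes whose indices differ by at most `A`. -/
theorem dist_of_adj {ω ω' : ℕ → Fin d → ℕ} (hω : ω ∈ Dig D) (hω' : ω' ∈ Dig D) {β : ℕ}
    (hβ : 1 ≤ β) (k A : ℕ)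
    (h : ∀ l, box β n k ω l ≤ box β n k ω' l + A ∧ box β n k ω' l ≤ box β n k ω l + A) :
    dist (tau n ω) (tau n ω') ≤ d * (((A : ℝ) + 1) * NN n * (1 / (β : ℝ)) ^ k) := by
  apply dist_le_of_coord (by positivity)
  intro l
  have h1 := tau_ge hNUM hG hω β k l
  have h2 := tau_le hNUM hG hω β k l
  have h3 := tau_ge hNUM hG hω' β k l
  have h4 := tau_le hNUM hG hω' β k l
  have h5 := wid_le (n := n) (β := β) l k hβ (hG.2.1 l)
  have h6 : (n l : ℝ) ≤ NN n := by exact_mod_cast le_NN hG.2.1 l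
  have hb : (0 : ℝ) ≤ (1 / (β : ℝ)) ^ k := by positivity
  obtain ⟨ha, hb'⟩ := h l
  have ha' : (box β n k ω l : ℝ) ≤ box β n k ω' l + A := by exact_mod_cast ha
  have hb'' : (box β n k ω' l : ℝ) ≤ box β n k ω l + A := by exact_mod_cast hb'
  set W : ℝ := 1 / (n l : ℝ) ^ LL β n l k with hW
  have hWp : 0 ≤ W := by positivity
  have e1 : (box β n k ω l : ℝ) / (n l : ℝ) ^ LL β n l k = box β n k ω l * W := by
    rw [hW]; ring
  have e2 : ((box β n k ω l : ℝ) + 1) / (n l : ℝ) ^ LL β n l k = (box β n k ω l + 1) * W := by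
    rw [hW]; ring
  have e3 : (box β n k ω' l : ℝ) / (n l : ℝ) ^ LL β n l k = box β n k ω' l * W := by
    rw [hW]; ring
  have e4 : ((box β n k ω' l : ℝ) + 1) / (n l : ℝ) ^ LL β n l k = (box β n k ω' l + 1) * W := by
    rw [hW]; ring
  rw [e1] at h1
  rw [e2] at h2
  rw [e3] at h3
  rw [e4] at h4
  have h7 : W ≤ NN n * (1 / (β : ℝ)) ^ k := h5.trans (mul_le_mul_of_nonneg_right h6 hb)
  have h8 : ((A : ℝ) + 1) * W ≤ ((A : ℝ) + 1) * (NN n * (1 / (β : ℝ)) ^ k) :=
    mul_le_mul_of_nonneg_left h7 (by positivity)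
  have h9 : (box β n k ω l : ℝ) * W ≤ (box β n k ω' l + A) * W :=
    mul_le_mul_of_nonneg_right ha' hWp
  have h10 : (box β n k ω' l : ℝ) * W ≤ (box β n k ω l + A) * W :=
    mul_le_mul_of_nonneg_right hb'' hWp
  rw [abs_le]
  constructor <;> nlinarith

/-- near points have near boxes. -/
theorem near_box {ω ω' : ℕ → Fin d → ℕ} (hω : ω ∈ Dig D) (hω' : ω' ∈ Dig D) {β : ℕ}
    (hβ : 1 ≤ β) (k A : ℕ)
    (h : dist (tau n ω) (tau n ω') < A * (1 / (β : ℝ)) ^ k) (l : Fin d) :
    box β n k ω l ≤ box β n k ω' l + (A + 1) := by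
  have h1 := tau_ge hNUM hG hω β k l
  have h4 := tau_le hNUM hG hω' β k l
  have h5 := wid_ge (n := n) (β := β) l k hβ (hG.2.1 l)
  have h6 := (coord_le_dist (tau n ω) (tau n ω') l).trans_lt h
  set W : ℝ := 1 / (n l : ℝ) ^ LL β n l k with hW
  have hn0 : (0 : ℝ) < n l := by
    have := hG.2.1 l
    exact_mod_cast (by omega : 0 < n l)
  have hWp : 0 < W := by positivity
  have e1 : (box β n k ω l : ℝ) / (n l : ℝ) ^ LL β n l k = box β n k ω l * W := by
    rw [hW]; ring
  have e4 : ((box β n k ω' l : ℝ) + 1) / (n l : ℝ) ^ LL β n l k = (box β n k ω' l + 1) * W := by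
    rw [hW]; ring
  rw [e1] at h1
  rw [e4] at h4
  have h7 : (A : ℝ) * (1 / (β : ℝ)) ^ k ≤ A * W := mul_le_mul_of_nonneg_left h5 (by positivity)
  have h8 := (abs_lt.1 h6).2
  have h9 : (box β n k ω l : ℝ) * W < (box β n k ω' l + (A + 1)) * W := by nlinarith
  have h10 : (box β n k ω l : ℝ) < box β n k ω' l + (A + 1) := lt_of_mul_lt_mul_right h9 hWp.le
  have h11 : box β n k ω l < box β n k ω' l + (A + 1) := by exact_mod_cast h10
  omega

end sys

/-! ### numbers of children -/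

section nch

variable {d : ℕ} {n : Fin d → ℕ} {D : Set (Fin d → ℕ)}

theorem Nch_le (hG : Good n D) (l : Fin d) (e : Fin d → ℕ) : Nch D l e ≤ n l := by
  unfold Nch
  have hsub : {j : ℕ | ∃ i ∈ D, (∀ l' < l, i l' = e l') ∧ i l = j} ⊆ Set.Iio (n l) := by
    rintro j ⟨i, hi, _, rfl⟩
    exact hG.2.2.1 i hi l
  calc _ ≤ (Set.Iio (n l)).ncard := Set.ncard_le_ncard hsub (Set.finite_Iio _)
    _ = n l := by rw [Set.ncard_eq_toFinset_card']; simp

theorem Nch_pos (hG : Good n D) (l : Fin d) {e : Fin d → ℕ} (he : e ∈ D) : 1 ≤ Nch D l e := by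
  unfold Nch
  have hsub : {j : ℕ | ∃ i ∈ D, (∀ l' < l, i l' = e l') ∧ i l = j} ⊆ Set.Iio (n l) := by
    rintro j ⟨i, hi, _, rfl⟩
    exact hG.2.2.1 i hi l
  rw [Nat.one_le_iff_ne_zero, ← Nat.pos_iff_ne_zero, Set.ncard_pos ((Set.finite_Iio _).subset hsub)]
  exact ⟨e l, e, he, fun _ _ => rfl, rfl⟩

theorem Nch_le_Nmax (hG : Good n D) (l : Fin d) {e : Fin d → ℕ} (he : e ∈ D) :
    Nch D l e ≤ Nmax D l := by
  have hb : BddAbove (Nch D l '' D) := by
    refine ⟨n l, ?_⟩
    rintro _ ⟨e', _, rfl⟩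
    exact Nch_le hG l e'
  exact le_csSup hb ⟨e, he, rfl⟩

theorem Nmin_le_Nch (l : Fin d) {e : Fin d → ℕ} (he : e ∈ D) :
    Nmin D l ≤ Nch D l e := Nat.sInf_le ⟨e, he, rfl⟩

theorem Nmax_bd (hG : Good n D) (l : Fin d) : 1 ≤ Nmax D l ∧ Nmax D l ≤ n l := by
  obtain ⟨e, he⟩ := hG.2.2.2
  refine ⟨(Nch_pos hG l he).trans (Nch_le_Nmax hG l he), ?_⟩
  have hne : (Nch D l '' D).Nonempty := ⟨_, e, he, rfl⟩
  refine csSup_le hne ?_
  rintro _ ⟨e', _, rfl⟩
  exact Nch_le hG l e'

theorem Nmin_bd (hG : Good n D) (l : Fin d) : 1 ≤ Nmin D l ∧ Nmin D l ≤ n l := by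
  obtain ⟨e, he⟩ := hG.2.2.2
  refine ⟨?_, (Nmin_le_Nch l he).trans (Nch_le hG l e)⟩
  have h : Nmin D l ∈ Nch D l '' D := Nat.sInf_mem ⟨_, e, he, rfl⟩
  obtain ⟨e', he', h'⟩ := h
  rw [← h']
  exact Nch_pos hG l he'

theorem wt_pos (hG : Good n D) {ω : ℕ → Fin d → ℕ} (hω : ω ∈ Dig D) (β k : ℕ) :
    0 < wt β n D k ω := by
  unfold wt
  apply Finset.prod_pos
  intro l _
  apply Finset.prod_pos
  intro p _
  have := Nch_pos hG l (hω p)
  have h : (0 : ℝ) < Nch D l (ω p) := by exact_mod_cast this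
  positivity

theorem wt_ratio (hG : Good n D) {ω : ℕ → Fin d → ℕ} (hω : ω ∈ Dig D) {β : ℕ} (hβ : 1 ≤ β)
    (k : ℕ) :
    (1 / ∏ l, (Nmax D l : ℝ) ^ (LL β n l (k + 1) - LL β n l k)) * wt β n D k ω
      ≤ wt β n D (k + 1) ω ∧
    wt β n D (k + 1) ω ≤
      (1 / ∏ l, (Nmin D l : ℝ) ^ (LL β n l (k + 1) - LL β n l k)) * wt β n D k ω := by
  have hsplit : wt β n D (k + 1) ω = (∏ l, ∏ p ∈ Finset.Ico (LL β n l k) (LL β n l (k + 1)),
      (1 / (Nch D l (ω p) : ℝ))) * wt β n D k ω := by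
    unfold wt
    rw [← Finset.prod_mul_distrib]
    apply Finset.prod_congr rfl
    intro l _
    rw [mul_comm, Finset.prod_range_mul_prod_Ico _ (LL_mono l hβ (Nat.le_succ k))]
  have hw := wt_pos hG hω β k
  rw [hsplit]
  constructor
  · apply mul_le_mul_of_nonneg_right _ hw.le
    rw [one_div, ← Finset.prod_inv_distrib]
    apply Finset.prod_le_prod
    · intro l _; positivity
    · intro l _
      rw [← inv_pow]
      have hc : ∏ p ∈ Finset.Ico (LL β n l k) (LL β n l (k + 1)), ((Nmax D l : ℝ))⁻¹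
          = ((Nmax D l : ℝ))⁻¹ ^ (LL β n l (k + 1) - LL β n l k) := by simp
      rw [← hc]
      apply Finset.prod_le_prod
      · intro p _; positivity
      · intro p _
        rw [one_div]
        have h1 := Nch_pos hG l (hω p)
        have h2 := Nch_le_Nmax hG l (hω p)
        have h3 : (0 : ℝ) < Nch D l (ω p) := by exact_mod_cast h1
        have h4 : (Nch D l (ω p) : ℝ) ≤ Nmax D l := by exact_mod_cast h2
        exact inv_anti₀ h3 h4
  · apply mul_le_mul_of_nonneg_right _ hw.le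
    rw [one_div, ← Finset.prod_inv_distrib]
    apply Finset.prod_le_prod
    · intro l _
      apply Finset.prod_nonneg
      intro p _
      positivity
    · intro l _
      rw [← inv_pow]
      have hc : ∏ p ∈ Finset.Ico (LL β n l k) (LL β n l (k + 1)), ((Nmin D l : ℝ))⁻¹
          = ((Nmin D l : ℝ))⁻¹ ^ (LL β n l (k + 1) - LL β n l k) := by simp
      rw [← hc]
      apply Finset.prod_le_prod
      · intro p _; positivity
      · intro p _
        rw [one_div]
        have h1 := (Nmin_bd hG l).1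
        have h2 := Nmin_le_Nch l (hω p)
        have h3 : (0 : ℝ) < Nmin D l := by exact_mod_cast h1
        have h4 : (Nmin D l : ℝ) ≤ Nch D l (ω p) := by exact_mod_cast h2
        exact inv_anti₀ h3 h4

theorem expo_nonneg {M : Fin d → ℕ} (hn : ∀ l, 2 ≤ n l) (hM : ∀ l, 1 ≤ M l) :
    0 ≤ expo n M := by
  unfold expo
  apply Finset.sum_nonneg
  intro l _
  apply div_nonneg
  · exact Real.log_nonneg (by exact_mod_cast hM l)
  · exact Real.log_nonneg (by exact_mod_cast (by have := hn l; omega : 1 ≤ n l))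

end nch

/-! ### the measure on the sponge -/

theorem exists_meas (hNUM : S_NUM) (hCODE : S_CODE) (hWT : S_WT) (hPROD : S_PROD)
    (hMEAS : S_MEAS) (hBALL : S_BALL) {d : ℕ} {n : Fin d → ℕ} {D : Set (Fin d → ℕ)}
    {K : Set (EuclideanSpace ℝ (Fin d))} (hG : Good n D) (hK : IsSponge n D K) :
    ∃ μ : Measure K, IsProbabilityMeasure μ ∧ ∃ C2 : ℝ, 0 < C2 ∧ ∀ (x : K) (r R : ℝ),
      0 < r → r < R → R ≤ 1 → 0 < μ.real (ball x r) ∧
      μ.real (ball x R) ≤ C2 * (R / r) ^ expo n (Nmax D) * μ.real (ball x r) ∧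
      (R / r) ^ expo n (Nmin D) * μ.real (ball x r) ≤ C2 * μ.real (ball x R) := by
  classical
  have hKt := hCODE d n D K hG hK
  haveI : CompactSpace K := isCompact_iff_compactSpace.1 hK.1
  have hβ2 : 2 ≤ BB n := two_le_BB
  have hβ1 : 1 ≤ BB n := by omega
  have hn := hG.2.1
  -- representatives
  have hrep : ∀ k, ∃ R : (Fin d → ℕ) → ℕ → Fin d → ℕ, ∀ u,
      (∃ ω ∈ Dig D, box (BB n) n k ω = u) → R u ∈ Dig D ∧ box (BB n) n k (R u) = u := by
    intro k
    refine ⟨fun u => if h : ∃ ω ∈ Dig D, box (BB n) n k ω = u then h.choose else fun _ _ => 0, ?_⟩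
    intro u hu
    simp only [dif_pos hu]
    exact hu.choose_spec
  choose R hR using hrep
  let V : ℕ → Type := fun k => {u : Fin d → ℕ // ∃ ω ∈ Dig D, box (BB n) n k ω = u}
  have hfin : ∀ k, Finite (V k) := by
    intro k
    have : {u : Fin d → ℕ | ∃ ω ∈ Dig D, box (BB n) n k ω = u}.Finite := by
      apply (Set.Finite.pi (fun l : Fin d => Set.finite_Iio (n l ^ LL (BB n) n l k))).subset
      rintro u ⟨ω, hω, rfl⟩ l _
      exact (hNUM (n l) (fun p => ω p l) (hn l) (fun p => hG.2.2.1 _ (hω p) l)).2.1 _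
    exact this
  haveI : ∀ k, Fintype (V k) := fun k => Fintype.ofFinite _
  have hpar : ∀ k (u : V (k + 1)), ∃ ω ∈ Dig D, box (BB n) n k ω =
      fun l => u.1 l / (n l) ^ (LL (BB n) n l (k + 1) - LL (BB n) n l k) := by
    rintro k ⟨u, ω, hω, rfl⟩
    refine ⟨ω, hω, ?_⟩
    funext l
    exact (box_div hNUM hG hω hβ1 (Nat.le_succ k) l).symm
  let par : ∀ k, V (k + 1) → V k := fun k u =>
    ⟨fun l => u.1 l / (n l) ^ (LL (BB n) n l (k + 1) - LL (BB n) n l k), hpar k u⟩
  let adj : ∀ k, V k → V k → Prop := fun k u u' => ∀ l, u.1 l ≤ u'.1 l + AA n ∧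
    u'.1 l ≤ u.1 l + AA n
  have htauK : ∀ ω ∈ Dig D, tau n ω ∈ K := fun ω hω => by rw [hKt]; exact ⟨ω, hω, rfl⟩
  have hRD : ∀ k (u : V k), R k u.1 ∈ Dig D := fun k u => (hR k u.1 u.2).1
  have hRb : ∀ k (u : V k), box (BB n) n k (R k u.1) = u.1 := fun k u => (hR k u.1 u.2).2
  let c : ∀ k, V k → K := fun k u => ⟨tau n (R k u.1), htauK _ (hRD k u)⟩
  have hcd : ∀ x : K, ∃ ω ∈ Dig D, tau n ω = x.1 := by
    intro x
    exact (Set.ext_iff.1 hKt x.1).1 x.2
  choose cd hcdD hcdx using hcd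
  let code : ∀ k, K → V k := fun k x => ⟨box (BB n) n k (cd x), cd x, hcdD x, rfl⟩
  -- weights depend only on the box
  have hWB : ∀ k ω ω', ω ∈ Dig D → ω' ∈ Dig D → box (BB n) n k ω = box (BB n) n k ω' →
      wt (BB n) n D k ω' = wt (BB n) n D k ω := by
    intro k ω ω' hω hω' h
    have := hWT d n D (BB n) k k ω (fun _ => ω') {box (BB n) n k ω} hG hβ2 le_rfl hω
      (by intro u hu; rw [Finset.mem_singleton] at hu; exact ⟨hω', by rw [hu, h]⟩)
      (by
        intro u
        rw [Finset.mem_singleton]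
        constructor
        · rintro rfl; exact ⟨ω, hω, rfl, rfl⟩
        · rintro ⟨ω'', _, h1, h2⟩; rw [← h1, h2])
    simpa using this
  let w : ∀ k, V (k + 1) → ℝ := fun k u =>
    wt (BB n) n D (k + 1) (R (k + 1) u.1) / wt (BB n) n D k (R (k + 1) u.1)
  let a : ℕ → ℝ := fun k => ∏ l, (Nmin D l : ℝ) ^ (LL (BB n) n l (k + 1) - LL (BB n) n l k)
  let b : ℕ → ℝ := fun k => ∏ l, (Nmax D l : ℝ) ^ (LL (BB n) n l (k + 1) - LL (BB n) n l k)
  have ha1 : ∀ k, 1 ≤ a k := by
    intro k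
    calc (1 : ℝ) = ∏ _l : Fin d, (1 : ℝ) := by simp
      _ ≤ _ := Finset.prod_le_prod (fun _ _ => zero_le_one)
        (fun l _ => one_le_pow₀ (by exact_mod_cast (Nmin_bd hG l).1))
  have hb1 : ∀ k, 1 ≤ b k := by
    intro k
    calc (1 : ℝ) = ∏ _l : Fin d, (1 : ℝ) := by simp
      _ ≤ _ := Finset.prod_le_prod (fun _ _ => zero_le_one)
        (fun l _ => one_le_pow₀ (by exact_mod_cast (Nmax_bd hG l).1))
  have hPmax := fun k k' (h : k ≤ k') => hPROD d n (Nmax D) (BB n) k k' hn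
    (fun l => Nmax_bd hG l) hβ2 h
  have hPmin := fun k k' (h : k ≤ k') => hPROD d n (Nmin D) (BB n) k k' hn
    (fun l => Nmin_bd hG l) hβ2 h
  set C : ℝ := (∏ l, (Nmax D l : ℝ)) * ((BB n : ℕ) : ℝ) ^ expo n (Nmax D) with hCdef
  have hbC : ∀ k, b k ≤ C := by
    intro k
    have := (hPmax k (k + 1) (Nat.le_succ k)).2.1
    simpa [hCdef] using this
  have hC1 : 1 ≤ C := (hb1 0).trans (hbC 0)
  have hββ : (2 : ℝ) ≤ ((BB n : ℕ) : ℝ) := by exact_mod_cast hβ2
  -- same box distance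
  have hsame : ∀ k ω ω', ω ∈ Dig D → ω' ∈ Dig D → box (BB n) n k ω = box (BB n) n k ω' →
      dist (tau n ω) (tau n ω') ≤ ((d * NN n : ℕ) : ℝ) * (1 / ((BB n : ℕ) : ℝ)) ^ k := by
    intro k ω ω' hω hω' h
    have := dist_of_adj hNUM hG hω hω' hβ1 k 0 (fun l => by rw [h]; simp)
    calc dist (tau n ω) (tau n ω') ≤ _ := this
      _ = _ := by push_cast; ring
  have hL01 : ((d * (AA n + 1) * NN n : ℕ) : ℝ) ≤ ((BB n : ℕ) : ℝ) := by
    have : d * (AA n + 1) * NN n ≤ BB n := by
      unfold AA BB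
      set x := 2 * d * NN n + 5 with hx
      have h2 : d * NN n ≤ x := by nlinarith
      have h3 : 1 ≤ x := by omega
      calc d * x * NN n = (d * NN n) * x := by ring
        _ ≤ x * x := Nat.mul_le_mul_right _ h2
        _ ≤ x * x * x := Nat.le_mul_of_pos_right _ (by omega)
        _ = x ^ 3 := by ring
    exact_mod_cast this
  have hM := hMEAS K V par adj w c a b C ((BB n : ℕ) : ℝ) ((d * NN n : ℕ) : ℝ)
    ((d * (AA n + 1) * NN n : ℕ) : ℝ)
    (fun k u l => ⟨by omega, by omega⟩)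
    (fun k u u' h l => ⟨(h l).2, (h l).1⟩)
    (by
      intro k u0 u1 u2 u3 h1 h2 h3 l
      have e1 := h1 l
      have e2 := h2 l
      have e3 := h3 l
      have hq : 8 ≤ (n l) ^ (LL (BB n) n l (k + 1) - LL (BB n) n l k) := by
        have h4 := LL_succ hn l k
        calc 8 = 2 ^ 3 := by norm_num
          _ ≤ (n l) ^ 3 := Nat.pow_le_pow_left (hn l) 3
          _ ≤ _ := Nat.pow_le_pow_right (by have := hn l; omega) (by omega)
      have hA : 4 ≤ AA n := by unfold AA; omega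
      have key : ∀ x y q A : ℕ, 8 ≤ q → 4 ≤ A → x ≤ y + 3 * A → x / q ≤ y / q + A := by
        intro x y q A hq hA hxy
        have h1 : x / q * q ≤ x := Nat.div_mul_le_self x q
        have h2 : y < (y / q + 1) * q := by
          rw [mul_comm]; exact Nat.lt_mul_div_succ y (by omega)
        by_contra hcon
        push Not at hcon
        have h3 : (y / q + 1 + A) * q ≤ x / q * q := Nat.mul_le_mul_right _ (by omega)
        have h4 : (y / q + 1 + A) * q = (y / q + 1) * q + A * q := by ring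
        have h5 : 8 * A ≤ A * q := by nlinarith
        omega
      refine ⟨key _ _ _ _ hq hA ?_, key _ _ _ _ hq hA ?_⟩
      · omega
      · omega)
    (by
      obtain ⟨e, he⟩ := hG.2.2.2
      refine ⟨⟨box (BB n) n 0 (fun _ => e), _, fun _ => he, rfl⟩, ?_⟩
      rintro ⟨v, ω, hω, rfl⟩
      apply Subtype.ext
      funext l
      have h0 : LL (BB n) n l 0 = 0 := by simp [LL]
      simp [box, h0, num])
    ha1 hb1 hbC
    (by
      intro k u
      have h1 := wt_ratio hG (hRD (k + 1) u) hβ1 k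
      have h2 := wt_pos hG (hRD (k + 1) u) (BB n) k
      constructor
      · rw [le_div_iff₀ h2]; exact h1.1
      · rw [div_le_iff₀ h2]; exact h1.2)
    (by
      intro k v F hF
      have h2 := wt_pos hG (hRD k v) (BB n) k
      have hsum := hWT d n D (BB n) k (k + 1) (R k v.1) (R (k + 1)) (F.map ⟨Subtype.val,
        Subtype.val_injective⟩) hG hβ2 (Nat.le_succ k) (hRD k v)
        (by
          intro u hu
          simp only [Finset.mem_map, Function.Embedding.coeFn_mk] at hu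
          obtain ⟨u', _, rfl⟩ := hu
          exact ⟨hRD (k + 1) u', hRb (k + 1) u'⟩)
        (by
          intro u
          simp only [Finset.mem_map, Function.Embedding.coeFn_mk]
          constructor
          · rintro ⟨u', hu', rfl⟩
            obtain ⟨ω, hω, hωu⟩ := u'.2
            refine ⟨ω, hω, hωu, ?_⟩
            rw [hRb k v, ← (hF u').1 hu']
            funext l
            show box (BB n) n k ω l = u'.1 l / _
            rw [← hωu]
            exact (box_div hNUM hG hω hβ1 (Nat.le_succ k) l).symm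
          · rintro ⟨ω, hω, hωu, hωv⟩
            refine ⟨⟨u, ω, hω, hωu⟩, (hF _).2 ?_, rfl⟩
            apply Subtype.ext
            funext l
            show u l / _ = v.1 l
            rw [← hωu, box_div hNUM hG hω hβ1 (Nat.le_succ k) l, hωv, hRb k v])
      rw [Finset.sum_map] at hsum
      simp only [Function.Embedding.coeFn_mk] at hsum
      have : ∀ u ∈ F, w k u = wt (BB n) n D (k + 1) (R (k + 1) u.1) / wt (BB n) n D k (R k v.1) := by
        intro u hu
        show wt (BB n) n D (k + 1) (R (k + 1) u.1) / wt (BB n) n D k (R (k + 1) u.1) = _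
        rw [hWB k (R k v.1) (R (k + 1) u.1) (hRD k v) (hRD (k + 1) u)]
        rw [hRb k v, ← (hF u).1 hu]
        funext l
        show u.1 l / _ = box (BB n) n k (R (k + 1) u.1) l
        rw [← box_div hNUM hG (hRD (k + 1) u) hβ1 (Nat.le_succ k) l, hRb (k + 1) u]
      rw [Finset.sum_congr rfl this, ← Finset.sum_div, hsum, div_self h2.ne'])
    hββ (by positivity) (by positivity) hL01
    (by
      intro k u
      show dist (tau n (R (k + 1) u.1)) (tau n (R k (par k u).1)) ≤ _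
      apply hsame k _ _ (hRD (k + 1) u) (hRD k (par k u))
      rw [hRb k (par k u)]
      funext l
      show box (BB n) n k (R (k + 1) u.1) l = u.1 l / _
      rw [← box_div hNUM hG (hRD (k + 1) u) hβ1 (Nat.le_succ k) l, hRb (k + 1) u])
    (by
      intro k u u' h
      show dist (tau n (R k u.1)) (tau n (R k u'.1)) ≤ _
      have := dist_of_adj hNUM hG (hRD k u) (hRD k u') hβ1 k (AA n)
        (fun l => by rw [hRb k u, hRb k u']; exact h l)
      calc _ ≤ _ := this
        _ = _ := by push_cast; ring)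
  obtain ⟨μ, m, hμ, hm0, hI1, hI2, hI2', hT1, hT2⟩ := hM
  refine ⟨μ, hμ, ?_⟩
  exact hBALL K V par adj c code a b C ((BB n : ℕ) : ℝ) ((d * NN n : ℕ) : ℝ)
    (expo n (Nmax D)) (expo n (Nmin D)) (∏ l, (Nmax D l : ℝ)) (∏ l, (Nmin D l : ℝ))
    ((2 * AA n + 1) ^ d) μ m hμ
    (by
      intro k x
      apply Subtype.ext
      funext l
      exact box_div hNUM hG (hcdD x) hβ1 (Nat.le_succ k) l)
    (by
      intro k x
      show dist (tau n (R k (code k x).1)) x.1 ≤ _
      rw [← hcdx x]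
      exact hsame k _ _ (hRD k (code k x)) (hcdD x) (hRb k (code k x)))
    (by
      intro k x u h
      change dist (tau n (R k u.1)) x.1 < _ at h
      rw [← hcdx x] at h
      have h' : dist (tau n (R k u.1)) (tau n (cd x)) <
          ((2 * d * NN n + 3 : ℕ) : ℝ) * (1 / ((BB n : ℕ) : ℝ)) ^ k := by
        calc _ < _ := h
          _ = _ := by push_cast; ring
      intro l
      have e1 := near_box hNUM hG (hRD k u) (hcdD x) hβ1 k _ h' l
      have e2 := near_box hNUM hG (hcdD x) (hRD k u) hβ1 k _ (by rw [dist_comm]; exact h') l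
      rw [hRb k u] at e1 e2
      exact ⟨e1, e2⟩)
    (by
      intro k x F hF
      have hsub : F.map ⟨Subtype.val, Subtype.val_injective⟩ ⊆
          Fintype.piFinset (fun l => Finset.Icc ((code k x).1 l - AA n) ((code k x).1 l + AA n)) := by
        intro u hu
        simp only [Finset.mem_map, Function.Embedding.coeFn_mk] at hu
        obtain ⟨u', hu', rfl⟩ := hu
        rw [Fintype.mem_piFinset]
        intro l
        have := hF u' hu' l
        rw [Finset.mem_Icc]
        omega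
      calc F.card = (F.map ⟨Subtype.val, Subtype.val_injective⟩).card := by rw [Finset.card_map]
        _ ≤ _ := Finset.card_le_card hsub
        _ = ∏ l, ((code k x).1 l + AA n + 1 - ((code k x).1 l - AA n)) := by
            rw [Fintype.card_piFinset]; simp
        _ ≤ ∏ _l : Fin d, (2 * AA n + 1) := by
            apply Finset.prod_le_prod'
            intro l _
            omega
        _ = _ := by simp)
    hm0 hI1 hI2 hI2' hT1 hT2 hC1 hββ (by positivity)
    (expo_nonneg hn (fun l => (Nmax_bd hG l).1)) (expo_nonneg hn (fun l => (Nmin_bd hG l).1))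
    (Finset.prod_pos (fun l _ => by exact_mod_cast (Nmax_bd hG l).1))
    (Finset.prod_pos (fun l _ => by exact_mod_cast (Nmin_bd hG l).1))
    ha1 hb1
    (by
      intro k k' h
      have := hPmax k k' h
      rw [this.1]
      exact this.2.1)
    (by
      intro k k' h
      have := hPmin k k' h
      rw [this.1]
      exact this.2.2)

theorem main (hNUM : S_NUM) (hCODE : S_CODE) (hWT : S_WT) (hPROD : S_PROD)
    (hMEAS : S_MEAS) (hBALL : S_BALL) (hDIMA : S_DIMA) (hDIML : S_DIML) {d : ℕ} {n : Fin d → ℕ}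
    {D : Set (Fin d → ℕ)} {K : Set (EuclideanSpace ℝ (Fin d))} (hG : Good n D)
    (hK : IsSponge n D K) :
    ∃ μ : Measure (EuclideanSpace ℝ (Fin d)), IsProbabilityMeasure μ ∧ HasSupport μ K ∧
      SharpAssouad μ K ∧ SharpLower μ K := by
  obtain ⟨ν, hν, C2, hC2, hb⟩ := exists_meas hNUM hCODE hWT hPROD hMEAS hBALL hG hK
  have hA := hDIMA d n D K hG hK
  have hL := hDIML d n D K hG hK
  set s := expo n (Nmax D) with hs
  set t := expo n (Nmin D) with ht
  have hs0 : 0 ≤ s := expo_nonneg hG.2.1 (fun l => (Nmax_bd hG l).1)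
  have hval : Measurable (Subtype.val : K → EuclideanSpace ℝ (Fin d)) := measurable_subtype_coe
  let μ : Measure (EuclideanSpace ℝ (Fin d)) := ν.map Subtype.val
  have hμ : IsProbabilityMeasure μ := Measure.isProbabilityMeasure_map hval.aemeasurable
  have hball : ∀ (x : EuclideanSpace ℝ (Fin d)) (hx : x ∈ K) (r : ℝ),
      μ (ball x r) = ν (ball (⟨x, hx⟩ : K) r) := by
    intro x hx r
    rw [Measure.map_apply hval measurableSet_ball]
    rfl
  have hballr : ∀ (x : EuclideanSpace ℝ (Fin d)) (hx : x ∈ K) (r : ℝ),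
      μ.real (ball x r) = ν.real (ball (⟨x, hx⟩ : K) r) := by
    intro x hx r
    rw [Measure.real, Measure.real, hball x hx r]
  -- estimates for `μ`
  have hest : ∀ x ∈ K, ∀ r R : ℝ, 0 < r → r < R → R ≤ 1 → 0 < μ.real (ball x r) ∧
      μ.real (ball x R) ≤ C2 * (R / r) ^ s * μ.real (ball x r) ∧
      (R / r) ^ t * μ.real (ball x r) ≤ C2 * μ.real (ball x R) := by
    intro x hx r R hr hrR hR
    rw [hballr x hx, hballr x hx]
    exact hb ⟨x, hx⟩ r R hr hrR hR
  have hpos : ∀ x ∈ K, ∀ r : ℝ, 0 < r → 0 < μ.real (ball x r) := by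
    intro x hx r hr
    have h1 := (hest x hx (min r (1 / 2)) 1 (by positivity)
      ((min_le_right _ _).trans_lt (by norm_num)) le_rfl).1
    exact h1.trans_le (measureReal_mono (ball_subset_ball (min_le_left _ _)))
  have hsupp : HasSupport μ K := by
    refine ⟨?_, ?_⟩
    · rw [Measure.map_apply hval hK.1.isClosed.isOpen_compl.measurableSet]
      have : (Subtype.val : K → EuclideanSpace ℝ (Fin d)) ⁻¹' Kᶜ = ∅ := by
        ext x; simp
      rw [this, measure_empty]
    · intro x hx r hr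
      have h1 := hpos x hx r hr
      rw [Measure.real, ENNReal.toReal_pos_iff] at h1
      exact h1.1
  -- uniform lower bound at scale 1/2
  have hunif : ∃ c : ℝ, 0 < c ∧ ∀ x ∈ K, c ≤ μ.real (ball x (1 / 2)) := by
    obtain ⟨T, hTK, hTf, hT⟩ := finite_cover_balls_of_compact hK.1
      (show (0 : ℝ) < 1 / 4 by norm_num)
    obtain ⟨x0, hx0⟩ := hK.2.1
    have hTne : T.Nonempty := by
      have := hT hx0
      simp only [mem_iUnion] at this
      obtain ⟨y, hy, _⟩ := this
      exact ⟨y, hy⟩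
    obtain ⟨y, hy, hymin⟩ := Set.exists_min_image T (fun y => μ.real (ball y (1 / 4))) hTf hTne
    refine ⟨μ.real (ball y (1 / 4)), hpos y (hTK hy) _ (by norm_num), ?_⟩
    intro x hx
    have := hT hx
    simp only [mem_iUnion] at this
    obtain ⟨z, hz, hxz⟩ := this
    refine (hymin z hz).trans (measureReal_mono ?_)
    intro u hu
    rw [mem_ball] at *
    have h1 := dist_triangle u z x
    rw [dist_comm z x] at h1
    linarith
  refine ⟨μ, hμ, hsupp, ?_, ?_, ?_⟩
  · refine ⟨C2, 1, hC2, one_pos, ?_⟩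
    intro x hx r R hr hrR hR
    obtain ⟨h0, h1, _⟩ := hest x hx r R hr hrR hR
    rw [div_le_iff₀ h0]
    refine h1.trans (mul_le_mul_of_nonneg_right ?_ h0.le)
    apply mul_le_mul_of_nonneg_left _ hC2.le
    apply Real.rpow_le_rpow_of_exponent_le _ hA
    rw [le_div_iff₀ hr]
    linarith
  · obtain ⟨c, hc, hcx⟩ := hunif
    refine ⟨max (C2 * 2 ^ s) (1 / c), by positivity, ?_⟩
    intro x hx r hr
    rcases le_or_gt (2 * r) 1 with h | h
    · obtain ⟨h0, h1, _⟩ := hest x hx r (2 * r) hr (by linarith) h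
      have : 2 * r / r = 2 := by field_simp
      rw [this] at h1
      exact h1.trans (mul_le_mul_of_nonneg_right (le_max_left _ _) h0.le)
    · have h1 : μ.real (ball x (2 * r)) ≤ 1 := measureReal_le_one
      have h2 : c ≤ μ.real (ball x r) :=
        (hcx x hx).trans (measureReal_mono (ball_subset_ball (by linarith)))
      calc μ.real (ball x (2 * r)) ≤ 1 := h1
        _ = 1 / c * c := by field_simp
        _ ≤ max (C2 * 2 ^ s) (1 / c) * μ.real (ball x r) :=
          mul_le_mul (le_max_right _ _) h2 hc.le (by positivity)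
  · refine ⟨1 / C2, 1, by positivity, one_pos, ?_⟩
    intro x hx r R hr hrR hR
    obtain ⟨h0, _, h1⟩ := hest x hx r R hr hrR hR
    rw [le_div_iff₀ h0, div_mul_eq_mul_div, one_mul, div_mul_eq_mul_div, div_le_iff₀ hC2]
    have h2 : (R / r) ^ dimL K ≤ (R / r) ^ t := by
      apply Real.rpow_le_rpow_of_exponent_le _ hL
      rw [le_div_iff₀ hr]
      linarith
    calc (R / r) ^ dimL K * μ.real (ball x r) ≤ (R / r) ^ t * μ.real (ball x r) :=
          mul_le_mul_of_nonneg_right h2 h0.le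
      _ ≤ C2 * μ.real (ball x R) := h1
      _ = μ.real (ball x R) * C2 := mul_comm _ _

end Pool.Agent.R660.SH.Fin
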