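import Pool.Agent.R660.SH.Defs

open Set Filter Topology MeasureTheory Metric

namespace Pool.Agent.R660.SH.MEAS

/-- the finite combination of Dirac masses. -/
noncomputable def atoms {X : Type} [MeasurableSpace X] {V : Type} [Fintype V] (m : V → ℝ)
    (c : V → X) : Measure X := ∑ v, ENNReal.ofReal (m v) • Measure.dirac (c v)

open Classical in
theorem atoms_apply {X : Type} [MeasurableSpace X] {V : Type} [Fintype V] (m : V → ℝ)
    (c : V → X) (hm : ∀ v, 0 ≤ m v) (A : Set X) (hA : MeasurableSet A) :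
    atoms m c A = ENNReal.ofReal (∑ v ∈ Finset.univ.filter (fun v => c v ∈ A), m v) := by
  unfold atoms
  rw [Measure.finsetSum_apply, ENNReal.ofReal_sum_of_nonneg (fun v _ => hm v), Finset.sum_filter]
  refine Finset.sum_congr rfl fun v _ => ?_
  rw [Measure.smul_apply, Measure.dirac_apply' _ hA]
  by_cases h : c v ∈ A
  · simp [h]
  · simp [h]

theorem D_bound (β Λ0 Λ1 : ℝ) (hβ : 2 ≤ β) (h0 : 0 ≤ Λ0) (h1 : 0 ≤ Λ1) (h1β : Λ1 ≤ β) (k n : ℕ) :
    ∑ j ∈ Finset.range n, (Λ0 * (1 / β) ^ (k + j) + Λ1 * (1 / β) ^ (k + j + 1))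
      ≤ 2 * (Λ0 + 1) * (1 / β) ^ k := by
  have hβ0 : (0 : ℝ) < β := by linarith
  have hb : (0 : ℝ) < 1 / β := by positivity
  have hb2 : 1 / β ≤ 1 / 2 := one_div_le_one_div_of_le (by norm_num) hβ
  have hL : Λ1 * (1 / β) ≤ 1 := by
    rw [mul_one_div, div_le_one hβ0]; exact h1β
  have hterm : ∀ j ∈ Finset.range n,
      (Λ0 * (1 / β) ^ (k + j) + Λ1 * (1 / β) ^ (k + j + 1))
        ≤ (Λ0 + 1) * (1 / β) ^ k * (1 / 2) ^ j := by
    intro j _
    have e1 : Λ0 * (1 / β) ^ (k + j) + Λ1 * (1 / β) ^ (k + j + 1)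
        = (Λ0 + Λ1 * (1 / β)) * (1 / β) ^ k * (1 / β) ^ j := by
      rw [pow_succ, pow_add]; ring
    rw [e1]
    have hj : (1 / β) ^ j ≤ (1 / 2 : ℝ) ^ j := pow_le_pow_left₀ hb.le hb2 j
    have : (0 : ℝ) ≤ Λ1 * (1 / β) := by positivity
    have h3 : (Λ0 + Λ1 * (1 / β)) * (1 / β) ^ k ≤ (Λ0 + 1) * (1 / β) ^ k :=
      mul_le_mul_of_nonneg_right (by linarith) (by positivity)
    exact mul_le_mul h3 hj (by positivity) (by positivity)
  refine (Finset.sum_le_sum hterm).trans ?_
  rw [← Finset.mul_sum]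
  have hg : ∑ j ∈ Finset.range n, (1 / 2 : ℝ) ^ j ≤ 2 := sum_geometric_two_le n
  have hp : (0 : ℝ) ≤ (Λ0 + 1) * (1 / β) ^ k := by positivity
  nlinarith [mul_le_mul_of_nonneg_left hg hp]

theorem main (hS : S_STEP) : S_MEAS := by
  classical
  intro X _ _ _ _ V _ par adj w c a b C β Λ0 Λ1 hrefl hsymm h3 hV0 ha hb hbC hw hsum hβ h0 h1 h1β
    hpar hadj
  have hC1 : 1 ≤ C := (hb 0).trans (hbC 0)
  obtain ⟨v0, hv0⟩ := hV0
  -- masses
  let Sub : ℕ → Type := fun k => {m : V k → ℝ // (∀ v, 0 < m v) ∧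
    (∀ v v', adj k v v' → m v ≤ C * m v') ∧ ∑ v, m v = 1}
  have step : ∀ k (m : Sub k), ∃ m' : Sub (k + 1),
      (∀ u, m.1 (par k u) ≤ b k * m'.1 u) ∧ (∀ u, a k * m'.1 u ≤ m.1 (par k u)) ∧
      (∀ (S : Finset (V k)) (F : Finset (V (k + 1))),
        (∀ u u', adj (k + 1) u u' → par k u' ∈ S → u ∈ F) →
        ∑ v ∈ S, m.1 v ≤ ∑ u ∈ F, m'.1 u) := by
    intro k m
    obtain ⟨m', h1', h2', h3', h4', h5', h6'⟩ := hS (V (k + 1)) (V k) (par k) (adj (k + 1)) (adj k)
      (w k) m.1 (a k) (b k) C (hrefl (k + 1)) (hsymm (k + 1)) (h3 k) m.2.1 m.2.2.1 (ha k) (hb k)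
      (hbC k) (hw k) (hsum k)
    exact ⟨⟨m', h1', h2', h5'.trans m.2.2.2⟩, h3', h4', h6'⟩
  choose g hg1 hg2 hg3 using step
  have m00 : Sub 0 := ⟨fun _ => 1, fun _ => one_pos, fun _ _ _ => by linarith, by
    have : (Finset.univ : Finset (V 0)) = {v0} := by
      ext v; simp [hv0 v]
    rw [this]; simp⟩
  let f : ∀ k, Sub k := fun k => Nat.rec m00 (fun k m => g k m) k
  have hf : ∀ k, f (k + 1) = g k (f k) := fun k => rfl
  let m : ∀ k, V k → ℝ := fun k => (f k).1
  have hmpos : ∀ k v, 0 < m k v := fun k v => (f k).2.1 v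
  have hmadj : ∀ k u u', adj k u u' → m k u ≤ C * m k u' := fun k u u' h => (f k).2.2.1 u u' h
  have hmsum : ∀ k, ∑ v, m k v = 1 := fun k => (f k).2.2.2
  have hmb : ∀ k u, m k (par k u) ≤ b k * m (k + 1) u := fun k u => by
    have := hg1 k (f k) u
    exact this
  have hma : ∀ k u, a k * m (k + 1) u ≤ m k (par k u) := fun k u => by
    have := hg2 k (f k) u
    exact this
  have hmtr : ∀ k (S : Finset (V k)) (F : Finset (V (k + 1))),
        (∀ u u', adj (k + 1) u u' → par k u' ∈ S → u ∈ F) →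
        ∑ v ∈ S, m k v ≤ ∑ u ∈ F, m (k + 1) u := fun k S F h => by
    have := hg3 k (f k) S F h
    exact this
  -- transfer
  let Dd : ℕ → ℕ → ℝ := fun k n =>
    ∑ j ∈ Finset.range n, (Λ0 * (1 / β) ^ (k + j) + Λ1 * (1 / β) ^ (k + j + 1))
  have trans1 : ∀ n k (S : Finset (V k)) (F : Finset (V (k + n))),
      (∀ u ∈ S, ∀ v, dist (c (k + n) v) (c k u) ≤ Dd k n → v ∈ F) →
      ∑ v ∈ S, m k v ≤ ∑ v ∈ F, m (k + n) v := by
    intro n
    induction n with
    | zero =>
      intro k S F h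
      refine Finset.sum_le_sum_of_subset_of_nonneg ?_ (fun v _ _ => (hmpos k v).le)
      intro v hv
      exact h v hv v (by simp [Dd])
    | succ n ih =>
      intro k S F h
      let F1 : Finset (V (k + n)) := Finset.univ.filter
        (fun v => ∃ u ∈ S, dist (c (k + n) v) (c k u) ≤ Dd k n)
      have e1 : ∑ v ∈ S, m k v ≤ ∑ v ∈ F1, m (k + n) v := by
        refine ih k S F1 ?_
        intro u hu v hv
        simp only [F1, Finset.mem_filter, Finset.mem_univ, true_and]
        exact ⟨u, hu, hv⟩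
      refine e1.trans (hmtr (k + n) F1 F ?_)
      intro u u' huu' hu'
      simp only [F1, Finset.mem_filter, Finset.mem_univ, true_and] at hu'
      obtain ⟨u0, hu0, hd⟩ := hu'
      refine h u0 hu0 u ?_
      have d1 := hadj (k + n + 1) u u' huu'
      have d2 := hpar (k + n) u'
      have hD : Dd k (n + 1) = Dd k n + (Λ0 * (1 / β) ^ (k + n) + Λ1 * (1 / β) ^ (k + n + 1)) := by
        simp only [Dd, Finset.sum_range_succ]
      rw [hD]
      have t1 := dist_triangle (c (k + n + 1) u) (c (k + n + 1) u') (c k u0)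
      have t2 := dist_triangle (c (k + n + 1) u') (c (k + n) (par (k + n) u')) (c k u0)
      have : dist (c (k + (n + 1)) u) (c k u0) = dist (c (k + n + 1) u) (c k u0) := rfl
      linarith
  have trans2 : ∀ k i, k ≤ i → ∀ (S : Finset (V k)) (F : Finset (V i)),
      (∀ u ∈ S, ∀ v, dist (c i v) (c k u) ≤ 2 * (Λ0 + 1) * (1 / β) ^ k → v ∈ F) →
      ∑ v ∈ S, m k v ≤ ∑ v ∈ F, m i v := by
    intro k i hki S F h
    obtain ⟨n, rfl⟩ := Nat.exists_eq_add_of_le hki
    exact trans1 n k S F (fun u hu v hv => h u hu v (hv.trans (D_bound β Λ0 Λ1 hβ h0 h1 h1β k n)))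
  -- measures
  have hprob : ∀ k, IsProbabilityMeasure (atoms (m k) (c k)) := by
    intro k
    constructor
    rw [atoms_apply _ _ (fun v => (hmpos k v).le) _ MeasurableSet.univ]
    simp [hmsum k]
  let μs : ℕ → ProbabilityMeasure X := fun k => ⟨atoms (m k) (c k), hprob k⟩
  obtain ⟨μ, -, hμ⟩ := isCompact_univ.ultrafilter_le_nhds ((hyperfilter ℕ).map μs) (by simp)
  have hlim : Tendsto μs (hyperfilter ℕ : Filter ℕ) (𝓝 μ) := hμ
  have hev : ∀ k, ∀ᶠ i in (hyperfilter ℕ : Filter ℕ), k ≤ i := by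
    intro k
    have : (hyperfilter ℕ : Filter ℕ) ≤ atTop := by
      rw [← Nat.cofinite_eq_atTop]; exact hyperfilter_le_cofinite
    exact this (eventually_ge_atTop k)
  refine ⟨(μ : Measure X), m, inferInstance, hmpos, hmadj, hmb, hma, ?_, ?_⟩
  · intro k v
    have h1' : ENNReal.ofReal (m k v)
        ≤ (μ : Measure X) (closedBall (c k v) (2 * (Λ0 + 1) * (1 / β) ^ k)) := by
      refine le_trans ?_ (ProbabilityMeasure.limsup_measure_closed_le_of_tendsto hlim
        isClosed_closedBall)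
      have e : ENNReal.ofReal (m k v)
          = limsup (fun _ : ℕ => ENNReal.ofReal (m k v)) (hyperfilter ℕ : Filter ℕ) :=
        (limsup_const _).symm
      rw [e]
      refine limsup_le_limsup ?_
      filter_upwards [hev k] with i hi
      change ENNReal.ofReal (m k v) ≤ atoms (m i) (c i) _
      rw [atoms_apply _ _ (fun v => (hmpos i v).le) _ isClosed_closedBall.measurableSet]
      refine ENNReal.ofReal_le_ofReal ?_
      have := trans2 k i hi {v} (Finset.univ.filter
        (fun u => c i u ∈ closedBall (c k v) (2 * (Λ0 + 1) * (1 / β) ^ k))) ?_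
      · simpa using this
      · intro u hu v' hv'
        simp only [Finset.mem_singleton] at hu
        subst hu
        simp only [Finset.mem_filter, Finset.mem_univ, true_and, mem_closedBall]
        exact hv'
    have := ENNReal.toReal_mono (measure_ne_top _ _) h1'
    rwa [ENNReal.toReal_ofReal (hmpos k v).le] at this
  · intro k x R F hF
    have h1' : (μ : Measure X) (ball x R) ≤ ENNReal.ofReal (∑ u ∈ F, m k u) := by
      refine (ProbabilityMeasure.le_liminf_measure_open_of_tendsto hlim isOpen_ball).trans ?_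
      have e : ENNReal.ofReal (∑ u ∈ F, m k u)
          = liminf (fun _ : ℕ => ENNReal.ofReal (∑ u ∈ F, m k u)) (hyperfilter ℕ : Filter ℕ) :=
        (liminf_const _).symm
      rw [e]
      refine liminf_le_liminf ?_
      filter_upwards [hev k] with i hi
      change atoms (m i) (c i) _ ≤ ENNReal.ofReal (∑ u ∈ F, m k u)
      rw [atoms_apply _ _ (fun v => (hmpos i v).le) _ isOpen_ball.measurableSet]
      refine ENNReal.ofReal_le_ofReal ?_
      have htr := trans2 k i hi Fᶜ (Finset.univ.filter (fun u => ¬ c i u ∈ ball x R)) ?_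
      · have hsplit : ∑ v ∈ Finset.univ.filter (fun u => c i u ∈ ball x R), m i v
            + ∑ v ∈ Finset.univ.filter (fun u => ¬ c i u ∈ ball x R), m i v = ∑ v, m i v :=
          Finset.sum_filter_add_sum_filter_not _ _ _
        have hsplit2 : ∑ v ∈ F, m k v + ∑ v ∈ Fᶜ, m k v = ∑ v, m k v :=
          Finset.sum_add_sum_compl _ _
        rw [hmsum] at hsplit hsplit2
        linarith
      · intro u hu v hv
        simp only [Finset.mem_filter, Finset.mem_univ, true_and, mem_ball, not_lt]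
        have hu' : ¬ (dist (c k u) x < R + 2 * (Λ0 + 1) * (1 / β) ^ k) :=
          fun hh => (Finset.mem_compl.1 hu) (hF u hh)
        have := dist_triangle (c k u) (c i v) x
        rw [dist_comm (c k u) (c i v)] at this
        push Not at hu'
        linarith
    have h2' := ENNReal.toReal_mono ENNReal.ofReal_ne_top h1'
    rwa [ENNReal.toReal_ofReal (Finset.sum_nonneg fun v _ => (hmpos k v).le)] at h2'

end Pool.Agent.R660.SH.MEAS
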