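import Pool.Agent.R660.SH.Defs

/-! NUM: digit expansions in base `n`. -/

open Set Filter Topology

namespace Pool.Agent.R660.SH.NUM

theorem num_add (n : ℕ) (a : ℕ → ℕ) (ha : ∀ p, a p < n) (L m : ℕ) :
    ∃ e, e < n ^ m ∧ num n a (L + m) = n ^ m * num n a L + e := by
  induction m with
  | zero => exact ⟨0, by simp, by simp⟩
  | succ m ih =>
    obtain ⟨e, he, h⟩ := ih
    refine ⟨n * e + a (L + m), ?_, ?_⟩
    · have h1 := ha (L + m)
      have h2 : n * (e + 1) ≤ n * n ^ m := Nat.mul_le_mul_left n he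
      rw [pow_succ']
      nlinarith
    · rw [← add_assoc, num, h]
      ring

theorem num_lt (n : ℕ) (a : ℕ → ℕ) (ha : ∀ p, a p < n) (L : ℕ) : num n a L < n ^ L := by
  obtain ⟨e, he, h⟩ := num_add n a ha 0 L
  rw [zero_add] at h
  rw [h]
  simpa [num] using he

theorem psum (n : ℕ) (a : ℕ → ℕ) (hn : 2 ≤ n) (L : ℕ) :
    ∑ p ∈ Finset.range L, (a p : ℝ) / (n : ℝ) ^ (p + 1) = (num n a L : ℝ) / (n : ℝ) ^ L := by
  have hn0 : (n : ℝ) ≠ 0 := by
    have : (0 : ℝ) < n := by exact_mod_cast (by omega : 0 < n)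
    exact this.ne'
  induction L with
  | zero => simp [num]
  | succ L ih =>
    rw [Finset.sum_range_succ, ih, num]
    push_cast
    rw [pow_succ]
    field_simp

theorem summ (n : ℕ) (a : ℕ → ℕ) (hn : 2 ≤ n) (ha : ∀ p, a p < n) :
    Summable (fun p => (a p : ℝ) / (n : ℝ) ^ (p + 1)) := by
  have hn0 : (0 : ℝ) < n := by exact_mod_cast (by omega : 0 < n)
  have hn1 : (1 : ℝ) < n := by exact_mod_cast (by omega : 1 < n)
  refine Summable.of_nonneg_of_le (fun p => by positivity) (fun p => ?_)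
    (summable_geometric_of_lt_one (r := 1 / (n : ℝ)) (by positivity)
      (by rw [div_lt_one hn0]; exact hn1))
  rw [one_div, inv_pow, pow_succ, ← one_div, div_le_div_iff₀ (by positivity) (by positivity)]
  have h1 : (a p : ℝ) ≤ n := by exact_mod_cast (ha p).le
  have h2 : (0 : ℝ) < (n : ℝ) ^ p := by positivity
  nlinarith

theorem bnd (n : ℕ) (a : ℕ → ℕ) (hn : 2 ≤ n) (ha : ∀ p, a p < n) (L m : ℕ) :
    (num n a (L + m) : ℝ) / (n : ℝ) ^ (L + m) ≤ ((num n a L : ℝ) + 1) / (n : ℝ) ^ L := by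
  have hn0 : (0 : ℝ) < n := by exact_mod_cast (by omega : 0 < n)
  obtain ⟨e, he, h⟩ := num_add n a ha L m
  rw [h, pow_add, div_le_div_iff₀ (by positivity) (by positivity)]
  push_cast
  have h1 : (e : ℝ) ≤ (n : ℝ) ^ m := by exact_mod_cast he.le
  have h2 : (0 : ℝ) < (n : ℝ) ^ L := by positivity
  nlinarith

theorem inj (n : ℕ) (a a' : ℕ → ℕ) (hn : 2 ≤ n) (ha : ∀ p, a p < n) (ha' : ∀ p, a' p < n)
    (L : ℕ) : num n a L = num n a' L → ∀ p < L, a p = a' p := by
  induction L with
  | zero => intro _ p hp; omega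
  | succ L ih =>
    intro h p hp
    rw [num, num] at h
    have h1 : a L = a' L := by
      have e1 : (n * num n a L + a L) % n = a L := by
        rw [Nat.mul_add_mod, Nat.mod_eq_of_lt (ha L)]
      have e2 : (n * num n a' L + a' L) % n = a' L := by
        rw [Nat.mul_add_mod, Nat.mod_eq_of_lt (ha' L)]
      rw [← e1, h, e2]
    have h2 : num n a L = num n a' L := by
      rw [h1] at h
      have h3 : n * num n a L = n * num n a' L := by omega
      exact Nat.eq_of_mul_eq_mul_left (by omega) h3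
    rcases Nat.lt_succ_iff_lt_or_eq.1 hp with h4 | h4
    · exact ih h2 p h4
    · rw [h4]; exact h1

theorem main : S_NUM := by
  intro n a hn ha
  have hn0 : (0 : ℝ) < n := by exact_mod_cast (by omega : 0 < n)
  refine ⟨?_, num_lt n a ha, summ n a hn ha, ?_, ?_, fun a' ha' L h => inj n a a' hn ha ha' L h⟩
  · intro L m
    obtain ⟨e, he, h⟩ := num_add n a ha L m
    rw [h, Nat.mul_add_div (Nat.pos_of_ne_zero (by positivity)), Nat.div_eq_of_lt he, add_zero]
  · intro L
    rw [← psum n a hn L]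
    exact (summ n a hn ha).sum_le_tsum _ (fun p _ => by positivity)
  · intro L
    refine Real.tsum_le_of_sum_range_le (fun p => by positivity) (fun N => ?_)
    calc ∑ p ∈ Finset.range N, (a p : ℝ) / (n : ℝ) ^ (p + 1)
        ≤ ∑ p ∈ Finset.range (L + N), (a p : ℝ) / (n : ℝ) ^ (p + 1) := by
          apply Finset.sum_le_sum_of_subset_of_nonneg
          · intro p hp
            rw [Finset.mem_range] at hp ⊢
            omega
          · intro p _ _
            positivity
      _ = (num n a (L + N) : ℝ) / (n : ℝ) ^ (L + N) := psum n a hn _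
      _ ≤ _ := bnd n a hn ha L N

end Pool.Agent.R660.SH.NUM
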