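import Pool.Agent.R660.SH.Defs

/-!
# Piece PROD: products of numbers of children
-/

namespace Pool.Agent.R660.SH.PROD

open Pool.Agent.R660.SH

lemma LL_mono {d : ℕ} (β : ℕ) (n : Fin d → ℕ) (l : Fin d) (hβ : 2 ≤ β) {k k' : ℕ} (h : k ≤ k') :
    LL β n l k ≤ LL β n l k' := by
  unfold LL
  exact Nat.log_mono_right (Nat.pow_le_pow_right (by omega) h)

lemma tele {d : ℕ} (M β : ℕ) (n : Fin d → ℕ) (l : Fin d) (hβ : 2 ≤ β) {k k' : ℕ} (h : k ≤ k') :
    ∏ i ∈ Finset.Ico k k', (M : ℝ) ^ (LL β n l (i + 1) - LL β n l i)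
      = (M : ℝ) ^ (LL β n l k' - LL β n l k) := by
  induction k', h using Nat.le_induction with
  | base => simp
  | succ m hm ih =>
    rw [Finset.prod_Ico_succ_top hm, ih, ← pow_add]
    congr 1
    have h1 := LL_mono β n l hβ hm
    have h2 := LL_mono β n l hβ (Nat.le_succ m)
    simp only [Nat.succ_eq_add_one] at h2
    omega

lemma key {d : ℕ} (β : ℕ) (n : Fin d → ℕ) (l : Fin d) (hn : 2 ≤ n l) (hβ : 2 ≤ β) {k k' : ℕ}
    (h : k ≤ k') :
    (n l) ^ (LL β n l k' - LL β n l k) ≤ n l * β ^ (k' - k) ∧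
      β ^ (k' - k) ≤ n l * (n l) ^ (LL β n l k' - LL β n l k) := by
  have hL := LL_mono β n l hβ h
  have hb : ∀ j, β ^ j ≠ 0 := fun j => by positivity
  have a1 : ∀ j, (n l) ^ (LL β n l j) ≤ β ^ j := fun j => by
    unfold LL; exact Nat.pow_log_le_self (n l) (hb j)
  have a2 : ∀ j, β ^ j < (n l) ^ (LL β n l j + 1) := fun j => by
    unfold LL; exact Nat.lt_pow_succ_log_self (by omega) (β ^ j)
  have hnp : 0 < (n l) ^ (LL β n l k) := by positivity
  have hsplit : (n l) ^ (LL β n l k) * (n l) ^ (LL β n l k' - LL β n l k)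
      = (n l) ^ (LL β n l k') := by
    rw [← pow_add]; congr 1; omega
  have hsplit2 : β ^ k * β ^ (k' - k) = β ^ k' := by
    rw [← pow_add]; congr 1; omega
  constructor
  · refine Nat.le_of_mul_le_mul_left ?_ hnp
    calc (n l) ^ (LL β n l k) * (n l) ^ (LL β n l k' - LL β n l k)
        = (n l) ^ (LL β n l k') := hsplit
      _ ≤ β ^ k' := a1 k'
      _ = β ^ k * β ^ (k' - k) := hsplit2.symm
      _ ≤ (n l) ^ (LL β n l k + 1) * β ^ (k' - k) :=
          Nat.mul_le_mul_right _ (a2 k).le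
      _ = (n l) ^ (LL β n l k) * (n l * β ^ (k' - k)) := by ring
  · refine Nat.le_of_mul_le_mul_left ?_ hnp
    calc (n l) ^ (LL β n l k) * β ^ (k' - k)
        ≤ β ^ k * β ^ (k' - k) := Nat.mul_le_mul_right _ (a1 k)
      _ = β ^ k' := hsplit2
      _ ≤ (n l) ^ (LL β n l k' + 1) := (a2 k').le
      _ = (n l) ^ (LL β n l k') * n l := by rw [pow_succ]
      _ = (n l) ^ (LL β n l k) * (n l * (n l) ^ (LL β n l k' - LL β n l k)) := by
          rw [← hsplit]; ring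

/-- `n ^ (log M / log n) = M`. -/
lemma rp (n M : ℕ) (hn : 2 ≤ n) (hM : 1 ≤ M) :
    (n : ℝ) ^ (Real.log M / Real.log n) = M := by
  have h1 : (0 : ℝ) < n := by exact_mod_cast (by omega : 0 < n)
  have h2 : (0 : ℝ) < M := by exact_mod_cast (by omega : 0 < M)
  have h3 : Real.log n ≠ 0 := (Real.log_pos (by exact_mod_cast (by omega : 1 < n))).ne'
  rw [Real.rpow_def_of_pos h1, mul_div_cancel₀ _ h3, Real.exp_log h2]

lemma ee_nonneg (n M : ℕ) (hn : 2 ≤ n) (hM : 1 ≤ M) : 0 ≤ Real.log M / Real.log n :=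
  div_nonneg (Real.log_nonneg (by exact_mod_cast hM))
    (Real.log_nonneg (by exact_mod_cast (by omega : 1 ≤ n)))

/-- If `n ^ j ≤ n * B` then `M ^ j ≤ M * B ^ e`. -/
lemma up (n M j B : ℕ) (hn : 2 ≤ n) (hM : 1 ≤ M) (h : n ^ j ≤ n * B) :
    (M : ℝ) ^ j ≤ M * (B : ℝ) ^ (Real.log M / Real.log n) := by
  have h0 : ((n : ℝ) ^ j) ≤ (n : ℝ) * (B : ℝ) := by exact_mod_cast h
  have he := ee_nonneg n M hn hM
  have hn0 : (0 : ℝ) ≤ n := Nat.cast_nonneg n
  have hB0 : (0 : ℝ) ≤ B := Nat.cast_nonneg B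
  have h1 := Real.rpow_le_rpow (by positivity) h0 he
  rw [Real.mul_rpow hn0 hB0, rp n M hn hM] at h1
  rw [← Real.rpow_natCast (n : ℝ) j, ← Real.rpow_mul hn0, mul_comm, Real.rpow_mul hn0,
    rp n M hn hM, Real.rpow_natCast] at h1
  exact h1

/-- If `B ≤ n * n ^ j` then `B ^ e ≤ M * M ^ j`. -/
lemma dn (n M j B : ℕ) (hn : 2 ≤ n) (hM : 1 ≤ M) (h : B ≤ n * n ^ j) :
    (B : ℝ) ^ (Real.log M / Real.log n) ≤ M * (M : ℝ) ^ j := by
  have h0 : (B : ℝ) ≤ (n : ℝ) * (n : ℝ) ^ j := by exact_mod_cast h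
  have he := ee_nonneg n M hn hM
  have hn0 : (0 : ℝ) ≤ n := Nat.cast_nonneg n
  have hB0 : (0 : ℝ) ≤ B := Nat.cast_nonneg B
  have h1 := Real.rpow_le_rpow hB0 h0 he
  rw [Real.mul_rpow hn0 (by positivity), rp n M hn hM] at h1
  rw [← Real.rpow_natCast (n : ℝ) j, ← Real.rpow_mul hn0, mul_comm (j : ℝ), Real.rpow_mul hn0,
    rp n M hn hM, Real.rpow_natCast] at h1
  exact h1

theorem main : S_PROD := by
  intro d n M β k k' hn hM hβ hk
  have hBpos : (0 : ℝ) < (β : ℝ) ^ (k' - k) := by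
    have : (0 : ℝ) < β := by exact_mod_cast (by omega : 0 < β)
    positivity
  have hexp : ((β : ℝ) ^ (k' - k)) ^ expo n M
      = ∏ l, ((β : ℝ) ^ (k' - k)) ^ (Real.log (M l) / Real.log (n l)) := by
    unfold expo
    exact Real.rpow_sum_of_pos hBpos _ _
  refine ⟨?_, ?_, ?_⟩
  · rw [Finset.prod_comm]
    exact Finset.prod_congr rfl (fun l _ => tele (M l) β n l hβ hk)
  · rw [hexp, ← Finset.prod_mul_distrib]
    refine Finset.prod_le_prod (fun l _ => by positivity) (fun l _ => ?_)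
    have := up (n l) (M l) _ (β ^ (k' - k)) (hn l) (hM l).1 (key β n l (hn l) hβ hk).1
    rw [Nat.cast_pow] at this
    exact this
  · rw [hexp, ← Finset.prod_mul_distrib]
    refine Finset.prod_le_prod (fun l _ => by positivity) (fun l _ => ?_)
    have := dn (n l) (M l) _ (β ^ (k' - k)) (hn l) (hM l).1 (key β n l (hn l) hβ hk).2
    rw [Nat.cast_pow] at this
    exact this

end Pool.Agent.R660.SH.PROD
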