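import Pool.Agent.R660.SH.Defs

/-! Project SH (helper660), piece WT by helper506: additivity of the coordinate uniform weights. -/

set_option autoImplicit false

open Set Filter Topology MeasureTheory Metric

namespace Pool.Agent.R660.SH.WT

variable {d : ℕ}

/-! ### digits -/

lemma num_congr {n : ℕ} {a a' : ℕ → ℕ} : ∀ {L : ℕ}, (∀ p < L, a p = a' p) → num n a L = num n a' L := by
  intro L
  induction L with
  | zero => intro _; rfl
  | succ L ih =>
    intro h
    rw [num, num, ih fun p hp => h p (by omega), h L (by omega)]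

lemma num_inj {n : ℕ} {a a' : ℕ → ℕ} (ha : ∀ p, a p < n) (ha' : ∀ p, a' p < n) :
    ∀ {L : ℕ}, num n a L = num n a' L → ∀ p < L, a p = a' p := by
  intro L
  induction L with
  | zero => intro _ p hp; omega
  | succ L ih =>
    intro h p hp
    rw [num, num] at h
    have h1 : (n * num n a L + a L) % n = (n * num n a' L + a' L) % n := by rw [h]
    rw [Nat.mul_add_mod, Nat.mul_add_mod, Nat.mod_eq_of_lt (ha L), Nat.mod_eq_of_lt (ha' L)] at h1
    have hn : 0 < n := lt_of_le_of_lt (Nat.zero_le _) (ha L)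
    have h2 : num n a L = num n a' L := by
      rw [h1] at h
      exact Nat.eq_of_mul_eq_mul_left hn (by omega)
    rcases Nat.lt_succ_iff_lt_or_eq.mp hp with h3 | h3
    · exact ih h2 p h3
    · rw [h3]; exact h1

/-! ### the finite set of digits and the Bernoulli weights -/

lemma finD {n : Fin d → ℕ} {D : Set (Fin d → ℕ)} (hG : Good n D) : D.Finite := by
  refine Set.Finite.subset (Finset.finite_toSet (Fintype.piFinset fun l => Finset.range (n l))) fun i hi => ?_
  rw [Finset.mem_coe, Fintype.mem_piFinset]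
  exact fun l => Finset.mem_range.mpr (hG.2.2.1 i hi l)

/-- the weight of one digit vector -/
noncomputable def pr (D : Set (Fin d → ℕ)) (i : Fin d → ℕ) : ℝ := ∏ l, (1 / (Nch D l i : ℝ))

lemma Nch_congr {D : Set (Fin d → ℕ)} {l : Fin d} {e e' : Fin d → ℕ} (h : ∀ l' < l, e l' = e' l') :
    Nch D l e = Nch D l e' := by
  unfold Nch
  congr 1
  ext j
  constructor
  · rintro ⟨i, hi, h1, h2⟩
    exact ⟨i, hi, fun l' hl' => (h1 l' hl').trans (h l' hl'), h2⟩
  · rintro ⟨i, hi, h1, h2⟩
    exact ⟨i, hi, fun l' hl' => (h1 l' hl').trans (h l' hl').symm, h2⟩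

open Classical in
lemma sum_prefix {D : Set (Fin d → ℕ)} (DF : Finset (Fin d → ℕ)) (hDF : ∀ i, i ∈ DF ↔ i ∈ D) :
    ∀ (m j : ℕ), j + m = d → ∀ e ∈ D,
      ∑ i ∈ DF.filter (fun i => ∀ l : Fin d, l.val < j → i l = e l), pr D i =
        ∏ l ∈ Finset.univ.filter (fun l : Fin d => l.val < j), (1 / (Nch D l e : ℝ)) := by
  intro m
  induction m with
  | zero =>
    intro j hj e he
    have h1 : DF.filter (fun i => ∀ l : Fin d, l.val < j → i l = e l) = {e} := by
      ext i
      rw [Finset.mem_filter, Finset.mem_singleton]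
      constructor
      · rintro ⟨-, h⟩
        funext l
        exact h l (by omega)
      · rintro rfl
        exact ⟨(hDF _).mpr he, fun _ _ => rfl⟩
    have h2 : Finset.univ.filter (fun l : Fin d => l.val < j) = Finset.univ := by
      ext l
      simp only [Finset.mem_filter, Finset.mem_univ, true_and, iff_true]
      omega
    rw [h1, h2, Finset.sum_singleton, pr]
  | succ m ih =>
    intro j hj e he
    have hjd : j < d := by omega
    set l0 : Fin d := ⟨j, hjd⟩ with hl0
    set S := DF.filter (fun i => ∀ l : Fin d, l.val < j → i l = e l) with hS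
    set T := S.image (fun i => i l0) with hT
    have heS : e ∈ S := Finset.mem_filter.mpr ⟨(hDF _).mpr he, fun _ _ => rfl⟩
    have hcard : Nch D l0 e = T.card := by
      rw [Nch, ← Set.ncard_coe_finset]
      congr 1
      ext c
      simp only [Set.mem_setOf_eq, hT, hS, Finset.coe_image, Set.mem_image, Finset.mem_coe, Finset.mem_filter, hDF]
      constructor
      · rintro ⟨i, hi, h1, h2⟩
        exact ⟨i, ⟨hi, fun l hl => h1 l hl⟩, h2⟩
      · rintro ⟨i, ⟨hi, h1⟩, h2⟩
        exact ⟨i, hi, fun l hl => h1 l hl, h2⟩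
    have hTpos : (T.card : ℝ) ≠ 0 := by
      have : T.Nonempty := ⟨e l0, Finset.mem_image_of_mem _ heS⟩
      exact_mod_cast this.card_pos.ne'
    have hfil : Finset.univ.filter (fun l : Fin d => l.val < j + 1) =
        insert l0 (Finset.univ.filter (fun l : Fin d => l.val < j)) := by
      ext l
      simp only [Finset.mem_filter, Finset.mem_univ, true_and, Finset.mem_insert, hl0, Fin.ext_iff]
      omega
    have hnot : l0 ∉ Finset.univ.filter (fun l : Fin d => l.val < j) := by
      simp [hl0]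
    have hin : ∀ c ∈ T, ∑ i ∈ S.filter (fun i => i l0 = c), pr D i =
        (1 / (T.card : ℝ)) * ∏ l ∈ Finset.univ.filter (fun l : Fin d => l.val < j), (1 / (Nch D l e : ℝ)) := by
      intro c hc
      obtain ⟨ec, hec, hecc⟩ := Finset.mem_image.mp hc
      have hec' := Finset.mem_filter.mp hec
      have h1 : S.filter (fun i => i l0 = c) = DF.filter (fun i => ∀ l : Fin d, l.val < j + 1 → i l = ec l) := by
        ext i
        simp only [hS, Finset.mem_filter]
        constructor
        · rintro ⟨⟨a1, a2⟩, a3⟩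
          refine ⟨a1, fun l hl => ?_⟩
          rcases Nat.lt_succ_iff_lt_or_eq.mp hl with h | h
          · rw [a2 l h, hec'.2 l h]
          · have : l = l0 := Fin.ext h
            rw [this, a3, hecc]
        · rintro ⟨a1, a2⟩
          refine ⟨⟨a1, fun l hl => ?_⟩, ?_⟩
          · rw [a2 l (by omega), hec'.2 l hl]
          · rw [a2 l0 (by simp [hl0]), hecc]
      rw [h1, ih (j + 1) (by omega) ec ((hDF _).mp hec'.1), hfil, Finset.prod_insert hnot]
      have e1 : Nch D l0 ec = Nch D l0 e := Nch_congr fun l' hl' => hec'.2 l' hl'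
      have e2 : ∏ l ∈ Finset.univ.filter (fun l : Fin d => l.val < j), (1 / (Nch D l ec : ℝ)) =
          ∏ l ∈ Finset.univ.filter (fun l : Fin d => l.val < j), (1 / (Nch D l e : ℝ)) := by
        refine Finset.prod_congr rfl fun l hl => ?_
        have hlj : l.val < j := (Finset.mem_filter.mp hl).2
        rw [Nch_congr (D := D) (l := l) (e := ec) (e' := e) fun l' hl' => hec'.2 l' (lt_trans hl' hlj)]
      rw [e1, e2, hcard]
    rw [← Finset.sum_fiberwise_of_maps_to (t := T) (g := fun i => i l0) (fun i hi => Finset.mem_image_of_mem _ hi),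
      Finset.sum_congr rfl hin, Finset.sum_const, nsmul_eq_mul, ← mul_assoc, mul_one_div_cancel hTpos, one_mul]

/-- antitone predicates on `Fin d` are initial segments -/
lemma initial (Q : Fin d → Prop) (hQ : ∀ l l', l' ≤ l → Q l → Q l') :
    ∃ j, j ≤ d ∧ ∀ l : Fin d, Q l ↔ l.val < j := by
  classical
  by_cases h : ∀ l, Q l
  · exact ⟨d, le_rfl, fun l => ⟨fun _ => l.isLt, fun _ => h l⟩⟩
  · push Not at h
    have hne : (Finset.univ.filter fun l => ¬ Q l).Nonempty := by
      obtain ⟨l, hl⟩ := h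
      exact ⟨l, by simpa using hl⟩
    set l0 := (Finset.univ.filter fun l => ¬ Q l).min' hne with hl0
    have h1 : ¬ Q l0 := by
      have := Finset.min'_mem _ hne
      rw [← hl0] at this
      exact (Finset.mem_filter.mp this).2
    refine ⟨l0.val, l0.isLt.le, fun l => ⟨fun hl => ?_, fun hl => ?_⟩⟩
    · by_contra hcon
      push Not at hcon
      exact h1 (hQ l l0 hcon hl)
    · by_contra hcon
      have : l0 ≤ l := Finset.min'_le _ l (by simpa using hcon)
      exact absurd hl (not_lt.mpr this)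

open Classical in
/-- the mass of a cylinder -/
lemma cyl {D : Set (Fin d → ℕ)} (DF : Finset (Fin d → ℕ)) (hDF : ∀ i, i ∈ DF ↔ i ∈ D) (P : ℕ) (L : Fin d → ℕ)
    (hLP : ∀ l, L l ≤ P) (hanti : ∀ l l', l' ≤ l → L l ≤ L l') (ω : ℕ → Fin d → ℕ) (hω : ω ∈ Dig D) :
    ∑ w ∈ (Fintype.piFinset fun _ : Fin P => DF).filter (fun w => ∀ (p : Fin P) (l : Fin d), p.val < L l →
      w p l = ω p l), ∏ p, pr D (w p) = ∏ l, ∏ p ∈ Finset.range (L l), (1 / (Nch D l (ω p) : ℝ)) := by
  have h1 : (Fintype.piFinset fun _ : Fin P => DF).filter (fun w => ∀ (p : Fin P) (l : Fin d), p.val < L l →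
      w p l = ω p l) = Fintype.piFinset fun p : Fin P => DF.filter fun i => ∀ l : Fin d, p.val < L l → i l = ω p l := by
    ext w
    simp only [Finset.mem_filter, Fintype.mem_piFinset]
    constructor
    · rintro ⟨a1, a2⟩ p
      exact ⟨a1 p, a2 p⟩
    · intro a
      exact ⟨fun p => (a p).1, fun p => (a p).2⟩
  rw [h1, ← Finset.prod_univ_sum (fun p : Fin P => DF.filter fun i => ∀ l : Fin d, p.val < L l → i l = ω p l)
    (fun _ i => pr D i)]
  have h2 : ∀ p : Fin P, ∑ i ∈ DF.filter (fun i => ∀ l : Fin d, p.val < L l → i l = ω p l), pr D i =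
      ∏ l, (if p.val < L l then (1 / (Nch D l (ω p) : ℝ)) else 1) := by
    intro p
    obtain ⟨j, hj, hjQ⟩ := initial (fun l : Fin d => p.val < L l) fun l l' hl h => lt_of_lt_of_le h (hanti l l' hl)
    have h3 := sum_prefix DF hDF (d - j) j (by omega) (ω p) (hω p)
    simp only [← hjQ] at h3
    rw [h3, Finset.prod_filter]
  simp only [h2]
  rw [Finset.prod_comm]
  refine Finset.prod_congr rfl fun l _ => ?_
  rw [← Finset.prod_range (fun p => if p < L l then (1 / (Nch D l (ω p) : ℝ)) else 1), ← Finset.prod_filter]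
  refine Finset.prod_congr ?_ fun _ _ => rfl
  ext p
  simp only [Finset.mem_filter, Finset.mem_range]
  have := hLP l
  omega

theorem main : S_WT := by
  classical
  intro d n D β k k' ω0 rep F hG hβ hkk hω0 hrep hF
  have hfin := finD hG
  set DF := hfin.toFinset with hDFdef
  have hDF : ∀ i, i ∈ DF ↔ i ∈ D := fun i => hfin.mem_toFinset
  obtain ⟨hmono, hn2, hdig, e0, he0⟩ := hG
  set P : ℕ := β ^ k' with hP
  have hLmono : ∀ l, LL β n l k ≤ LL β n l k' := fun l => Nat.log_mono_right (Nat.pow_le_pow_right (by omega) hkk)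
  have hLP' : ∀ l, LL β n l k' ≤ P := fun l => Nat.log_le_self _ _
  have hLP : ∀ l, LL β n l k ≤ P := fun l => (hLmono l).trans (hLP' l)
  have hanti : ∀ (k : ℕ) (l l' : Fin d), l' ≤ l → LL β n l k ≤ LL β n l' k := by
    intro k l l' h
    exact Nat.log_anti_left (by have := hn2 l'; omega) (hmono.monotone h)
  -- extension of words
  set ex : (Fin P → Fin d → ℕ) → ℕ → Fin d → ℕ := fun w p => if h : p < P then w ⟨p, h⟩ else e0 with hex
  have hexD : ∀ w ∈ (Fintype.piFinset fun _ : Fin P => DF), ex w ∈ Dig D := by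
    intro w hw p
    rw [Fintype.mem_piFinset] at hw
    simp only [hex]
    split_ifs with h
    · exact (hDF _).mp (hw ⟨p, h⟩)
    · exact he0
  have hbox : ∀ (k : ℕ), ∀ ω ∈ Dig D, ∀ ω' ∈ Dig D, box β n k ω = box β n k ω' ↔
      ∀ (p : ℕ) (l : Fin d), p < LL β n l k → ω p l = ω' p l := by
    intro k ω hω ω' hω'
    constructor
    · intro h p l hp
      have h1 := congrFun h l
      exact num_inj (n := n l) (a := fun p => ω p l) (a' := fun p => ω' p l) (fun p => hdig _ (hω p) l)
        (fun p => hdig _ (hω' p) l) h1 p hp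
    · intro h
      funext l
      exact num_congr fun p hp => h p l hp
  have hmass : ∀ (k : ℕ), (∀ l, LL β n l k ≤ P) → ∀ ω ∈ Dig D,
      ∑ w ∈ (Fintype.piFinset fun _ : Fin P => DF).filter (fun w => box β n k (ex w) = box β n k ω),
        ∏ p, pr D (w p) = wt β n D k ω := by
    intro k hk ω hω
    rw [wt, ← cyl DF hDF P (fun l => LL β n l k) hk (hanti k) ω hω]
    refine Finset.sum_congr ?_ fun _ _ => rfl
    refine Finset.filter_congr fun w hw => ?_
    rw [hbox k (ex w) (hexD w hw) ω hω]
    constructor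
    · intro h p l hp
      have := h p l hp
      simp only [hex, p.isLt, dif_pos] at this
      exact this
    · intro h p l hp
      have hpP : p < P := lt_of_lt_of_le hp (hk l)
      have := h ⟨p, hpP⟩ l hp
      simp only [hex, hpP, dif_pos]
      exact this
  have h1 : ∀ u ∈ F, wt β n D k' (rep u) = ∑ w ∈ ((Fintype.piFinset fun _ : Fin P => DF).filter
      (fun w => box β n k (ex w) = box β n k ω0)).filter (fun w => box β n k' (ex w) = u), ∏ p, pr D (w p) := by
    intro u hu
    obtain ⟨r1, r2⟩ := hrep u hu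
    rw [← hmass k' hLP' (rep u) r1, r2]
    refine Finset.sum_congr ?_ fun _ _ => rfl
    ext w
    simp only [Finset.mem_filter]
    constructor
    · rintro ⟨a1, a2⟩
      refine ⟨⟨a1, ?_⟩, a2⟩
      obtain ⟨ω, b1, b2, b3⟩ := (hF u).mp hu
      rw [← b3, hbox k (ex w) (hexD w a1) ω b1]
      intro p l hp
      exact (hbox k' (ex w) (hexD w a1) ω b1).mp (by rw [a2, b2]) p l (lt_of_lt_of_le hp (hLmono l))
    · rintro ⟨⟨a1, -⟩, a2⟩
      exact ⟨a1, a2⟩
  rw [Finset.sum_congr rfl h1, Finset.sum_fiberwise_of_maps_to (fun w hw => ?_), hmass k hLP ω0 hω0]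
  rw [Finset.mem_filter] at hw
  exact (hF _).mpr ⟨ex w, hexD w hw.1, rfl, hw.2⟩

end Pool.Agent.R660.SH.WT
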